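import Pool.Agent.Helper24.GEO.OneS

/-!
# GEO-20: the boundary of a column has a ruling (project GEO, MP_409f7f_co)

`G = D = bS`: `FC.one_S` with the outer ends `u' = vx 0 (n - 1)`, `w' = vx 1 (n - 1)`, `α = α' = !g1`
(`FC.key_N`: both keys are `KN`): `Cyc KN KN KS` (`cyc_self`, `FC.ks_ne_kn`) and `EE bS f` is empty
(`FC.EE_bS`, `rul_empty`).
-/

namespace Pool.Agent.Helper24.GEO

open Pool.Agent.Helper17.UF Pool.Agent.Helper53.GP Pool.Agent.Helper24.RUL

theorem base_side (S : Strip) {s : ℤ} (hs : s = 0 ∨ s = 1) {i : ℕ} (hi : i < S.n) :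
    s(S.vx s i, S.vx s (i + 1)) ∈ S.bS := by
  unfold Strip.bS
  rcases hs with rfl | rfl
  · exact Finset.mem_union_left _ (Finset.mem_union_left _
      (Finset.mem_image.2 ⟨i, Finset.mem_range.2 hi, rfl⟩))
  · exact Finset.mem_union_left _ (Finset.mem_union_right _
      (Finset.mem_image.2 ⟨i, Finset.mem_range.2 hi, rfl⟩))

theorem base (S : Strip) : R S.bS := by
  obtain ⟨f, v, h⟩ := exists_FC S S.bS
  have hn : 2 ≤ S.n := Strip.two_le S
  have hG : S.bS ⊆ S.bS := Finset.Subset.refl _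
  have hGD : ∀ ε ∈ S.bS, ε ∉ S.bS → ε ∈ S.bS := fun ε h1 _ => h1
  have he : s(S.vx 0 0, S.vx 1 0) ∈ S.bS := by
    unfold Strip.bS
    exact Finset.mem_union_right _ (Finset.mem_insert_self _ _)
  have heN : s(S.vx 0 S.n, S.vx 1 S.n) ∈ S.bS := by
    unfold Strip.bS
    exact Finset.mem_union_right _ (Finset.mem_insert_of_mem (Finset.mem_singleton_self _))
  have hside : ∀ {s : ℤ}, (s = 0 ∨ s = 1) → ∀ {i j : ℕ}, 1 ≤ i → i ≤ j → j < S.n →
      HC S.bS (S.vx s i) (S.vx s j) := fun {s} hs {i j} h1 hij hj =>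
    hc_side hs h1 hij hj (fun m _ h3 => base_side S hs (lt_trans h3 hj))
  have hVE : ∀ {s : ℤ}, (s = 0 ∨ s = 1) → VE S.bS (!S.g1) (S.vx s (S.n - 1)) := by
    intro s hs
    have h1 := base_side S hs (i := S.n - 1) (by omega)
    have h2 : S.n - 1 + 1 = S.n := by omega
    rw [h2, Strip.vx_n] at h1
    exact h1
  have hne : ∀ {s : ℤ}, (s = 0 ∨ s = 1) →
      ¬ (S.vx s (S.n - 1) = S.vx s 1 ∧ (!S.g1) = (!S.g0)) := by
    rintro s hs ⟨h1, h2⟩
    apply h.ks_ne_kn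
    rw [← h.key_S hG hs, ← h.key_N hG hs, h1, h2]
  refine (h.one_S hG hG hGD (Strip.valid_bS S) (base_side S (Or.inl rfl) (by omega))
    (base_side S (Or.inr rfl) (by omega)) he (fun _ _ => heN)
    (fun s i hs h1 h2 _ => (hside hs (le_refl 1) h1 h2).symm)
    (hside (Or.inl rfl) (le_refl 1) (by omega) (by omega)) (hVE (Or.inl rfl)) (hne (Or.inl rfl))
    (hside (Or.inr rfl) (le_refl 1) (by omega) (by omega)) (hVE (Or.inr rfl))
    (hne (Or.inr rfl))).2 ⟨?_, ?_⟩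
  · rw [h.key_N hG (Or.inl rfl), h.key_N hG (Or.inr rfl)]
    exact cyc_self (fun he => h.ks_ne_kn he.symm)
  · rw [h.EE_bS hG]
    exact rul_empty

end Pool.Agent.Helper24.GEO
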