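import Pool.Agent.Helper24.GEO.Defs

/-!
# GEO-01: coordinates and Legendrian edges (project GEO, MP_409f7f_co)

All statements are case checks `k % 4 = 0, 1, 2, 3` and linear arithmetic.
`dk k = px, py, nx, ny` for `k % 4 = 0, 1, 2, 3` (`dk_0`, .. in `Helper53/GP/Field.lean`).
-/

namespace Pool.Agent.Helper24.GEO

open Pool.Agent.Helper17.UF Pool.Agent.Helper53.GP Pool.Agent.Helper24.RUL

theorem md4 (k : ℤ) : k % 4 = 0 ∨ k % 4 = 1 ∨ k % 4 = 2 ∨ k % 4 = 3 := by omega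

theorem xc_e0 {k : ℤ} (h : k % 4 = 0) (p : Cube) : xc k p = p.1 := by simp [xc, h]
theorem xc_e1 {k : ℤ} (h : k % 4 = 1) (p : Cube) : xc k p = p.2.1 := by simp [xc, h]
theorem xc_e2 {k : ℤ} (h : k % 4 = 2) (p : Cube) : xc k p = -p.1 := by simp [xc, h]
theorem xc_e3 {k : ℤ} (h : k % 4 = 3) (p : Cube) : xc k p = -p.2.1 := by simp [xc, h]

theorem ptk_e0 {k : ℤ} (h : k % 4 = 0) (x y z : ℤ) : ptk k x y z = (x, y, z) := by simp [ptk, h]
theorem ptk_e1 {k : ℤ} (h : k % 4 = 1) (x y z : ℤ) : ptk k x y z = (-y, x, z) := by simp [ptk, h]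
theorem ptk_e2 {k : ℤ} (h : k % 4 = 2) (x y z : ℤ) : ptk k x y z = (-x, -y, z) := by
  simp [ptk, h]
theorem ptk_e3 {k : ℤ} (h : k % 4 = 3) (x y z : ℤ) : ptk k x y z = (y, -x, z) := by simp [ptk, h]

theorem nx_e0 {p : Cube} (h : p.2.2 % 4 = 0) : nx p = (p.1, p.2.1 + 1, p.2.2) := by
  obtain ⟨a, b, c⟩ := p
  simp only at h
  simp [nx, dk_1 (show (c + 1) % 4 = 1 by omega), Dir.vec]
theorem nx_e1 {p : Cube} (h : p.2.2 % 4 = 1) : nx p = (p.1 - 1, p.2.1, p.2.2) := by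
  obtain ⟨a, b, c⟩ := p
  simp only at h
  simp [nx, dk_2 (show (c + 1) % 4 = 2 by omega), Dir.vec, sub_eq_add_neg]
theorem nx_e2 {p : Cube} (h : p.2.2 % 4 = 2) : nx p = (p.1, p.2.1 - 1, p.2.2) := by
  obtain ⟨a, b, c⟩ := p
  simp only at h
  simp [nx, dk_3 (show (c + 1) % 4 = 3 by omega), Dir.vec, sub_eq_add_neg]
theorem nx_e3 {p : Cube} (h : p.2.2 % 4 = 3) : nx p = (p.1 + 1, p.2.1, p.2.2) := by
  obtain ⟨a, b, c⟩ := p
  simp only at h
  simp [nx, dk_0 (show (c + 1) % 4 = 0 by omega), Dir.vec]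

theorem pv_e0 {p : Cube} (h : p.2.2 % 4 = 0) : pv p = (p.1, p.2.1 - 1, p.2.2) := by
  obtain ⟨a, b, c⟩ := p
  simp only at h
  simp [pv, dk_1 (show (c + 1) % 4 = 1 by omega), Dir.vec]
theorem pv_e1 {p : Cube} (h : p.2.2 % 4 = 1) : pv p = (p.1 + 1, p.2.1, p.2.2) := by
  obtain ⟨a, b, c⟩ := p
  simp only at h
  simp [pv, dk_2 (show (c + 1) % 4 = 2 by omega), Dir.vec]
theorem pv_e2 {p : Cube} (h : p.2.2 % 4 = 2) : pv p = (p.1, p.2.1 + 1, p.2.2) := by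
  obtain ⟨a, b, c⟩ := p
  simp only at h
  simp [pv, dk_3 (show (c + 1) % 4 = 3 by omega), Dir.vec]
theorem pv_e3 {p : Cube} (h : p.2.2 % 4 = 3) : pv p = (p.1 - 1, p.2.1, p.2.2) := by
  obtain ⟨a, b, c⟩ := p
  simp only at h
  simp [pv, dk_0 (show (c + 1) % 4 = 0 by omega), Dir.vec]

theorem ptk_z (k x y z : ℤ) : (ptk k x y z).2.2 = z := by
  rcases md4 k with h | h | h | h
  · rw [ptk_e0 h]
  · rw [ptk_e1 h]
  · rw [ptk_e2 h]
  · rw [ptk_e3 h]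

theorem xc_ptk (k x y z : ℤ) : xc k (ptk k x y z) = x := by
  rcases md4 k with h | h | h | h
  · rw [ptk_e0 h, xc_e0 h]
  · rw [ptk_e1 h, xc_e1 h]
  · rw [ptk_e2 h, xc_e2 h]; simp
  · rw [ptk_e3 h, xc_e3 h]; simp

theorem xc_ptk' (k x y z : ℤ) : xc (k + 1) (ptk k x y z) = y := by
  rcases md4 k with h | h | h | h
  · rw [ptk_e0 h, xc_e1 (by omega)]
  · rw [ptk_e1 h, xc_e2 (by omega)]; simp
  · rw [ptk_e2 h, xc_e3 (by omega)]; simp
  · rw [ptk_e3 h, xc_e0 (by omega)]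

theorem ptk_eta (k : ℤ) (p : Cube) : ptk k (xc k p) (xc (k + 1) p) p.2.2 = p := by
  rcases md4 k with h | h | h | h
  · rw [ptk_e0 h, xc_e0 h, xc_e1 (by omega)]
  · rw [ptk_e1 h, xc_e1 h, xc_e2 (by omega)]; simp
  · rw [ptk_e2 h, xc_e2 h, xc_e3 (by omega)]; simp
  · rw [ptk_e3 h, xc_e3 h, xc_e0 (by omega)]; simp

theorem xc_pred (k : ℤ) (p : Cube) : xc (k - 1) p = -xc (k + 1) p := by
  rcases md4 k with h | h | h | h
  · rw [xc_e3 (by omega), xc_e1 (by omega)]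
  · rw [xc_e0 (by omega), xc_e2 (by omega)]; simp
  · rw [xc_e1 (by omega), xc_e3 (by omega)]; simp
  · rw [xc_e2 (by omega), xc_e0 (by omega)]

theorem xc_two (k : ℤ) (p : Cube) : xc (k + 2) p = -xc k p := by
  rcases md4 k with h | h | h | h
  · rw [xc_e2 (by omega), xc_e0 (by omega)]
  · rw [xc_e3 (by omega), xc_e1 (by omega)]
  · rw [xc_e0 (by omega), xc_e2 (by omega)]; simp
  · rw [xc_e1 (by omega), xc_e3 (by omega)]; simp

theorem cube_ext (k : ℤ) {p q : Cube} (h1 : xc k p = xc k q) (h2 : xc (k + 1) p = xc (k + 1) q)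
    (h3 : p.2.2 = q.2.2) : p = q := by
  rw [← ptk_eta k p, ← ptk_eta k q, h1, h2, h3]

theorem up_z (p : Cube) : (up p).2.2 = p.2.2 + 1 := rfl
theorem dn_z (p : Cube) : (dn p).2.2 = p.2.2 - 1 := rfl
theorem nx_z (p : Cube) : (nx p).2.2 = p.2.2 := by
  rcases md4 p.2.2 with h | h | h | h
  · rw [nx_e0 h]
  · rw [nx_e1 h]
  · rw [nx_e2 h]
  · rw [nx_e3 h]
theorem pv_z (p : Cube) : (pv p).2.2 = p.2.2 := by
  rcases md4 p.2.2 with h | h | h | h
  · rw [pv_e0 h]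
  · rw [pv_e1 h]
  · rw [pv_e2 h]
  · rw [pv_e3 h]
theorem xc_up (k : ℤ) (p : Cube) : xc k (up p) = xc k p := rfl
theorem xc_dn (k : ℤ) (p : Cube) : xc k (dn p) = xc k p := rfl
theorem xc_nx (p : Cube) : xc p.2.2 (nx p) = xc p.2.2 p := by
  rcases md4 p.2.2 with h | h | h | h
  · rw [nx_e0 h, xc_e0 h, xc_e0 h]
  · rw [nx_e1 h, xc_e1 h, xc_e1 h]
  · rw [nx_e2 h, xc_e2 h, xc_e2 h]
  · rw [nx_e3 h, xc_e3 h, xc_e3 h]
theorem xc_nx' (p : Cube) : xc (p.2.2 + 1) (nx p) = xc (p.2.2 + 1) p + 1 := by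
  rcases md4 p.2.2 with h | h | h | h
  · rw [nx_e0 h, xc_e1 (by omega), xc_e1 (by omega)]
  · rw [nx_e1 h, xc_e2 (by omega), xc_e2 (by omega)]; ring
  · rw [nx_e2 h, xc_e3 (by omega), xc_e3 (by omega)]; ring
  · rw [nx_e3 h, xc_e0 (by omega), xc_e0 (by omega)]
theorem xc_pv (p : Cube) : xc p.2.2 (pv p) = xc p.2.2 p := by
  rcases md4 p.2.2 with h | h | h | h
  · rw [pv_e0 h, xc_e0 h, xc_e0 h]
  · rw [pv_e1 h, xc_e1 h, xc_e1 h]
  · rw [pv_e2 h, xc_e2 h, xc_e2 h]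
  · rw [pv_e3 h, xc_e3 h, xc_e3 h]
theorem xc_pv' (p : Cube) : xc (p.2.2 + 1) (pv p) = xc (p.2.2 + 1) p - 1 := by
  rcases md4 p.2.2 with h | h | h | h
  · rw [pv_e0 h, xc_e1 (by omega), xc_e1 (by omega)]
  · rw [pv_e1 h, xc_e2 (by omega), xc_e2 (by omega)]; ring
  · rw [pv_e2 h, xc_e3 (by omega), xc_e3 (by omega)]; ring
  · rw [pv_e3 h, xc_e0 (by omega), xc_e0 (by omega)]
theorem nx_pv (p : Cube) : nx (pv p) = p := by
  refine cube_ext p.2.2 ?_ ?_ ((nx_z _).trans (pv_z _))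
  · have h := xc_nx (pv p)
    rw [pv_z] at h
    rw [h, xc_pv]
  · have h := xc_nx' (pv p)
    rw [pv_z] at h
    rw [h, xc_pv']
    ring
theorem pv_nx (p : Cube) : pv (nx p) = p := by
  refine cube_ext p.2.2 ?_ ?_ ((pv_z _).trans (nx_z _))
  · have h := xc_pv (nx p)
    rw [nx_z] at h
    rw [h, xc_nx]
  · have h := xc_pv' (nx p)
    rw [nx_z] at h
    rw [h, xc_nx']
    ring
theorem up_dn (p : Cube) : up (dn p) = p := by
  obtain ⟨a, b, c⟩ := p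
  simp [up, dn]
theorem dn_up (p : Cube) : dn (up p) = p := by
  obtain ⟨a, b, c⟩ := p
  simp [up, dn]

theorem up_ptk (k x y z : ℤ) : up (ptk k x y z) = ptk k x y (z + 1) := by
  refine cube_ext k ?_ ?_ ?_
  · rw [xc_up, xc_ptk, xc_ptk]
  · rw [xc_up, xc_ptk', xc_ptk']
  · rw [up_z, ptk_z, ptk_z]
theorem dn_ptk (k x y z : ℤ) : dn (ptk k x y z) = ptk k x y (z - 1) := by
  refine cube_ext k ?_ ?_ ?_
  · rw [xc_dn, xc_ptk, xc_ptk]
  · rw [xc_dn, xc_ptk', xc_ptk']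
  · rw [dn_z, ptk_z, ptk_z]
theorem nx_ptk (k x y : ℤ) : nx (ptk k x y k) = ptk k x (y + 1) k := by
  have hz : (ptk k x y k).2.2 = k := ptk_z k x y k
  have h1 := xc_nx (ptk k x y k)
  have h2 := xc_nx' (ptk k x y k)
  rw [hz, xc_ptk] at h1
  rw [hz, xc_ptk'] at h2
  refine cube_ext k ?_ ?_ ?_
  · rw [h1, xc_ptk]
  · rw [h2, xc_ptk']
  · rw [nx_z, ptk_z, ptk_z]
theorem nx_ptk_up (k x y : ℤ) : nx (ptk k x y (k + 1)) = ptk k (x - 1) y (k + 1) := by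
  have hz : (ptk k x y (k + 1)).2.2 = k + 1 := ptk_z k x y (k + 1)
  have h1 := xc_nx (ptk k x y (k + 1))
  have h2 := xc_nx' (ptk k x y (k + 1))
  rw [hz, xc_ptk'] at h1
  rw [hz, show k + 1 + 1 = k + 2 by ring, xc_two, xc_two, xc_ptk] at h2
  refine cube_ext k ?_ ?_ ?_
  · rw [xc_ptk]; omega
  · rw [h1, xc_ptk']
  · rw [nx_z, ptk_z, ptk_z]
theorem nx_ptk_dn (k x y : ℤ) : nx (ptk k x y (k - 1)) = ptk k (x + 1) y (k - 1) := by
  have hz : (ptk k x y (k - 1)).2.2 = k - 1 := ptk_z k x y (k - 1)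
  have h1 := xc_nx (ptk k x y (k - 1))
  have h2 := xc_nx' (ptk k x y (k - 1))
  rw [hz, xc_pred, xc_pred, xc_ptk'] at h1
  rw [hz, show k - 1 + 1 = k by ring, xc_ptk] at h2
  refine cube_ext k ?_ ?_ ?_
  · rw [h2, xc_ptk]
  · rw [xc_ptk']; omega
  · rw [nx_z, ptk_z, ptk_z]

theorem up_ne (p q : Cube) (h : p.2.2 = q.2.2) : up p ≠ q := by
  intro h'
  have := congrArg (fun t : Cube => t.2.2) h'
  simp only [up_z] at this
  omega

theorem upE_inj {p q : Cube} : upE p = upE q ↔ p = q := by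
  refine ⟨fun h => ?_, fun h => by rw [h]⟩
  unfold upE at h
  rcases Sym2.eq_iff.1 h with ⟨h1, -⟩ | ⟨h1, h2⟩
  · exact h1
  · have h3 := congrArg (fun t : Cube => t.2.2) h1
    have h4 := congrArg (fun t : Cube => t.2.2) h2
    simp only [up_z] at h3 h4
    omega
theorem hzE_inj {p q : Cube} : hzE p = hzE q ↔ p = q := by
  refine ⟨fun h => ?_, fun h => by rw [h]⟩
  unfold hzE at h
  rcases Sym2.eq_iff.1 h with ⟨h1, -⟩ | ⟨h1, h2⟩
  · exact h1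
  · have hz : p.2.2 = q.2.2 := by rw [h1, nx_z]
    have h3 := xc_nx' q
    have h4 := xc_nx' p
    rw [← h1, ← hz] at h3
    rw [h2] at h4
    omega
theorem upE_ne_hzE (p q : Cube) : upE p ≠ hzE q := by
  intro h
  unfold upE hzE at h
  rcases Sym2.eq_iff.1 h with ⟨h1, h2⟩ | ⟨h1, h2⟩
  · have h3 := congrArg (fun t : Cube => t.2.2) h1
    have h4 := congrArg (fun t : Cube => t.2.2) h2
    simp only [up_z, nx_z] at h3 h4
    omega
  · have h3 := congrArg (fun t : Cube => t.2.2) h1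
    have h4 := congrArg (fun t : Cube => t.2.2) h2
    simp only [up_z, nx_z] at h3 h4
    omega
theorem mem_upE {p q : Cube} : q ∈ upE p ↔ q = p ∨ q = up p := Sym2.mem_iff
theorem mem_hzE {p q : Cube} : q ∈ hzE p ↔ q = p ∨ q = nx p := Sym2.mem_iff

theorem stp_0 (u : Cube) : stp 0 u = up u := rfl
theorem stp_1 (u : Cube) : stp 1 u = nx u := rfl
theorem stp_2 (u : Cube) : stp 2 u = dn u := rfl
theorem stp_3 (u : Cube) : stp 3 u = pv u := rfl

/-- The edges at a point. -/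
theorem edge_stp (u : Cube) : s(u, stp 0 u) = upE u ∧ s(u, stp 1 u) = hzE u ∧
    s(u, stp 2 u) = upE (dn u) ∧ s(u, stp 3 u) = hzE (pv u) := by
  refine ⟨rfl, rfl, ?_, ?_⟩
  · rw [stp_2, upE, up_dn, Sym2.eq_swap]
  · rw [stp_3, hzE, nx_pv, Sym2.eq_swap]

theorem stp_inj {u : Cube} {d d' : Fin 4} (h : stp d u = stp d' u) : d = d' := by
  have hz : (stp d u).2.2 = (stp d' u).2.2 := by rw [h]
  have hx : xc (u.2.2 + 1) (stp d u) = xc (u.2.2 + 1) (stp d' u) := by rw [h]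
  have e0 : (stp 0 u).2.2 = u.2.2 + 1 := up_z u
  have e1 : (stp 1 u).2.2 = u.2.2 := nx_z u
  have e2 : (stp 2 u).2.2 = u.2.2 - 1 := dn_z u
  have e3 : (stp 3 u).2.2 = u.2.2 := pv_z u
  have f1 : xc (u.2.2 + 1) (stp 1 u) = xc (u.2.2 + 1) u + 1 := xc_nx' u
  have f3 : xc (u.2.2 + 1) (stp 3 u) = xc (u.2.2 + 1) u - 1 := xc_pv' u
  fin_cases d <;> fin_cases d' <;> first
    | rfl
    | (exfalso
       simp only [Fin.mk_zero, Fin.mk_one, Fin.reduceFinMk, Fin.zero_eta] at hz hx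
       first
       | (rw [e0, e1] at hz; omega) | (rw [e0, e2] at hz; omega) | (rw [e0, e3] at hz; omega)
       | (rw [e1, e0] at hz; omega) | (rw [e1, e2] at hz; omega)
       | (rw [e2, e0] at hz; omega) | (rw [e2, e1] at hz; omega) | (rw [e2, e3] at hz; omega)
       | (rw [e3, e0] at hz; omega) | (rw [e3, e2] at hz; omega)
       | (rw [f1, f3] at hx; omega) | (rw [f3, f1] at hx; omega))

theorem edge_stp_inj {u : Cube} {d d' : Fin 4} (h : s(u, stp d u) = s(u, stp d' u)) :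
    d = d' := stp_inj (Sym2.congr_right.1 h)

/-- The edge of a vertical end. -/
theorem fr_eq (b : Bool) (u : Cube) : fr b u = stp (if b then 2 else 0) u := by
  cases b <;> rfl

theorem fr_z (b : Bool) (u : Cube) : (fr b u).2.2 = u.2.2 + (if b then -1 else 1) := by
  cases b <;> rfl

theorem xc_fr (k : ℤ) (b : Bool) (u : Cube) : xc k (fr b u) = xc k u := by
  cases b <;> rfl

theorem fr_inj {b : Bool} {u w : Cube} (h : fr b u = fr b w) : u = w := by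
  refine cube_ext 0 ?_ ?_ ?_
  · rw [← xc_fr 0 b u, h, xc_fr]
  · rw [← xc_fr _ b u, h, xc_fr]
  · have h1 := congrArg (fun t : Cube => t.2.2) h
    simp only [fr_z] at h1
    omega

theorem leg_at {ε : Sym2 Cube} {u : Cube} (h : ∃ p, ε = upE p ∨ ε = hzE p) (hu : u ∈ ε) :
    ∃ d : Fin 4, ε = s(u, stp d u) := by
  obtain ⟨p, rfl | rfl⟩ := h
  · rcases mem_upE.1 hu with rfl | rfl
    · exact ⟨0, (edge_stp u).1.symm⟩
    · exact ⟨2, by rw [(edge_stp (up p)).2.2.1, dn_up]⟩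
  · rcases mem_hzE.1 hu with rfl | rfl
    · exact ⟨1, (edge_stp u).2.1.symm⟩
    · exact ⟨3, by rw [(edge_stp (nx p)).2.2.2, pv_nx]⟩

/-- In a Legendrian curve the degree is the number of directions. -/
theorem deg_dirs {C : Finset (Sym2 Cube)} (hC : ∀ ε ∈ C, ∃ p, ε = upE p ∨ ε = hzE p)
    (u : Cube) : (C.filter (fun ε => u ∈ ε)).card =
      (Finset.univ.filter (fun d : Fin 4 => s(u, stp d u) ∈ C)).card := by
  have h : C.filter (fun ε => u ∈ ε) =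
      (Finset.univ.filter (fun d : Fin 4 => s(u, stp d u) ∈ C)).image
        (fun d => s(u, stp d u)) := by
    ext ε
    simp only [Finset.mem_filter, Finset.mem_image, Finset.mem_univ, true_and]
    constructor
    · rintro ⟨h1, h2⟩
      obtain ⟨d, hd⟩ := leg_at (hC ε h1) h2
      exact ⟨d, hd ▸ h1, hd.symm⟩
    · rintro ⟨d, h1, rfl⟩
      exact ⟨h1, Sym2.mem_mk_left _ _⟩
  rw [h, Finset.card_image_of_injective _ fun d d' hd => edge_stp_inj hd]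

theorem on_iff {C : Finset (Sym2 Cube)} (hC : ∀ ε ∈ C, ∃ p, ε = upE p ∨ ε = hzE p) (u : Cube) :
    On C u ↔ ∃ d : Fin 4, s(u, stp d u) ∈ C := by
  constructor
  · rintro ⟨ε, h1, h2⟩
    obtain ⟨d, hd⟩ := leg_at (hC ε h1) h2
    exact ⟨d, hd ▸ h1⟩
  · rintro ⟨d, hd⟩
    exact ⟨_, hd, Sym2.mem_mk_left _ _⟩

end Pool.Agent.Helper24.GEO
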