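import Pool.Agent.Helper24.GEO.Seg
import Pool.Agent.Helper24.RUL.FingerDef

/-!
# GEO-03: the link of a curve (project GEO, MP_409f7f_co)

`img2_comp`, `img2_symmDiff`, `img2_inj`, `mem_img2` are in `RUL/FingerDef.lean`.
-/

namespace Pool.Agent.Helper24.GEO

open Pool.Agent.Helper17.UF Pool.Agent.Helper53.GP Pool.Agent.Helper24.RUL

variable {C D : Finset (Sym2 Cube)} {f : Cube → ℚ} {k : ℤ}

theorem mem_Vk {p : Cube} : p ∈ Vk C k ↔ p.2.2 = k ∧ upE p ∈ C := by
  unfold Vk
  rw [Finset.mem_filter, Finset.mem_biUnion]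
  constructor
  · exact fun h => h.2
  · intro h
    exact ⟨⟨upE p, h.2, Sym2.mem_toFinset.2 (mem_upE.2 (Or.inl rfl))⟩, h⟩

private theorem LC_on_of_up {p : Cube} (h : upE p ∈ C) : On C p ∧ On C (up p) :=
  ⟨⟨_, h, mem_upE.2 (Or.inl rfl)⟩, ⟨_, h, mem_upE.2 (Or.inr rfl)⟩⟩

/-- The same value at the same level: the same line. -/
private theorem LC_same_line (hf : Mod C f) {p q : Cube} (hp : On C p) (hq : On C q)
    (hl : p.2.2 = q.2.2) (h : f p = f q) : xc p.2.2 p = xc p.2.2 q :=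
  (hf.sep p q hp hq hl h).line

/-- Different vertical edges have different strands (their lines at the levels `k` and `k + 1`
determine the edge). -/
theorem mod_inj (hf : Mod C f) {p q : Cube} (hp : p ∈ Vk C k) (hq : q ∈ Vk C k)
    (h : f p = f q) (h' : f (up p) = f (up q)) : p = q := by
  rw [mem_Vk] at hp hq
  obtain ⟨hp1, hp2⟩ := LC_on_of_up hp.2
  obtain ⟨hq1, hq2⟩ := LC_on_of_up hq.2
  have hl : p.2.2 = q.2.2 := by rw [hp.1, hq.1]
  have hl' : (up p).2.2 = (up q).2.2 := by rw [up_z, up_z, hl]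
  have h1 := LC_same_line hf hp1 hq1 hl h
  have h2 := LC_same_line hf hp2 hq2 hl' h'
  rw [up_z, xc_up, xc_up] at h2
  exact cube_ext p.2.2 h1 h2 hl

theorem mem_EE (hf : Mod C f) {x y : ℚ} :
    (x, y) ∈ EE C f k ↔ ∃ p, p.2.2 = k ∧ upE p ∈ C ∧ f p = x ∧ f (up p) = y := by
  have h1 : EE C f k = (Vk C k).image (fun p => (f p, f (up p))) := by
    unfold EE
    refine img2_inj ?_
    intro p hp q hq h
    rw [Prod.mk.injEq] at h
    exact mod_inj hf hp hq h.1 h.2
  rw [h1, Finset.mem_image]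
  constructor
  · rintro ⟨p, hp, h⟩
    rw [mem_Vk] at hp
    rw [Prod.mk.injEq] at h
    exact ⟨p, hp.1, hp.2, h.1, h.2⟩
  · rintro ⟨p, hp, hp', h, h'⟩
    exact ⟨p, mem_Vk.2 ⟨hp, hp'⟩, by rw [h, h']⟩

private theorem LC_ve_true {u : Cube} : VE C true u ↔ upE (dn u) ∈ C := by
  unfold VE fr upE
  rw [if_pos rfl, up_dn, Sym2.eq_swap]

private theorem LC_ve_false {u : Cube} : VE C false u ↔ upE u ∈ C := by
  unfold VE fr upE
  rw [if_neg Bool.false_ne_true]

theorem endAt_EE (hf : Mod C f) {v : ℚ} {κ : Bool × ℚ} :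
    EndAt (EE C f) k v κ ↔ ∃ b u, u.2.2 = k ∧ f u = v ∧ VE C b u ∧ κ = key f b u := by
  obtain ⟨c, z⟩ := κ
  unfold EndAt key
  cases c with
  | false =>
    rw [if_neg Bool.false_ne_true, mem_EE hf]
    constructor
    · rintro ⟨p, h1, h2, h3, h4⟩
      refine ⟨false, p, h1, h3, LC_ve_false.2 h2, ?_⟩
      unfold fr
      rw [if_neg Bool.false_ne_true, h4]
    · rintro ⟨b, u, h1, h2, h3, h4⟩
      rw [Prod.mk.injEq] at h4
      obtain ⟨rfl, h5⟩ := h4
      unfold fr at h5
      rw [if_neg Bool.false_ne_true] at h5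
      exact ⟨u, h1, LC_ve_false.1 h3, h2, h5.symm⟩
  | true =>
    rw [if_pos rfl, mem_EE hf]
    constructor
    · rintro ⟨p, h1, h2, h3, h4⟩
      refine ⟨true, up p, by rw [up_z, h1]; ring, h4, LC_ve_true.2 (by rw [dn_up]; exact h2), ?_⟩
      unfold fr
      rw [if_pos rfl, dn_up, h3]
    · rintro ⟨b, u, h1, h2, h3, h4⟩
      rw [Prod.mk.injEq] at h4
      obtain ⟨rfl, h5⟩ := h4
      unfold fr at h5
      rw [if_pos rfl] at h5
      exact ⟨dn u, by rw [dn_z, h1], LC_ve_true.1 h3, h5.symm, by rw [up_dn, h2]⟩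

theorem key_inj (hf : Mod C f) {b b' : Bool} {u u' : Cube} (hu : VE C b u) (hu' : VE C b' u')
    (hl : u.2.2 = u'.2.2) (h : f u = f u') (hk : key f b u = key f b' u') : u = u' ∧ b = b' := by
  unfold key at hk
  rw [Prod.mk.injEq] at hk
  obtain ⟨rfl, hk⟩ := hk
  refine ⟨?_, rfl⟩
  have hl' : (fr b u).2.2 = (fr b u').2.2 := by rw [fr_z, fr_z, hl]
  have h1 := LC_same_line hf hu.on.1 hu'.on.1 hl h
  have h2 := LC_same_line hf hu.on.2 hu'.on.2 hl' hk
  rw [fr_z, xc_fr, xc_fr] at h2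
  cases b with
  | false =>
    rw [if_neg Bool.false_ne_true] at h2
    exact cube_ext u.2.2 h1 h2 hl
  | true =>
    rw [if_pos rfl, ← sub_eq_add_neg, xc_pred, xc_pred] at h2
    exact cube_ext u.2.2 h1 (neg_injective h2) hl

/-- The keys of the ends at a value. -/
private def LC_K (E : Lk) (k : ℤ) (v : ℚ) : Finset (Bool × ℚ) :=
  ((E (k - 1)).filter (fun s => s.2 = v)).image (fun s => (true, s.1)) ∪
  ((E k).filter (fun s => s.1 = v)).image (fun s => (false, s.2))

private theorem LC_mem_K {E : Lk} {v : ℚ} {κ : Bool × ℚ} : κ ∈ LC_K E k v ↔ EndAt E k v κ := by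
  obtain ⟨c, z⟩ := κ
  unfold LC_K EndAt
  rw [Finset.mem_union, Finset.mem_image, Finset.mem_image]
  cases c with
  | false =>
    rw [if_neg Bool.false_ne_true]
    constructor
    · rintro (⟨s, hs, h⟩ | ⟨s, hs, h⟩)
      · rw [Prod.mk.injEq] at h
        exact absurd h.1.symm Bool.false_ne_true
      · rw [Prod.mk.injEq] at h
        rw [Finset.mem_filter] at hs
        have hs2 : s = (v, z) := Prod.ext hs.2 h.2
        exact hs2 ▸ hs.1
    · intro h
      exact Or.inr ⟨(v, z), Finset.mem_filter.2 ⟨h, rfl⟩, rfl⟩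
  | true =>
    rw [if_pos rfl]
    constructor
    · rintro (⟨s, hs, h⟩ | ⟨s, hs, h⟩)
      · rw [Prod.mk.injEq] at h
        rw [Finset.mem_filter] at hs
        have hs2 : s = (z, v) := Prod.ext h.2 hs.2
        exact hs2 ▸ hs.1
      · rw [Prod.mk.injEq] at h
        exact absurd h.1 Bool.false_ne_true
    · intro h
      exact Or.inl ⟨(z, v), Finset.mem_filter.2 ⟨h, rfl⟩, rfl⟩

private theorem LC_card_K (E : Lk) (k : ℤ) (v : ℚ) : (LC_K E k v).card = deg E k v := by
  unfold LC_K deg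
  rw [Finset.card_union_of_disjoint, Finset.card_image_of_injOn, Finset.card_image_of_injOn]
  · intro s hs t ht h
    have hs' := (Finset.mem_filter.1 (Finset.mem_coe.1 hs)).2
    have ht' := (Finset.mem_filter.1 (Finset.mem_coe.1 ht)).2
    exact Prod.ext (hs'.trans ht'.symm) (Prod.mk.inj h).2
  · intro s hs t ht h
    have hs' := (Finset.mem_filter.1 (Finset.mem_coe.1 hs)).2
    have ht' := (Finset.mem_filter.1 (Finset.mem_coe.1 ht)).2
    exact Prod.ext (Prod.mk.inj h).2 (hs'.trans ht'.symm)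
  · rw [Finset.disjoint_left]
    intro κ h1 h2
    obtain ⟨s, -, hs⟩ := Finset.mem_image.1 h1
    obtain ⟨t, -, ht⟩ := Finset.mem_image.1 h2
    have h3 := (Prod.mk.inj (hs.trans ht.symm)).1
    exact absurd h3.symm Bool.false_ne_true

/-- The link is closed (`two_ends`). -/
theorem closed_EE (hC : Valid C) (hf : Mod C f) : Closed (EE C f) := by
  intro k v
  rw [← LC_card_K]
  rcases Finset.eq_empty_or_nonempty (LC_K (EE C f) k v) with h0 | ⟨κ, hκ⟩
  · left
    rw [h0, Finset.card_empty]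
  · right
    rw [LC_mem_K, endAt_EE hf] at hκ
    obtain ⟨b, u, hu1, hu2, hu3, -⟩ := hκ
    obtain ⟨b1, b2, u1, u2, h1, h2, h3, h4, h5, h6⟩ := two_ends hC hu3.on.1
    have hz1 : u1.2.2 = k := by rw [← h1.level, hu1]
    have hz2 : u2.2.2 = k := by rw [← h3.level, hu1]
    have hv1 : f u1 = v := by rw [← h1.const hf.hz, hu2]
    have hv2 : f u2 = v := by rw [← h3.const hf.hz, hu2]
    have hK : LC_K (EE C f) k v = {key f b1 u1, key f b2 u2} := by
      ext κ
      rw [LC_mem_K, endAt_EE hf, Finset.mem_insert, Finset.mem_singleton]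
      constructor
      · rintro ⟨c, w, hw1, hw2, hw3, rfl⟩
        have h7 : HC C u w := hf.sep u w hu3.on.1 hw3.on.1 (by rw [hu1, hw1]) (by rw [hu2, hw2])
        rcases h6 c w h7 hw3 with ⟨rfl, rfl⟩ | ⟨rfl, rfl⟩
        · exact Or.inl rfl
        · exact Or.inr rfl
      · rintro (rfl | rfl)
        · exact ⟨b1, u1, hz1, hv1, h2, rfl⟩
        · exact ⟨b2, u2, hz2, hv2, h4, rfl⟩
    rw [hK, Finset.card_pair]
    intro h7
    exact h5 (key_inj hf h2 h4 (by rw [hz1, hz2]) (by rw [hv1, hv2]) h7)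

theorem EE_congr {f g : Cube → ℚ} (h : ∀ p, On C p → f p = g p) : EE C f = EE C g := by
  funext j
  unfold EE img2
  have h1 : ∀ p ∈ Vk C j, (f p, f (up p)) = (g p, g (up p)) := by
    intro p hp
    obtain ⟨h2, h3⟩ := LC_on_of_up (mem_Vk.1 hp).2
    rw [h p h2, h (up p) h3]
  rw [Finset.image_congr (fun p hp => h1 p hp)]
  refine Finset.filter_congr ?_
  intro e _
  have h2 : (Vk C j).filter (fun p => (f p, f (up p)) = e) =
      (Vk C j).filter (fun p => (g p, g (up p)) = e) :=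
    Finset.filter_congr (fun p hp => by rw [h1 p hp])
  rw [h2]

/-- A value that is not taken has degree 0 (for any function). -/
theorem deg_EE_zero {v : ℚ} (hf : ∀ p, On C p → p.2.2 = k → f p ≠ v) :
    deg (EE C f) k v = 0 := by
  unfold deg
  have h1 : (EE C f (k - 1)).filter (fun s => s.2 = v) = ∅ := by
    rw [Finset.filter_eq_empty_iff]
    intro s hs hv
    unfold EE img2 at hs
    obtain ⟨p, hp, rfl⟩ := Finset.mem_image.1 (Finset.mem_filter.1 hs).1
    obtain ⟨h2, h3⟩ := mem_Vk.1 hp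
    exact hf _ (LC_on_of_up h3).2 (by rw [up_z, h2]; ring) hv
  have h2 : (EE C f k).filter (fun s => s.1 = v) = ∅ := by
    rw [Finset.filter_eq_empty_iff]
    intro s hs hv
    unfold EE img2 at hs
    obtain ⟨p, hp, rfl⟩ := Finset.mem_image.1 (Finset.mem_filter.1 hs).1
    obtain ⟨h2, h3⟩ := mem_Vk.1 hp
    exact hf _ (LC_on_of_up h3).1 h2 hv
  rw [h1, h2]
  rfl

private theorem LC_img2_congr {α β : Type*} [DecidableEq α] [DecidableEq β] {g g' : α → β}
    {F : Finset α} (h : ∀ p ∈ F, g p = g' p) : img2 g F = img2 g' F := by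
  unfold img2
  rw [Finset.image_congr (fun p hp => h p hp)]
  refine Finset.filter_congr ?_
  intro e _
  have h2 : F.filter (fun p => g p = e) = F.filter (fun p => g' p = e) :=
    Finset.filter_congr (fun p hp => by rw [h p hp])
  rw [h2]

/-- Merging two values (for any function). -/
theorem EE_mrg (C : Finset (Sym2 Cube)) (f : Cube → ℚ) (k : ℤ) (v1 v2 : ℚ) :
    EE C (fun p => if p.2.2 = k ∧ f p = v2 then v1 else f p) = mrg (EE C f) k v1 v2 := by
  funext j
  unfold EE mrg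
  by_cases h1 : j = k - 1
  · rw [if_pos h1, img2_comp]
    refine LC_img2_congr ?_
    intro p hp
    obtain ⟨h2, -⟩ := mem_Vk.1 hp
    have h3 : p.2.2 ≠ k := by omega
    have h4 : (up p).2.2 = k := by rw [up_z]; omega
    simp [h3, h4]
  · rw [if_neg h1]
    by_cases h2 : j = k
    · rw [if_pos h2, img2_comp]
      refine LC_img2_congr ?_
      intro p hp
      obtain ⟨h3, -⟩ := mem_Vk.1 hp
      have h4 : p.2.2 = k := by omega
      have h5 : (up p).2.2 ≠ k := by rw [up_z]; omega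
      simp [h4, h5]
    · rw [if_neg h2]
      refine LC_img2_congr ?_
      intro p hp
      obtain ⟨h3, -⟩ := mem_Vk.1 hp
      have h4 : p.2.2 ≠ k := by omega
      have h5 : (up p).2.2 ≠ k := by rw [up_z]; omega
      simp [h4, h5]

theorem EE_symmDiff (C D : Finset (Sym2 Cube)) (f : Cube → ℚ) (k : ℤ) :
    EE (symmDiff C D) f k = symmDiff (EE C f k) (EE D f k) := by
  unfold EE
  rw [← img2_symmDiff]
  congr 1
  ext p
  rw [mem_Vk, Finset.mem_symmDiff, Finset.mem_symmDiff, mem_Vk, mem_Vk]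
  tauto

end Pool.Agent.Helper24.GEO
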