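import Pool.Agent.Helper24.GEO.StripB

/-!
# GEO-08: reversing a column, change of the arc (project GEO, MP_409f7f_co)

`rev` exchanges the ends S and N. `Z (rev) (n - 1 - q) j = Z q (2 n + 1 - j)`.
-/

namespace Pool.Agent.Helper24.GEO

open Pool.Agent.Helper17.UF Pool.Agent.Helper53.GP Pool.Agent.Helper24.RUL

namespace Strip

/-- The column with the ends exchanged. -/
def rev (S : Strip) : Strip where
  k := S.k
  c := S.c
  y0 := S.y1
  y1 := S.y0
  g0 := S.g1
  g1 := S.g0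
  ok := fun h => (S.ok h.symm).symm

variable {S : Strip} {q r j lo hi : ℕ} {s : ℤ} {C D : Finset (Sym2 Cube)}

theorem rev_n (S : Strip) : S.rev.n = S.n := by
  unfold n rev
  simp only
  omega

/-- If the column has more than two squares, the ends have different coordinates. -/
theorem y_ne (h : 2 < S.n) : S.y0 ≠ S.y1 := by
  intro h1
  unfold n at h
  omega

theorem rev_sg (h : S.y0 ≠ S.y1) : S.rev.sg = -S.sg := by
  unfold sg rev
  simp only
  split_ifs <;> omega

theorem rev_vx {i : ℕ} (hi : i ≤ S.n) : S.rev.vx s i = S.vx s (S.n - i) := by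
  have h2 := S.two_le
  have hy := S.y1_eq
  rcases Nat.eq_zero_or_pos i with h0 | h0
  · subst h0
    unfold vx
    rw [if_pos rfl, if_neg (by omega), if_neg (by omega)]
    rfl
  · rcases Nat.lt_or_ge i S.n with h1 | h1
    · unfold vx
      rw [if_neg (by omega), if_pos (by rw [rev_n]; exact h1), if_neg (by omega),
        if_pos (by omega)]
      have hc : ((S.n - i : ℕ) : ℤ) = (S.n : ℤ) - i := by
        rw [Nat.cast_sub hi]
      have key : S.rev.y0 + S.rev.sg * ((i : ℤ) - 1)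
          = S.y0 + S.sg * (((S.n - i : ℕ) : ℤ) - 1) := by
        rw [hc]
        rcases Nat.lt_or_ge 2 S.n with h3 | h3
        · rw [rev_sg (y_ne h3)]
          change S.y1 + _ = _
          rw [hy]
          ring
        · have h4 : i = 1 := by omega
          have h5 : S.n = 2 := by omega
          change S.y1 + _ = _
          rw [hy, h4, h5]
          push_cast
          ring
      rw [key]
      rfl
    · have h3 : i = S.n := by omega
      subst h3
      unfold vx
      rw [if_neg (by omega), if_neg (by rw [rev_n]; omega), if_pos (by omega)]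
      rfl

theorem mem_bS' {ε : Sym2 Cube} : ε ∈ S.bS ↔
    (∃ i, i < S.n ∧ s(S.vx 0 i, S.vx 0 (i + 1)) = ε) ∨
    (∃ i, i < S.n ∧ s(S.vx 1 i, S.vx 1 (i + 1)) = ε) ∨
    ε = s(S.vx 0 0, S.vx 1 0) ∨ ε = s(S.vx 0 S.n, S.vx 1 S.n) := by
  unfold bS
  simp only [Finset.mem_union, Finset.mem_image, Finset.mem_range, Finset.mem_insert,
    Finset.mem_singleton, or_assoc]

theorem rev_side {i : ℕ} (hi : i < S.n) : s(S.rev.vx s i, S.rev.vx s (i + 1)) =
    s(S.vx s (S.n - 1 - i), S.vx s (S.n - 1 - i + 1)) := by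
  rw [rev_vx (by omega), rev_vx (by omega), Sym2.eq_swap]
  have h1 : S.n - (i + 1) = S.n - 1 - i := by omega
  have h2 : S.n - i = S.n - 1 - i + 1 := by omega
  rw [h1, h2]

theorem rev_bS (S : Strip) : S.rev.bS = S.bS := by
  ext ε
  rw [mem_bS', mem_bS', rev_n]
  have hz : ∀ s : ℤ, S.rev.vx s 0 = S.vx s S.n := fun s => by
    rw [rev_vx (by omega)]
    rfl
  have hn : ∀ s : ℤ, S.rev.vx s S.n = S.vx s 0 := fun s => by
    rw [rev_vx (by omega), Nat.sub_self]
  have hs : ∀ s : ℤ, (∃ i, i < S.n ∧ s(S.rev.vx s i, S.rev.vx s (i + 1)) = ε) ↔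
      (∃ i, i < S.n ∧ s(S.vx s i, S.vx s (i + 1)) = ε) := by
    intro s
    constructor
    · rintro ⟨i, hi, h⟩
      rw [rev_side hi] at h
      exact ⟨S.n - 1 - i, by omega, h⟩
    · rintro ⟨i, hi, h⟩
      refine ⟨S.n - 1 - i, by omega, ?_⟩
      rw [rev_side (by omega)]
      have h1 : S.n - 1 - (S.n - 1 - i) = i := by omega
      rw [h1, h]
  rw [hz, hz, hn, hn, hs, hs, or_comm (a := ε = s(S.vx 0 S.n, S.vx 1 S.n))]

theorem rev_Z (hq : q < S.n) (hj : j ≤ 2 * S.n + 1) :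
    S.rev.Z (S.n - 1 - q) j = S.Z q (2 * S.n + 1 - j) := by
  unfold Z
  rw [rev_n]
  by_cases h1 : j ≤ S.n - 1 - q
  · rw [if_pos h1, if_neg (by omega), if_neg (by omega), rev_vx (by omega)]
    congr 1
    omega
  · rw [if_neg h1]
    by_cases h2 : j ≤ S.n - 1 - q + 1 + S.n
    · rw [if_pos h2, if_neg (by omega), if_pos (by omega), rev_vx (by omega)]
      congr 1
      omega
    · rw [if_neg h2, if_pos (by omega), rev_vx (by omega)]
      congr 1
      omega

theorem rev_Z_edge (hq : q < S.n) (hj : j < 2 * S.n + 1) :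
    s(S.rev.Z (S.n - 1 - q) j, S.rev.Z (S.n - 1 - q) (j + 1)) =
      s(S.Z q (2 * S.n - j), S.Z q (2 * S.n - j + 1)) := by
  rw [rev_Z hq (by omega), rev_Z hq (by omega), Sym2.eq_swap]
  have h1 : 2 * S.n + 1 - (j + 1) = 2 * S.n - j := by omega
  have h2 : 2 * S.n + 1 - j = 2 * S.n - j + 1 := by omega
  rw [h1, h2]

theorem rev_Z_wrap (hq : q < S.n) :
    s(S.rev.Z (S.n - 1 - q) 0, S.rev.Z (S.n - 1 - q) (2 * S.n + 1)) =
      s(S.Z q 0, S.Z q (2 * S.n + 1)) := by
  rw [rev_Z hq (by omega), rev_Z hq (by omega), Sym2.eq_swap]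
  have h1 : 2 * S.n + 1 - (2 * S.n + 1) = 0 := by omega
  rw [h1, Nat.sub_zero]

theorem rev_dS {i : ℕ} (h1 : 1 ≤ i) (h2 : i < S.n) : S.rev.dS i = S.dN (S.n - i) := by
  unfold dS dN
  by_cases h3 : i = 1
  · have h4 : S.n - i + 1 = S.n := by omega
    rw [if_pos h3, if_pos h4]
    rfl
  · have h5 : ¬ (S.n - i + 1 = S.n) := by omega
    rw [if_neg h3, if_neg h5]
    have h4 : S.y0 ≠ S.y1 := y_ne (by omega)
    change (if S.y1 ≤ S.y0 then (3 : Fin 4) else 1) = _
    split_ifs with h5 h6 h6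
    · exact absurd (le_antisymm h6 h5) h4
    · rfl
    · rfl
    · omega

theorem rev_dN {i : ℕ} (h1 : 1 ≤ i) (h2 : i < S.n) : S.rev.dN i = S.dS (S.n - i) := by
  unfold dS dN
  rw [rev_n]
  by_cases h3 : i + 1 = S.n
  · have h4 : S.n - i = 1 := by omega
    rw [if_pos h3, if_pos h4]
    rfl
  · have h5 : ¬ (S.n - i = 1) := by omega
    rw [if_neg h3, if_neg h5]
    have h4 : S.y0 ≠ S.y1 := y_ne (by omega)
    change (if S.y1 ≤ S.y0 then (1 : Fin 4) else 3) = _
    split_ifs with h5 h6 h6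
    · exact absurd (le_antisymm h6 h5) h4
    · rfl
    · rfl
    · omega

theorem rev_loc (hq : q < S.n) (hr : r < S.n) (h : Loc S q r C) :
    Loc S.rev (S.n - 1 - q) (S.n - 1 - r) C := by
  intro i d h1 h2
  rw [rev_n] at h2
  rw [rev_bS, rev_dS h1 h2, rev_dN h1 h2, rev_vx (le_of_lt h2), rev_vx (le_of_lt h2)]
  obtain ⟨ha, hb⟩ := h (S.n - i) d (by omega) (by omega)
  constructor
  · intro h3 h4
    have h5 := ha h3 h4
    by_cases h6 : r < S.n - i
    · rw [if_pos h6] at h5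
      rw [if_neg (by omega)]
      exact h5
    · rw [if_neg h6] at h5
      rw [if_pos (by omega)]
      exact h5
  · intro h3 h4
    have h5 := hb h3 h4
    by_cases h6 : q < S.n - i
    · rw [if_pos h6] at h5
      rw [if_neg (by omega)]
      exact h5
    · rw [if_neg h6] at h5
      rw [if_pos (by omega)]
      exact h5

theorem rev_KI (h : KI S q D lo hi) :
    KI S.rev (S.n - 1 - q) D (2 * S.n + 1 - hi) (2 * S.n + 1 - lo) := by
  have hq := h.qn
  have h1 := h.lt
  have h2 := h.hi_le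
  refine ⟨?_, by omega, ?_, ?_, ?_, ?_⟩
  · rw [rev_n]; omega
  · rw [rev_n]; omega
  · intro j hj
    rw [rev_n] at hj
    rw [rev_Z_edge hq hj, h.edge _ (by omega)]
    omega
  · rw [rev_n, rev_Z_wrap hq]
    exact h.wrap
  · intro j hj
    rw [rev_n] at hj
    rw [rev_Z hq hj, h.on _ (by omega)]
    omega

theorem rev_KII (h : KII S q D lo hi) :
    KII S.rev (S.n - 1 - q) D (2 * S.n + 1 - hi) (2 * S.n + 1 - lo) := by
  have hq := h.qn
  have h1 := h.lt
  have h2 := h.hi_le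
  refine ⟨?_, by omega, ?_, ?_, ?_, ?_⟩
  · rw [rev_n]; omega
  · rw [rev_n]; omega
  · intro j hj
    rw [rev_n] at hj
    rw [rev_Z_edge hq hj, h.edge _ (by omega)]
    omega
  · rw [rev_n, rev_Z_wrap hq]
    exact h.wrap
  · intro j hj
    rw [rev_n] at hj
    rw [rev_Z hq hj, h.on _ (by omega)]
    omega

theorem rev_ArcP (h : ArcP S q r D lo hi) :
    ArcP S.rev (S.n - 1 - q) (S.n - 1 - r) D (2 * S.n + 1 - hi) (2 * S.n + 1 - lo) := by
  have hq := h.ki.qn
  have h1 := h.ki.lt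
  have h2 := h.ki.hi_le
  have h3 := h.rn
  have h4 := h.lo_le
  have h5 := h.le_hi
  refine ⟨rev_KI h.ki, ?_, by omega, by omega, rev_loc hq h3 h.loc⟩
  rw [rev_n]
  omega

theorem rev_ArcZ (h : ArcZ S q r D lo hi) :
    ArcZ S.rev (S.n - 1 - q) (S.n - 1 - r) D (2 * S.n + 1 - hi) (2 * S.n + 1 - lo) := by
  have hq := h.kii.qn
  have h1 := h.kii.lt
  have h2 := h.kii.hi_le
  have h3 := h.rn
  have h4 := h.pos
  refine ⟨rev_KII h.kii, ?_, by omega, ?_, rev_loc hq h3 h.loc⟩
  · rw [rev_n]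
    omega
  · obtain ⟨j, p, h5, h6, h7⟩ := h.vert
    refine ⟨2 * S.n - j, p, by omega, by omega, ?_⟩
    rw [rev_Z_edge hq (by omega), ← h7]
    have h8 : 2 * S.n - (2 * S.n - j) = j := by omega
    rw [h8]

/-- After the push the curve contains the complementary arc. (At an inner vertex of the arc the
curve `C` has both contour edges and no other edge; at the ends of the arc `C` has a third edge that is
not on the contour.) -/
theorem KI_push (hC : Valid C) (h : KI S q C lo hi) : KII S q (symmDiff C S.bS) lo hi := by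
  have hq := h.qn
  have hlt := h.lt
  have hle := h.hi_le
  have hE : ∀ j, j < 2 * S.n + 1 → s(S.Z q j, S.Z q (j + 1)) ∈ S.bS := fun j hj =>
    (mem_bS hq).2 (Or.inl ⟨j, hj, rfl⟩)
  have hW : s(S.Z q 0, S.Z q (2 * S.n + 1)) ∈ S.bS := (mem_bS hq).2 (Or.inr rfl)
  have hedge : ∀ j, j < 2 * S.n + 1 → (s(S.Z q j, S.Z q (j + 1)) ∈ symmDiff C S.bS ↔
      ¬ (lo ≤ j ∧ j < hi)) := by
    intro j hj
    rw [Finset.mem_symmDiff, ← h.edge j hj]
    have h1 := hE j hj
    tauto
  have hwrap : s(S.Z q 0, S.Z q (2 * S.n + 1)) ∈ symmDiff C S.bS :=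
    Finset.mem_symmDiff.2 (Or.inr ⟨hW, h.wrap⟩)
  refine ⟨hq, hlt, hle, hedge, hwrap, ?_⟩
  intro j hj
  constructor
  · rintro ⟨ε, hε, hm⟩
    by_contra hcon
    have hj1 : lo < j := by omega
    have hj2 : j < hi := by omega
    obtain ⟨i, rfl⟩ : ∃ i, j = i + 1 := ⟨j - 1, by omega⟩
    have e1 : s(S.Z q i, S.Z q (i + 1)) ∈ C := (h.edge i (by omega)).2 ⟨by omega, by omega⟩
    have e2 : s(S.Z q (i + 1), S.Z q (i + 1 + 1)) ∈ C :=
      (h.edge (i + 1) (by omega)).2 ⟨by omega, hj2⟩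
    have hne : s(S.Z q i, S.Z q (i + 1)) ≠ s(S.Z q (i + 1), S.Z q (i + 1 + 1)) := by
      intro he
      have := edge_inj hq (by omega) (by omega) he
      omega
    rcases Finset.mem_symmDiff.1 hε with ⟨h1, h2⟩ | ⟨h1, h2⟩
    · have hsub : ({s(S.Z q i, S.Z q (i + 1)), s(S.Z q (i + 1), S.Z q (i + 1 + 1)), ε} :
          Finset (Sym2 Cube)) ⊆ C.filter (fun ε => S.Z q (i + 1) ∈ ε) := by
        intro x hx
        simp only [Finset.mem_insert, Finset.mem_singleton] at hx
        rw [Finset.mem_filter]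
        rcases hx with rfl | rfl | rfl
        · exact ⟨e1, Sym2.mem_mk_right _ _⟩
        · exact ⟨e2, Sym2.mem_mk_left _ _⟩
        · exact ⟨h1, hm⟩
      have hcard : ({s(S.Z q i, S.Z q (i + 1)), s(S.Z q (i + 1), S.Z q (i + 1 + 1)), ε} :
          Finset (Sym2 Cube)).card = 3 := by
        rw [Finset.card_eq_three]
        refine ⟨_, _, _, hne, ?_, ?_, rfl⟩
        · rintro rfl
          exact h2 (hE i (by omega))
        · rintro rfl
          exact h2 (hE (i + 1) (by omega))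
      have h3 := Finset.card_le_card hsub
      have h4 := hC.2 (S.Z q (i + 1))
      omega
    · rcases edge_at hq hj h1 hm with ⟨_, rfl⟩ | ⟨_, rfl⟩ | ⟨h3, _⟩
      · exact h2 e1
      · exact h2 e2
      · omega
  · intro h1
    by_cases h2 : j = 0
    · subst h2
      exact ⟨_, hwrap, Sym2.mem_mk_left _ _⟩
    · by_cases h3 : j ≤ lo
      · obtain ⟨i, rfl⟩ : ∃ i, j = i + 1 := ⟨j - 1, by omega⟩
        exact ⟨_, (hedge i (by omega)).2 (by omega), Sym2.mem_mk_right _ _⟩
      · by_cases h4 : j = 2 * S.n + 1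
        · subst h4
          exact ⟨_, hwrap, Sym2.mem_mk_right _ _⟩
        · exact ⟨_, (hedge j (by omega)).2 (by omega), Sym2.mem_mk_left _ _⟩

theorem loc_push (h : Loc S q r C) : Loc S q r (symmDiff C S.bS) := by
  intro i d h1 h2
  obtain ⟨ha, hb⟩ := h i d h1 h2
  constructor
  · intro h3 h4
    rcases Finset.mem_symmDiff.1 h3 with ⟨h5, _⟩ | ⟨h5, _⟩
    · exact ha h5 h4
    · exact absurd h5 h4
  · intro h3 h4
    rcases Finset.mem_symmDiff.1 h3 with ⟨h5, _⟩ | ⟨h5, _⟩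
    · exact hb h5 h4
    · exact absurd h5 h4

theorem sdiff_push (C : Finset (Sym2 Cube)) (S : Strip) :
    symmDiff C S.bS \ S.bS = C \ S.bS := by
  ext ε
  rw [Finset.mem_sdiff, Finset.mem_sdiff, Finset.mem_symmDiff]
  tauto

end Strip

end Pool.Agent.Helper24.GEO
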