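import Pool.Agent.Helper24.GEO.CollEx
import Pool.Agent.Helper24.GEO.LinkC
import Pool.Agent.Helper24.GEO.StripC

/-!
# GEO-12: the collapsed function of a column (project GEO, MP_409f7f_co)

`G` contains the boundary of the column and the curve `D`, all edges of `G` that are not in `D` are in
the boundary of the column.
-/

namespace Pool.Agent.Helper24.GEO

open Pool.Agent.Helper17.UF Pool.Agent.Helper53.GP Pool.Agent.Helper24.RUL

variable {S : Strip} {G D : Finset (Sym2 Cube)} {f : Cube → ℚ} {v : ℚ}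

private theorem CO_congr {p q : Cube} (h : HC G p q) : Kc S G p ↔ Kc S G q := by
  constructor
  · rintro ⟨h1, h2⟩
    refine ⟨h.level ▸ h1, ?_⟩
    rcases h2 with h2 | h2
    · exact Or.inl (h.symm.trans h2)
    · exact Or.inr (h.symm.trans h2)
  · rintro ⟨h1, h2⟩
    refine ⟨h.level.trans h1, ?_⟩
    rcases h2 with h2 | h2
    · exact Or.inl (h.trans h2)
    · exact Or.inr (h.trans h2)

private theorem CO_xc {p : Cube} (h : Kc S G p) : xc S.k p = S.c ∨ xc S.k p = S.c + 1 := by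
  obtain ⟨h1, h2⟩ := h
  rcases h2 with h2 | h2
  · left
    have h3 := h2.line
    rw [h1, Strip.xc_vx, add_zero] at h3
    exact h3
  · right
    have h3 := h2.line
    rw [h1, Strip.xc_vx] at h3
    exact h3

theorem exists_FC (S : Strip) (G : Finset (Sym2 Cube)) : ∃ f v, FC S G f v := by
  obtain ⟨f, v, h1, h2, h3, h4, h5⟩ := exists_coll G S.k S.c (Kc S G)
    (fun p hp => ⟨hp.1, CO_xc hp⟩) (fun p q h => CO_congr h)
  exact ⟨f, v, h1, h2, h3, h4, h5⟩

private theorem CO_step {p q u : Cube} (h : s(p, q) = hzE u) (hG : hzE u ∈ G) : HC G p q := by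
  unfold hzE at h
  rw [Sym2.eq_iff] at h
  rcases h with ⟨rfl, rfl⟩ | ⟨rfl, rfl⟩
  · exact HC.step hG
  · exact (HC.step hG).symm

private theorem CO_side (hG : S.bS ⊆ G) {s : ℤ} (hs : s = 0 ∨ s = 1) {i : ℕ} (h1 : 1 ≤ i)
    (h2 : i < S.n) : HC G (S.vx s i) (S.vx s 1) := by
  induction i with
  | zero => omega
  | succ i ih =>
    rcases Nat.eq_zero_or_pos i with h0 | h0
    · subst h0
      exact HC.refl _ _
    · refine HC.trans ?_ (ih h0 (by omega))
      obtain ⟨p, h3, -, -⟩ := Strip.mid_edge (S := S) (s := s) h0 h2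
      refine (CO_step h3 (hG ?_)).symm
      rw [← h3]
      exact (Strip.memA_bS _).2 (Or.inl ⟨s, hs, i, by omega, rfl⟩)

/-- The vertices of the sides at level `k` are in the class. -/
theorem kc_vx (hG : S.bS ⊆ G) {s : ℤ} (hs : s = 0 ∨ s = 1) {i : ℕ} (h1 : 1 ≤ i) (h2 : i < S.n) :
    Kc S G (S.vx s i) := by
  refine ⟨Strip.vx_z h1 h2, ?_⟩
  have h3 := CO_side hG hs h1 h2
  rcases hs with rfl | rfl
  · exact Or.inl h3
  · exact Or.inr h3

theorem FC.f_vx (h : FC S G f v) (hG : S.bS ⊆ G) {s : ℤ} (hs : s = 0 ∨ s = 1) {i : ℕ}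
    (h1 : 1 ≤ i) (h2 : i < S.n) : f (S.vx s i) = v :=
  h.cls _ (kc_vx hG hs h1 h2)

private theorem CO_val (h : FC S G f v) {p q u : Cube} (he : s(p, q) = hzE u) (hG : hzE u ∈ G) :
    f p = f q := by
  have h1 := h.hz u hG
  unfold hzE at he
  rw [Sym2.eq_iff] at he
  rcases he with ⟨rfl, rfl⟩ | ⟨rfl, rfl⟩
  · exact h1.symm
  · exact h1

/-- The far vertices have equal values. -/
theorem FC.far_S (h : FC S G f v) (hG : S.bS ⊆ G) : f (S.vx 0 0) = f (S.vx 1 0) := by
  obtain ⟨p, h1, -⟩ := Strip.end_S (S := S)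
  refine CO_val h h1 (hG ?_)
  rw [← h1]
  exact (Strip.memA_bS _).2 (Or.inr (Or.inl rfl))

theorem FC.far_N (h : FC S G f v) (hG : S.bS ⊆ G) : f (S.vx 0 S.n) = f (S.vx 1 S.n) := by
  obtain ⟨p, h1, -⟩ := Strip.end_N (S := S)
  refine CO_val h h1 (hG ?_)
  rw [← h1]
  exact (Strip.memA_bS _).2 (Or.inr (Or.inr rfl))

theorem FC.key_S (h : FC S G f v) (hG : S.bS ⊆ G) {s : ℤ} (hs : s = 0 ∨ s = 1) :
    key f (!S.g0) (S.vx s 1) = KS S f := by
  unfold key KS
  rw [← Strip.vx_zero]
  rcases hs with rfl | rfl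
  · rfl
  · rw [h.far_S hG]

theorem FC.key_N (h : FC S G f v) (hG : S.bS ⊆ G) {s : ℤ} (hs : s = 0 ∨ s = 1) :
    key f (!S.g1) (S.vx s (S.n - 1)) = KN S f := by
  unfold key KN
  rw [← Strip.vx_n]
  rcases hs with rfl | rfl
  · rfl
  · rw [h.far_N hG]

private theorem CO_far (S : Strip) (g : Bool) {x y y' z z' : ℤ}
    (h : xc (S.far g) (ptk S.k x y z) = xc (S.far g) (ptk S.k x y' z')) : y = y' := by
  unfold Strip.far at h
  cases g
  · have h1 : (if false = true then S.k + 1 else S.k - 1) = S.k - 1 := if_neg (by decide)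
    rw [h1, xc_pred, xc_pred, xc_ptk', xc_ptk'] at h
    omega
  · have h1 : (if true = true then S.k + 1 else S.k - 1) = S.k + 1 := if_pos rfl
    rw [h1, xc_ptk', xc_ptk'] at h
    exact h

/-- The two keys of the column are different (`y0 ≠ y1` or `g0 ≠ g1`). -/
theorem FC.ks_ne_kn (h : FC S G f v) : KS S f ≠ KN S f := by
  intro he
  unfold KS KN at he
  rw [Prod.mk.injEq] at he
  obtain ⟨h1, h2⟩ := he
  have h3 : S.g0 = S.g1 := by
    revert h1
    cases S.g0 <;> cases S.g1 <;> simp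
  have hz0 : (S.vx 0 0).2.2 = S.far S.g0 := by rw [Strip.vxA_zero, ptk_z]
  have hz1 : (S.vx 0 S.n).2.2 = S.far S.g1 := by rw [Strip.vxA_top, ptk_z]
  rcases h.sep (S.vx 0 0) (S.vx 0 S.n) (by rw [hz0, hz1, h3]) h2 with h4 | h4
  · have h5 := h4.line
    rw [hz0, Strip.vxA_zero, Strip.vxA_top] at h5
    exact S.ok (CO_far S _ h5) h3
  · exact Strip.farA_ne S _ (hz0 ▸ h4.1.1)

/-- Strictly monotone outside level `k`. -/
theorem FC.mono (h : FC S G f v) (p q : Cube) (h1 : p.2.2 = q.2.2) (h2 : p.2.2 ≠ S.k)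
    (h3 : xc p.2.2 p < xc p.2.2 q) : f p < f q := by
  rcases h.line p q h1 h3 with h4 | h4
  · exact h4
  · exact absurd h4.1.1 h2

/-- Values at level `k` : the class is the set of value `v`. -/
theorem FC.eq_v (h : FC S G f v) {p : Cube} (hp : p.2.2 = S.k) : f p = v ↔ Kc S G p := by
  constructor
  · intro h1
    by_contra h2
    rcases h.gap p hp h2 with ⟨-, h3⟩ | ⟨-, h3⟩ <;> linarith
  · exact h.cls p

private theorem CO_mem {p q : Cube} (h : hzE p ∈ S.bS) (hq : q ∈ hzE p) (hk : q.2.2 = S.k) :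
    ∃ s i, (s = 0 ∨ s = 1) ∧ 1 ≤ i ∧ i < S.n ∧ q = S.vx s i := by
  obtain ⟨s, hs, i, hi, rfl⟩ := Strip.memA_vx h hq
  have h1 := (Strip.zA_iff hi).1 hk
  exact ⟨s, i, hs, h1.1, h1.2, rfl⟩

/-- The path from a class vertex `p` of `D` to a side, in `G`: its first edge that is not in `D` is a
boundary edge, so there one is on a side. -/
theorem cls_reach (hGD : ∀ ε ∈ G, ε ∉ D → ε ∈ S.bS) {p : Cube} (hp : On D p) (hK : Kc S G p) :
    ∃ s i, (s = 0 ∨ s = 1) ∧ 1 ≤ i ∧ i < S.n ∧ On D (S.vx s i) ∧ HC D p (S.vx s i) := by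
  have h2n := Strip.two_le S
  set Q : Cube → Prop := fun a => (∃ s i, (s = 0 ∨ s = 1) ∧ 1 ≤ i ∧ i < S.n ∧ a = S.vx s i) ∨
    (∃ s i, (s = 0 ∨ s = 1) ∧ 1 ≤ i ∧ i < S.n ∧ On D (S.vx s i) ∧ HC D a (S.vx s i)) with hQ
  have hk : ∀ a, Q a → a.2.2 = S.k := by
    rintro a (⟨s, i, hs, h1, h2, rfl⟩ | ⟨s, i, hs, h1, h2, h3, h4⟩)
    · exact Strip.vx_z h1 h2
    · rw [h4.level]
      exact Strip.vx_z h1 h2
  have step : ∀ u a b, (a = u ∨ a = nx u) → (b = u ∨ b = nx u) → hzE u ∈ G → Q a → Q b := by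
    intro u a b ha hb hu hQa
    have haz : a.2.2 = u.2.2 := by rcases ha with rfl | rfl; exacts [rfl, nx_z _]
    have hbz : b.2.2 = u.2.2 := by rcases hb with rfl | rfl; exacts [rfl, nx_z _]
    have hbk : b.2.2 = S.k := by rw [hbz, ← haz]; exact hk a hQa
    by_cases hD : hzE u ∈ D
    · have hab : HC D b a := by
        rcases ha with rfl | rfl <;> rcases hb with rfl | rfl
        · exact HC.refl _ _
        · exact (HC.step hD).symm
        · exact HC.step hD
        · exact HC.refl _ _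
      have hoa : On D a := ⟨hzE u, hD, by
        rcases ha with rfl | rfl
        · exact Sym2.mem_mk_left _ _
        · exact Sym2.mem_mk_right _ _⟩
      rcases hQa with ⟨s, i, hs, h1, h2, rfl⟩ | ⟨s, i, hs, h1, h2, h3, h4⟩
      · exact Or.inr ⟨s, i, hs, h1, h2, hoa, hab⟩
      · exact Or.inr ⟨s, i, hs, h1, h2, h3, hab.trans h4⟩
    · left
      refine CO_mem (hGD _ hu hD) ?_ hbk
      rcases hb with rfl | rfl
      · exact Sym2.mem_mk_left _ _
      · exact Sym2.mem_mk_right _ _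
  have hall : ∀ a b, HC G a b → (Q a ↔ Q b) := by
    intro a b h
    induction h with
    | rel x y h =>
      obtain ⟨h1, rfl⟩ := h
      exact ⟨step x x (nx x) (Or.inl rfl) (Or.inr rfl) h1,
        step x (nx x) x (Or.inr rfl) (Or.inl rfl) h1⟩
    | refl x => exact Iff.rfl
    | symm x y _ ih => exact ih.symm
    | trans x y z _ _ ih1 ih2 => exact ih1.trans ih2
  have hQp : Q p := by
    obtain ⟨h1, h2⟩ := hK
    rcases h2 with h2 | h2
    · exact (hall _ _ h2).2 (Or.inl ⟨0, 1, Or.inl rfl, le_refl _, by omega, rfl⟩)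
    · exact (hall _ _ h2).2 (Or.inl ⟨1, 1, Or.inr rfl, le_refl _, by omega, rfl⟩)
  rcases hQp with ⟨s, i, hs, h1, h2, rfl⟩ | h
  · exact ⟨s, i, hs, h1, h2, hp, HC.refl _ _⟩
  · exact h

private theorem CO_sep (hG : S.bS ⊆ G)
    (hGD : ∀ ε ∈ G, ε ∉ D → ε ∈ S.bS)
    (hS : On D (S.vx 0 0) → On D (S.vx 1 0) → s(S.vx 0 0, S.vx 1 0) ∈ D)
    (hN : On D (S.vx 0 S.n) → On D (S.vx 1 S.n) → s(S.vx 0 S.n, S.vx 1 S.n) ∈ D)
    {p q : Cube} (hp : On D p) (hq : On D q) (hK : ¬ Kc S G p) (h : HC G p q) : HC D p q := by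
  have h2n := Strip.two_le S
  have hne : ∀ s s' : ℤ, S.vx s 0 ≠ S.vx s' S.n := by
    intro s s' he
    have := (Strip.vx_inj (by omega) (le_refl _) he).2
    omega
  set eS := s(S.vx 0 0, S.vx 1 0) with heS
  set eN := s(S.vx 0 S.n, S.vx 1 S.n) with heN
  have hends : ∀ a b, (s(a, b) = eS ∨ s(a, b) = eN) → On D a → On D b → s(a, b) ∈ D := by
    rintro a b (he | he) ha hb
    · rw [he]
      rw [heS, Sym2.eq_iff] at he
      rcases he with ⟨rfl, rfl⟩ | ⟨rfl, rfl⟩
      · exact hS ha hb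
      · exact hS hb ha
    · rw [he]
      rw [heN, Sym2.eq_iff] at he
      rcases he with ⟨rfl, rfl⟩ | ⟨rfl, rfl⟩
      · exact hN ha hb
      · exact hN hb ha
  have huniq : ∀ a b b', (s(a, b) = eS ∨ s(a, b) = eN) → (s(a, b') = eS ∨ s(a, b') = eN) →
      b = b' := by
    intro a b b' h1 h2
    have hm : ∀ c, s(a, c) = eS → s(a, c) = eN → False := by
      intro c h3 h4
      have h5 : a ∈ eS := by rw [← h3]; exact Sym2.mem_mk_left _ _
      have h6 : a ∈ eN := by rw [← h4]; exact Sym2.mem_mk_left _ _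
      rw [heS, Sym2.mem_iff] at h5
      rw [heN, Sym2.mem_iff] at h6
      rcases h5 with h5 | h5 <;> rcases h6 with h6 | h6 <;> exact hne _ _ (h5.symm.trans h6)
    have hm2 : ∀ c c', s(a, c) = eS → s(a, c') = eN → False := by
      intro c c' h3 h4
      have h5 : a ∈ eS := by rw [← h3]; exact Sym2.mem_mk_left _ _
      have h6 : a ∈ eN := by rw [← h4]; exact Sym2.mem_mk_left _ _
      rw [heS, Sym2.mem_iff] at h5
      rw [heN, Sym2.mem_iff] at h6
      rcases h5 with h5 | h5 <;> rcases h6 with h6 | h6 <;> exact hne _ _ (h5.symm.trans h6)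
    rcases h1 with h1 | h1 <;> rcases h2 with h2 | h2
    · exact Sym2.congr_right.1 (h1.trans h2.symm)
    · exact (hm2 _ _ h1 h2).elim
    · exact (hm2 _ _ h2 h1).elim
    · exact Sym2.congr_right.1 (h1.trans h2.symm)
  set Q : Cube → Prop := fun a => HC D p a ∨
    (¬ On D a ∧ ∃ b, HC D p b ∧ (s(a, b) = eS ∨ s(a, b) = eN)) with hQ
  have step : ∀ u a b, s(a, b) = hzE u → HC G p a → hzE u ∈ G → Q a → Q b := by
    intro u a b hab hpa hu hQa
    have hKa : ¬ Kc S G a := fun h => hK ((CO_congr hpa).2 h)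
    by_cases hD : hzE u ∈ D
    · have hHab : HC D a b := CO_step hab hD
      rcases hQa with h1 | ⟨h1, -⟩
      · exact Or.inl (h1.trans hHab)
      · exfalso
        refine h1 ⟨hzE u, hD, ?_⟩
        rw [← hab]
        exact Sym2.mem_mk_left _ _
    · have hb := hGD _ hu hD
      have hend : s(a, b) = eS ∨ s(a, b) = eN := by
        rcases Strip.hz_edge hb with ⟨s, i, hs, h1, h2, h3⟩ | h3 | h3
        · exfalso
          have ha : a ∈ s(S.vx s i, S.vx s (i + 1)) := by
            rw [← h3, ← hab]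
            exact Sym2.mem_mk_left _ _
          rw [Sym2.mem_iff] at ha
          rcases ha with rfl | rfl
          · exact hKa (kc_vx hG hs h1 (by omega))
          · exact hKa (kc_vx hG hs (by omega) h2)
        · exact Or.inl (hab.trans h3)
        · exact Or.inr (hab.trans h3)
      rcases hQa with h1 | ⟨h1, b', h2, h3⟩
      · right
        have hoa : On D a := h1.on hp
        refine ⟨fun hob => ?_, a, h1, ?_⟩
        · apply hD
          rw [← hab]
          exact hends a b hend hoa hob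
        · rw [Sym2.eq_swap]
          exact hend
      · left
        have := huniq a b b' hend h3
        rw [this]
        exact h2
  have hall : ∀ a b, HC G a b → HC G p a → (Q a ↔ Q b) := by
    intro a b h
    induction h with
    | rel x y h =>
      obtain ⟨h1, rfl⟩ := h
      intro hpa
      refine ⟨step x x (nx x) rfl hpa h1, step x (nx x) x ?_ (hpa.trans (HC.step h1)) h1⟩
      rw [Sym2.eq_swap]
      rfl
    | refl x => exact fun _ => Iff.rfl
    | symm x y h ih => exact fun hpa => (ih (hpa.trans (HC.symm h))).symm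
    | trans x y z h h' ih1 ih2 => exact fun hpa => (ih1 hpa).trans (ih2 (hpa.trans h))
  rcases (hall p q h (HC.refl _ _)).1 (Or.inl (HC.refl _ _)) with h1 | h1
  · exact h1
  · exact absurd hq h1.1

/-- The collapsed function is a collapsed model of `D`. -/
theorem FC.collD (h : FC S G f v) (hG : S.bS ⊆ G) (hDG : D ⊆ G)
    (hGD : ∀ ε ∈ G, ε ∉ D → ε ∈ S.bS)
    (hS : On D (S.vx 0 0) → On D (S.vx 1 0) → s(S.vx 0 0, S.vx 1 0) ∈ D)
    (hN : On D (S.vx 0 S.n) → On D (S.vx 1 S.n) → s(S.vx 0 S.n, S.vx 1 S.n) ∈ D) :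
    CollD S.k S.c D f v where
  hz := fun p hp => h.hz p (hDG hp)
  line := by
    intro p q _ _ h1 h2
    rcases h.line p q h1 h2 with h3 | h3
    · exact Or.inl h3
    · exact Or.inr ⟨h3.1.1, h.cls _ h3.1, h.cls _ h3.2⟩
  sep := by
    intro p q hp hq h1 h2
    by_cases hK : Kc S G p
    · exact Or.inr ⟨hK.1, h.cls _ hK⟩
    · rcases h.sep p q h1 h2 with h3 | h3
      · exact Or.inl (CO_sep hG hGD hS hN hp hq hK h3)
      · exact absurd h3.1 hK
  gap := by
    intro p _ h1
    by_cases hK : Kc S G p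
    · exact Or.inr (Or.inr ⟨h.cls _ hK, CO_xc hK⟩)
    · rcases h.gap p h1 hK with h2 | h2
      · exact Or.inl h2
      · exact Or.inr (Or.inl h2)

/-- The lower end of the vertical edge between `fr b u` and `u`. -/
private def CO_lo (b : Bool) (u : Cube) : Cube := if b then dn u else u

private theorem CO_lo_edge (b : Bool) (u : Cube) : s(fr b u, u) = upE (CO_lo b u) := by
  unfold fr upE CO_lo
  cases b
  · rw [if_neg (by decide), if_neg (by decide), Sym2.eq_swap]
  · rw [if_pos rfl, if_pos rfl, up_dn]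

private theorem CO_lo_val (f : Cube → ℚ) (b : Bool) {u u' : Cube} (h1 : f u = f u')
    (h2 : f (fr b u) = f (fr b u')) :
    (f (CO_lo b u), f (up (CO_lo b u))) = (f (CO_lo b u'), f (up (CO_lo b u'))) := by
  unfold fr at h2
  unfold CO_lo
  cases b
  · rw [if_neg (by decide), if_neg (by decide)] at h2
    rw [if_neg (by decide), if_neg (by decide), h1, h2]
  · rw [if_pos rfl, if_pos rfl] at h2
    rw [if_pos rfl, if_pos rfl, up_dn, up_dn, h1, h2]

private theorem CO_lo_z (b : Bool) {u u' : Cube} (h : u.2.2 = u'.2.2) :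
    (CO_lo b u).2.2 = (CO_lo b u').2.2 := by
  unfold CO_lo
  cases b
  · exact h
  · simp only [if_true, dn_z, h]

private theorem CO_lo_inj (b : Bool) {u u' : Cube} (h : CO_lo b u = CO_lo b u') : u = u' := by
  unfold CO_lo at h
  cases b
  · exact h
  · rw [if_pos rfl, if_pos rfl] at h
    have h2 := congrArg up h
    rw [up_dn, up_dn] at h2
    exact h2

private theorem CO_upE_inj {p q : Cube} (h : upE p = upE q) : p = q := by
  unfold upE at h
  rw [Sym2.eq_iff] at h
  rcases h with ⟨h1, -⟩ | ⟨h1, h2⟩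
  · exact h1
  · exfalso
    have h3 := congrArg (fun p : Cube => p.2.2) h1
    have h4 := congrArg (fun p : Cube => p.2.2) h2
    simp only [up_z] at h3 h4
    omega

private theorem CO_img2_pair {α β : Type*} [DecidableEq α] [DecidableEq β] {g : α → β} {x x' : α}
    (hx : x ≠ x') (h : g x = g x') : img2 g {x, x'} = ∅ := by
  ext e
  rw [mem_img2]
  simp only [Finset.notMem_empty, iff_false, Nat.not_odd_iff_even]
  by_cases he : g x = e
  · have : ({x, x'} : Finset α).filter (fun s => g s = e) = {x, x'} := by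
      apply Finset.filter_true_of_mem
      intro s hs
      rw [Finset.mem_insert, Finset.mem_singleton] at hs
      rcases hs with rfl | rfl
      · exact he
      · rw [← h]; exact he
    rw [this, Finset.card_pair hx]
    exact even_two
  · have : ({x, x'} : Finset α).filter (fun s => g s = e) = ∅ := by
      apply Finset.filter_false_of_mem
      intro s hs
      rw [Finset.mem_insert, Finset.mem_singleton] at hs
      rcases hs with rfl | rfl
      · exact he
      · rw [← h]; exact he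
    rw [this, Finset.card_empty]
    exact Even.zero

private theorem CO_pair (g : Cube → ℚ × ℚ) {a b : Cube} (j : ℤ) (hab : a ≠ b)
    (hz : a.2.2 = b.2.2) (hg : g a = g b) :
    img2 g (({a, b} : Finset Cube).filter (fun p => p.2.2 = j)) = ∅ := by
  by_cases h : a.2.2 = j
  · have h1 : ({a, b} : Finset Cube).filter (fun p => p.2.2 = j) = {a, b} := by
      apply Finset.filter_true_of_mem
      intro s hs
      rw [Finset.mem_insert, Finset.mem_singleton] at hs
      rcases hs with rfl | rfl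
      · exact h
      · rw [← hz]; exact h
    rw [h1, CO_img2_pair hab hg]
  · have h1 : ({a, b} : Finset Cube).filter (fun p => p.2.2 = j) = ∅ := by
      apply Finset.filter_false_of_mem
      intro s hs
      rw [Finset.mem_insert, Finset.mem_singleton] at hs
      rcases hs with rfl | rfl
      · exact h
      · rw [← hz]; exact h
    rw [h1]
    rfl

/-- The boundary of the column collapses: its four vertical edges cancel in pairs. -/
theorem FC.EE_bS (h : FC S G f v) (hG : S.bS ⊆ G) : EE S.bS f = fun _ => ∅ := by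
  have h2n := Strip.two_le S
  have eS : ∀ s : ℤ, s(S.vx s 0, S.vx s 1) = upE (CO_lo (!S.g0) (S.vx s 1)) := by
    intro s
    rw [Strip.vx_zero]
    exact CO_lo_edge _ _
  have eN : ∀ s : ℤ, s(S.vx s (S.n - 1), S.vx s S.n) = upE (CO_lo (!S.g1) (S.vx s (S.n - 1))) := by
    intro s
    rw [Strip.vx_n, Sym2.eq_swap]
    exact CO_lo_edge _ _
  have hne : ∀ s s' : ℤ, CO_lo (!S.g0) (S.vx s 1) ≠ CO_lo (!S.g1) (S.vx s' (S.n - 1)) := by
    intro s s' he
    have h1 : s(S.vx s 0, S.vx s 1) = s(S.vx s' (S.n - 1), S.vx s' S.n) := by rw [eS, eN, he]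
    rw [Sym2.eq_iff] at h1
    rcases h1 with ⟨h1, -⟩ | ⟨h1, -⟩
    · have := (Strip.vx_inj (by omega) (by omega) h1).2
      omega
    · have := (Strip.vx_inj (by omega) (by omega) h1).2
      omega
  have hneS : CO_lo (!S.g0) (S.vx 0 1) ≠ CO_lo (!S.g0) (S.vx 1 1) := by
    intro he
    have := (Strip.vx_inj (by omega) (by omega) (CO_lo_inj _ he)).1
    omega
  have hneN : CO_lo (!S.g1) (S.vx 0 (S.n - 1)) ≠ CO_lo (!S.g1) (S.vx 1 (S.n - 1)) := by
    intro he
    have := (Strip.vx_inj (by omega) (by omega) (CO_lo_inj _ he)).1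
    omega
  have hzS : (CO_lo (!S.g0) (S.vx 0 1)).2.2 = (CO_lo (!S.g0) (S.vx 1 1)).2.2 :=
    CO_lo_z _ (by rw [Strip.vx_z (by omega) (by omega), Strip.vx_z (by omega) (by omega)])
  have hzN : (CO_lo (!S.g1) (S.vx 0 (S.n - 1))).2.2 = (CO_lo (!S.g1) (S.vx 1 (S.n - 1))).2.2 :=
    CO_lo_z _ (by rw [Strip.vx_z (by omega) (by omega), Strip.vx_z (by omega) (by omega)])
  have hvS : (fun p => (f p, f (up p))) (CO_lo (!S.g0) (S.vx 0 1)) =
      (fun p => (f p, f (up p))) (CO_lo (!S.g0) (S.vx 1 1)) := by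
    refine CO_lo_val f _ ?_ ?_
    · rw [h.f_vx hG (Or.inl rfl) (by omega) (by omega), h.f_vx hG (Or.inr rfl) (by omega) (by omega)]
    · rw [← Strip.vx_zero, ← Strip.vx_zero]
      exact h.far_S hG
  have hvN : (fun p => (f p, f (up p))) (CO_lo (!S.g1) (S.vx 0 (S.n - 1))) =
      (fun p => (f p, f (up p))) (CO_lo (!S.g1) (S.vx 1 (S.n - 1))) := by
    refine CO_lo_val f _ ?_ ?_
    · rw [h.f_vx hG (Or.inl rfl) (by omega) (by omega), h.f_vx hG (Or.inr rfl) (by omega) (by omega)]
    · rw [← Strip.vx_n, ← Strip.vx_n]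
      exact h.far_N hG
  funext j
  have hV : Vk S.bS j =
      symmDiff
        (({CO_lo (!S.g0) (S.vx 0 1), CO_lo (!S.g0) (S.vx 1 1)} : Finset Cube).filter
          (fun p => p.2.2 = j))
        (({CO_lo (!S.g1) (S.vx 0 (S.n - 1)), CO_lo (!S.g1) (S.vx 1 (S.n - 1))} :
          Finset Cube).filter (fun p => p.2.2 = j)) := by
    ext p
    rw [mem_Vk, Finset.mem_symmDiff, Finset.mem_filter, Finset.mem_filter, Finset.mem_insert,
      Finset.mem_singleton, Finset.mem_insert, Finset.mem_singleton]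
    have hiff : upE p ∈ S.bS ↔
        (p = CO_lo (!S.g0) (S.vx 0 1) ∨ p = CO_lo (!S.g0) (S.vx 1 1)) ∨
        (p = CO_lo (!S.g1) (S.vx 0 (S.n - 1)) ∨ p = CO_lo (!S.g1) (S.vx 1 (S.n - 1))) := by
      constructor
      · intro h1
        obtain ⟨s, hs, h2⟩ := Strip.vert_edge h1
        rw [eS, eN] at h2
        rcases h2 with h2 | h2
        · left
          have h3 := CO_upE_inj h2
          rcases hs with rfl | rfl
          · exact Or.inl h3
          · exact Or.inr h3
        · right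
          have h3 := CO_upE_inj h2
          rcases hs with rfl | rfl
          · exact Or.inl h3
          · exact Or.inr h3
      · have hS' : ∀ s : ℤ, (s = 0 ∨ s = 1) → upE (CO_lo (!S.g0) (S.vx s 1)) ∈ S.bS := by
          intro s hs
          rw [← eS]
          exact (Strip.memA_bS _).2 (Or.inl ⟨s, hs, 0, by omega, rfl⟩)
        have hN' : ∀ s : ℤ, (s = 0 ∨ s = 1) → upE (CO_lo (!S.g1) (S.vx s (S.n - 1))) ∈ S.bS := by
          intro s hs
          rw [← eN]
          refine (Strip.memA_bS _).2 (Or.inl ⟨s, hs, S.n - 1, by omega, ?_⟩)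
          have e : S.n - 1 + 1 = S.n := by omega
          rw [e]
        rintro ((rfl | rfl) | (rfl | rfl))
        · exact hS' 0 (Or.inl rfl)
        · exact hS' 1 (Or.inr rfl)
        · exact hN' 0 (Or.inl rfl)
        · exact hN' 1 (Or.inr rfl)
    rw [hiff]
    constructor
    · rintro ⟨h1, h2 | h2⟩
      · left
        refine ⟨⟨h2, h1⟩, ?_⟩
        rintro ⟨h3, -⟩
        rcases h2 with h2 | h2 <;> rcases h3 with h3 | h3 <;> exact hne _ _ (h2.symm.trans h3)
      · right
        refine ⟨⟨h2, h1⟩, ?_⟩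
        rintro ⟨h3, -⟩
        rcases h2 with h2 | h2 <;> rcases h3 with h3 | h3 <;> exact hne _ _ (h3.symm.trans h2)
    · rintro (⟨⟨h1, h2⟩, -⟩ | ⟨⟨h1, h2⟩, -⟩)
      · exact ⟨h2, Or.inl h1⟩
      · exact ⟨h2, Or.inr h1⟩
  unfold EE
  rw [hV, img2_symmDiff, CO_pair _ j hneS hzS hvS, CO_pair _ j hneN hzN hvN]
  rfl

theorem FC.EE_push (h : FC S G f v) (hG : S.bS ⊆ G) (C : Finset (Sym2 Cube)) :
    EE (symmDiff C S.bS) f = EE C f := by
  funext j
  rw [EE_symmDiff, h.EE_bS hG]
  simp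

/-! Reversal of the column. -/

theorem Kc_rev (hG : S.bS ⊆ G) (p : Cube) : Kc S.rev G p ↔ Kc S G p := by
  have h2n := Strip.two_le S
  unfold Kc
  rw [Strip.rev_vx (by omega), Strip.rev_vx (by omega)]
  have h0 : HC G (S.vx 0 (S.n - 1)) (S.vx 0 1) := CO_side hG (Or.inl rfl) (by omega) (by omega)
  have h1 : HC G (S.vx 1 (S.n - 1)) (S.vx 1 1) := CO_side hG (Or.inr rfl) (by omega) (by omega)
  constructor
  · rintro ⟨h2, h3 | h3⟩
    · exact ⟨h2, Or.inl (h3.trans h0)⟩
    · exact ⟨h2, Or.inr (h3.trans h1)⟩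
  · rintro ⟨h2, h3 | h3⟩
    · exact ⟨h2, Or.inl (h3.trans h0.symm)⟩
    · exact ⟨h2, Or.inr (h3.trans h1.symm)⟩

theorem FC.rev (h : FC S G f v) (hG : S.bS ⊆ G) : FC S.rev G f v where
  hz := h.hz
  line := by
    intro p q h1 h2
    rw [Kc_rev hG, Kc_rev hG]
    exact h.line p q h1 h2
  sep := by
    intro p q h1 h2
    rw [Kc_rev hG, Kc_rev hG]
    exact h.sep p q h1 h2
  cls := by
    intro p hp
    rw [Kc_rev hG] at hp
    exact h.cls p hp
  gap := by
    intro p hp hK
    rw [Kc_rev hG] at hK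
    exact h.gap p hp hK

theorem KS_rev (S : Strip) (f : Cube → ℚ) : KS S.rev f = KN S f := by
  unfold KS KN
  rw [Strip.rev_vx (by omega)]
  rfl

theorem KN_rev (S : Strip) (f : Cube → ℚ) : KN S.rev f = KS S f := by
  unfold KS KN
  rw [Strip.rev_n, Strip.rev_vx (le_refl _), Nat.sub_self]
  rfl

end Pool.Agent.Helper24.GEO
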