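import Pool.Agent.Helper24.GEO.Seg

/-!
# GEO-05: a collapsed function exists (project GEO, MP_409f7f_co)

PROOF. `t p = 1 / (encode (rep p) + 2)` where `rep` chooses a point of the class of `p` for the
equivalence relation `HC G`; `t` takes values in `(0, 1)`, `t p = t q` iff `HC G p q`. Put
`f p = 4 * c + 2 = v` if `K p`, else `f p = 4 * xc p.2.2 p + t p`.
-/

namespace Pool.Agent.Helper24.GEO

open Pool.Agent.Helper17.UF Pool.Agent.Helper53.GP Pool.Agent.Helper24.RUL

/-- Numbers in `(0, 1)` that separate the classes of `HC G`. -/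
theorem exists_sepnum (G : Finset (Sym2 Cube)) : ∃ t : Cube → ℚ,
    (∀ p, 0 < t p) ∧ (∀ p, t p < 1) ∧ (∀ p q, HC G p q → t p = t q) ∧
    (∀ p q, t p = t q → HC G p q) := by
  obtain ⟨e, he⟩ : ∃ e : Cube → ℕ, Function.Injective e := by
    have hc : Countable Cube := by
      change Countable (ℤ × ℤ × ℤ)
      infer_instance
    exact hc.exists_injective_nat'
  let st : Setoid Cube := ⟨HC G, HC.refl G, fun h => HC.symm h, fun h h' => HC.trans h h'⟩
  let rep : Cube → Cube := fun p => (Quotient.mk st p).out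
  have hrep : ∀ p, HC G (rep p) p := fun p => Quotient.exact (Quotient.out_eq (Quotient.mk st p))
  have hcongr : ∀ p q, HC G p q → rep p = rep q := by
    intro p q h
    have : Quotient.mk st p = Quotient.mk st q := Quotient.sound h
    simp only [rep, this]
  refine ⟨fun p => 1 / ((e (rep p) : ℚ) + 2), ?_, ?_, ?_, ?_⟩
  · intro p; positivity
  · intro p
    have h0 : (0 : ℚ) ≤ (e (rep p) : ℚ) := Nat.cast_nonneg _
    rw [div_lt_one (by linarith)]
    linarith
  · intro p q h
    simp only [hcongr p q h]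
  · intro p q h
    have hp : (0 : ℚ) ≤ (e (rep p) : ℚ) := Nat.cast_nonneg _
    have hq : (0 : ℚ) ≤ (e (rep q) : ℚ) := Nat.cast_nonneg _
    have h1 : (e (rep p) : ℚ) + 2 = (e (rep q) : ℚ) + 2 := by
      have h2 := congrArg (fun x : ℚ => 1 / x) h
      simpa using h2
    have h3 : e (rep p) = e (rep q) := by
      have : (e (rep p) : ℚ) = (e (rep q) : ℚ) := by linarith
      exact_mod_cast this
    have h4 : rep p = rep q := he h3
    exact HC.trans (HC.symm (hrep p)) (h4 ▸ hrep q)

theorem exists_coll (G : Finset (Sym2 Cube)) (k c : ℤ) (K : Cube → Prop)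
    (hK : ∀ p, K p → p.2.2 = k ∧ (xc k p = c ∨ xc k p = c + 1))
    (hKc : ∀ p q, HC G p q → (K p ↔ K q)) :
    ∃ (f : Cube → ℚ) (v : ℚ),
      (∀ p, hzE p ∈ G → f (nx p) = f p) ∧
      (∀ p q, p.2.2 = q.2.2 → xc p.2.2 p < xc p.2.2 q → f p < f q ∨ (K p ∧ K q)) ∧
      (∀ p q, p.2.2 = q.2.2 → f p = f q → HC G p q ∨ (K p ∧ K q)) ∧
      (∀ p, K p → f p = v) ∧
      (∀ p, p.2.2 = k → ¬ K p → (xc k p ≤ c ∧ f p < v) ∨ (c + 1 ≤ xc k p ∧ v + 1 < f p)) := by
  classical
  obtain ⟨t, ht0, ht1, htc, hts⟩ := exists_sepnum G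
  set f : Cube → ℚ := fun p => if K p then 4 * (c : ℚ) + 2 else 4 * (xc p.2.2 p : ℚ) + t p with hf
  have fK : ∀ p, K p → f p = 4 * (c : ℚ) + 2 := fun p h => by simp only [hf, if_pos h]
  have fN : ∀ p, ¬ K p → f p = 4 * (xc p.2.2 p : ℚ) + t p := fun p h => by
    simp only [hf, if_neg h]
  refine ⟨f, 4 * (c : ℚ) + 2, ?_, ?_, ?_, fK, ?_⟩
  · intro p hp
    have h1 : HC G p (nx p) := HC.step hp
    have h2 := hKc p (nx p) h1
    by_cases hk : K p
    · rw [fK p hk, fK _ (h2.1 hk)]
    · rw [fN p hk, fN _ (fun h => hk (h2.2 h)), htc p (nx p) h1, nx_z, xc_nx]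
  · intro p q hpq hlt
    by_cases hp : K p
    · by_cases hq : K q
      · exact Or.inr ⟨hp, hq⟩
      · left
        rw [fK p hp, fN q hq]
        obtain ⟨h1, h2⟩ := hK p hp
        have h3 : c + 1 ≤ xc q.2.2 q := by
          rw [← hpq, h1]; rw [h1] at hlt; omega
        have h4 : ((c : ℚ) + 1) ≤ (xc q.2.2 q : ℚ) := by exact_mod_cast h3
        have := ht0 q
        linarith
    · left
      by_cases hq : K q
      · rw [fN p hp, fK q hq]
        obtain ⟨h1, h2⟩ := hK q hq
        have h3 : xc p.2.2 p ≤ c := by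
          rw [hpq, h1] at hlt ⊢; omega
        have h4 : (xc p.2.2 p : ℚ) ≤ (c : ℚ) := by exact_mod_cast h3
        have := ht1 p
        linarith
      · rw [fN p hp, fN q hq]
        have h3 : xc p.2.2 p + 1 ≤ xc q.2.2 q := by rw [← hpq]; omega
        have h4 : (xc p.2.2 p : ℚ) + 1 ≤ (xc q.2.2 q : ℚ) := by exact_mod_cast h3
        have h5 := ht1 p
        have h6 := ht0 q
        linarith
  · intro p q hpq he
    have aux : ∀ r, ¬ K r → f r ≠ 4 * (c : ℚ) + 2 := by
      intro r hr hh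
      rw [fN r hr] at hh
      have h5 := ht1 r
      have h6 := ht0 r
      have h7 : (4 * (xc r.2.2 r : ℚ)) < 4 * (c : ℚ) + 2 := by linarith
      have h8 : 4 * (c : ℚ) + 2 < 4 * (xc r.2.2 r : ℚ) + 1 := by linarith
      have h9 : 4 * xc r.2.2 r < 4 * c + 2 := by exact_mod_cast h7
      have h10 : 4 * c + 2 < 4 * xc r.2.2 r + 1 := by exact_mod_cast h8
      omega
    by_cases hp : K p
    · by_cases hq : K q
      · exact Or.inr ⟨hp, hq⟩
      · exact absurd (he ▸ fK p hp) (aux q hq)
    · by_cases hq : K q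
      · exact absurd (he.trans (fK q hq)) (aux p hp)
      · left
        rw [fN p hp, fN q hq] at he
        have h5 := ht1 p
        have h6 := ht0 p
        have h7 := ht1 q
        have h8 := ht0 q
        have h9 : 4 * (xc p.2.2 p : ℚ) < 4 * (xc q.2.2 q : ℚ) + 1 := by linarith
        have h10 : 4 * (xc q.2.2 q : ℚ) < 4 * (xc p.2.2 p : ℚ) + 1 := by linarith
        have h11 : 4 * xc p.2.2 p < 4 * xc q.2.2 q + 1 := by exact_mod_cast h9
        have h12 : 4 * xc q.2.2 q < 4 * xc p.2.2 p + 1 := by exact_mod_cast h10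
        have h13 : xc p.2.2 p = xc q.2.2 q := by omega
        rw [h13] at he
        exact hts p q (by linarith)
  · intro p hpk hp
    rw [fN p hp, hpk]
    rcases le_or_gt (xc k p) c with h | h
    · left
      refine ⟨h, ?_⟩
      have h4 : (xc k p : ℚ) ≤ (c : ℚ) := by exact_mod_cast h
      have := ht1 p
      linarith
    · right
      have h3 : c + 1 ≤ xc k p := by omega
      refine ⟨h3, ?_⟩
      have h4 : (c : ℚ) + 1 ≤ (xc k p : ℚ) := by exact_mod_cast h3
      have := ht0 p
      linarith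

/-- A model exists for every curve (`K` = nothing). -/
theorem exists_mod (C : Finset (Sym2 Cube)) : ∃ f, Mod C f := by
  obtain ⟨f, v, h1, h2, h3, -, -⟩ := exists_coll C 0 0 (fun _ => False)
    (fun _ h => h.elim) (fun _ _ _ => Iff.rfl)
  refine ⟨f, h1, ?_, ?_⟩
  · intro p q _ _ hpq hlt
    rcases h2 p q hpq hlt with h | h
    · exact h
    · exact h.1.elim
  · intro p q _ _ hpq he
    rcases h3 p q hpq he with h | h
    · exact h
    · exact h.1.elim

end Pool.Agent.Helper24.GEO
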