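import Pool.Agent.Helper53.GP.Field
import Pool.Agent.Helper24.RUL.Defs

/-!
# Legendrian lattice curves (project GEO, MP_409f7f_co)

Level `k` has the direction `dk k`; `xc k p` is the coordinate of `p` along `dk k`. An edge of the cubic
lattice is Legendrian if it is vertical, or horizontal at some level `k` and perpendicular to
`dk k`, that is, parallel to `dk (k + 1)`. So a horizontal Legendrian edge of level `k` lies on a line
`xc k = const`, with coordinate `xc (k + 1)`.
-/

namespace Pool.Agent.Helper24.GEO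

open Pool.Agent.Helper17.UF Pool.Agent.Helper53.GP Pool.Agent.Helper24.RUL

/-- The coordinate along the direction of level `k`. -/
def xc (k : ℤ) (p : Cube) : ℤ :=
  if k % 4 = 0 then p.1 else if k % 4 = 1 then p.2.1 else if k % 4 = 2 then -p.1 else -p.2.1

/-- The point with `xc k = x`, `xc (k + 1) = y` and height `z`. -/
def ptk (k x y z : ℤ) : Cube :=
  if k % 4 = 0 then (x, y, z) else if k % 4 = 1 then (-y, x, z) else if k % 4 = 2 then (-x, -y, z)
  else (y, -x, z)

def up (p : Cube) : Cube := (p.1, p.2.1, p.2.2 + 1)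

def dn (p : Cube) : Cube := (p.1, p.2.1, p.2.2 - 1)

/-- The next point on the Legendrian line of the level of `p`. -/
def nx (p : Cube) : Cube := p + (dk (p.2.2 + 1)).vec

/-- The previous point. -/
def pv (p : Cube) : Cube := p - (dk (p.2.2 + 1)).vec

/-- The vertical edge above `p`. -/
def upE (p : Cube) : Sym2 Cube := s(p, up p)

/-- The horizontal Legendrian edge from `p` to `nx p`. -/
def hzE (p : Cube) : Sym2 Cube := s(p, nx p)

/-- The point lies on the curve. -/
def On (C : Finset (Sym2 Cube)) (p : Cube) : Prop := ∃ ε ∈ C, p ∈ ε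

/-- A Legendrian lattice curve: all edges are Legendrian, every vertex has degree 0 or 2. -/
def Valid (C : Finset (Sym2 Cube)) : Prop :=
  (∀ ε ∈ C, ∃ p, ε = upE p ∨ ε = hzE p) ∧
  ∀ p, (C.filter (fun ε => p ∈ ε)).card = 0 ∨ (C.filter (fun ε => p ∈ ε)).card = 2

/-- Connected by horizontal edges of `C`. -/
def HC (C : Finset (Sym2 Cube)) (p q : Cube) : Prop :=
  Relation.EqvGen (fun a b => hzE a ∈ C ∧ b = nx a) p q

/-- A model of the curve: a value for every vertex, constant on the horizontal segments,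
different on different segments of a level, increasing with `xc k` (arbitrary inside a line). -/
structure Mod (C : Finset (Sym2 Cube)) (f : Cube → ℚ) : Prop where
  hz : ∀ p, hzE p ∈ C → f (nx p) = f p
  line : ∀ p q, On C p → On C q → p.2.2 = q.2.2 → xc p.2.2 p < xc p.2.2 q → f p < f q
  sep : ∀ p q, On C p → On C q → p.2.2 = q.2.2 → f p = f q → HC C p q

/-- The lower ends of the vertical edges of layer `k`. -/
def Vk (C : Finset (Sym2 Cube)) (k : ℤ) : Finset Cube :=
  (C.biUnion (fun ε => ε.toFinset)).filter (fun p => p.2.2 = k ∧ upE p ∈ C)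

/-- The link of a curve with respect to a function on the vertices (modulo two). -/
def EE (C : Finset (Sym2 Cube)) (f : Cube → ℚ) : Lk := fun k =>
  img2 (fun p => (f p, f (up p))) (Vk C k)

/-- The curve has a normal ruling. -/
def R (C : Finset (Sym2 Cube)) : Prop := ∃ f, Mod C f ∧ Rul (EE C f)

/-- A column: the strip between the lines `xc k = c` (side 0) and `xc k = c + 1` (side 1) at level
`k` from `xc (k+1) = y0` (end S) to `y1` (end N), continued at the end S by a vertical unit square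
going up (`g0 = true`) or down, and at the end N by one going up (`g1 = true`) or down. -/
structure Strip where
  k : ℤ
  c : ℤ
  y0 : ℤ
  y1 : ℤ
  g0 : Bool
  g1 : Bool
  ok : y0 = y1 → g0 ≠ g1

namespace Strip

/-- Number of squares. -/
def n (S : Strip) : ℕ := (S.y1 - S.y0).natAbs + 2

/-- `1` if the end N has the larger coordinate, otherwise `-1`. -/
def sg (S : Strip) : ℤ := if S.y0 ≤ S.y1 then 1 else -1

/-- Level of the far edge of a vertical square. -/
def far (S : Strip) (g : Bool) : ℤ := if g then S.k + 1 else S.k - 1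

/-- The `i`-th vertex of side `s` (`s = 0, 1`), `0 ≤ i ≤ n`, from the end S to the end N. -/
def vx (S : Strip) (s : ℤ) (i : ℕ) : Cube :=
  if i = 0 then ptk S.k (S.c + s) S.y0 (S.far S.g0)
  else if i < S.n then ptk S.k (S.c + s) (S.y0 + S.sg * ((i : ℤ) - 1)) S.k
  else ptk S.k (S.c + s) S.y1 (S.far S.g1)

/-- The boundary of the column. -/
def bS (S : Strip) : Finset (Sym2 Cube) :=
  (Finset.range S.n).image (fun i => s(S.vx 0 i, S.vx 0 (i + 1))) ∪
  (Finset.range S.n).image (fun i => s(S.vx 1 i, S.vx 1 (i + 1))) ∪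
  {s(S.vx 0 0, S.vx 1 0), s(S.vx 0 S.n, S.vx 1 S.n)}

/-- The boundary vertices in cyclic order, cut open between `vx 0 q` and `vx 0 (q+1)`:
`vx 0 q, .., vx 0 0, vx 1 0, .., vx 1 n, vx 0 n, .., vx 0 (q+1)`, `0 ≤ j ≤ 2 n + 1`. -/
def Z (S : Strip) (q j : ℕ) : Cube :=
  if j ≤ q then S.vx 0 (q - j)
  else if j ≤ q + 1 + S.n then S.vx 1 (j - q - 1)
  else S.vx 0 (q + 2 * S.n + 2 - j)

/-- Direction (0 up, 1 forward, 2 down, 3 backward) of the side at its `i`-th vertex towards S. -/
def dS (S : Strip) (i : ℕ) : Fin 4 :=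
  if i = 1 then (if S.g0 then 0 else 2) else (if S.y0 ≤ S.y1 then 3 else 1)

/-- The same towards N. -/
def dN (S : Strip) (i : ℕ) : Fin 4 :=
  if i + 1 = S.n then (if S.g1 then 0 else 2) else (if S.y0 ≤ S.y1 then 1 else 3)

end Strip

/-- The neighbour of a point in a Legendrian direction. -/
def stp (d : Fin 4) (u : Cube) : Cube :=
  if d = 0 then up u else if d = 1 then nx u else if d = 2 then dn u else pv u

/-- `b` is strictly between `a` and `c` in the cyclic order `0, 1, 2, 3`. -/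
def cyc4 (a b c : Fin 4) : Prop := 0 < (b - a).val ∧ (b - a).val < (c - a).val

instance (a b c : Fin 4) : Decidable (cyc4 a b c) := by unfold cyc4; infer_instance

/-- The curve leaves the sides of the column (at level `k`) in the right directions: the edge of side 1
between the vertices `r` and `r+1` and the edge of side 0 between `q` and `q+1` are the crossing
edges. -/
def Loc (S : Strip) (q r : ℕ) (C : Finset (Sym2 Cube)) : Prop :=
  ∀ (i : ℕ) (d : Fin 4), 1 ≤ i → i < S.n →
    (s(S.vx 1 i, stp d (S.vx 1 i)) ∈ C → s(S.vx 1 i, stp d (S.vx 1 i)) ∉ S.bS →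
      if r < i then cyc4 (S.dS i) d (S.dN i) else cyc4 (S.dN i) d (S.dS i)) ∧
    (s(S.vx 0 i, stp d (S.vx 0 i)) ∈ C → s(S.vx 0 i, stp d (S.vx 0 i)) ∉ S.bS →
      if q < i then cyc4 (S.dN i) d (S.dS i) else cyc4 (S.dS i) d (S.dN i))

/-- The far vertex of the vertical edge at `u` that goes up (`b = false`) or down (`b = true`). -/
def fr (b : Bool) (u : Cube) : Cube := if b then dn u else up u

/-- The curve has this vertical edge. -/
def VE (C : Finset (Sym2 Cube)) (b : Bool) (u : Cube) : Prop := s(u, fr b u) ∈ C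

/-- The key of a vertical end. -/
def key (f : Cube → ℚ) (b : Bool) (u : Cube) : Bool × ℚ := (b, f (fr b u))

/-- The key of a vertical end with coordinate `y` on its line. -/
def ik (b : Bool) (y : ℤ) : Bool × ℚ := (b, if b then -(y : ℚ) else (y : ℚ))

/-- Strict cyclic order of keys. -/
def Cyc3 (x y z : Bool × ℚ) : Prop :=
  (klt x y ∧ klt y z) ∨ (klt y z ∧ klt z x) ∨ (klt z x ∧ klt x y)

/-- The vertical end with coordinate `y'` and direction `b` is reached from the point with
coordinate `y` in the direction `d`. -/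
def Rch (d : Fin 4) (y : ℤ) (b : Bool) (y' : ℤ) : Prop :=
  (d = 0 ∧ b = false ∧ y' = y) ∨ (d = 1 ∧ y < y') ∨ (d = 2 ∧ b = true ∧ y' = y) ∨
  (d = 3 ∧ y' < y)

/-- Leaving `u` in the direction `d` the curve `N` goes along the line to the vertical end
`(w, b)`. -/
def OutEnd (N : Finset (Sym2 Cube)) (u : Cube) (d : Fin 4) (b : Bool) (w : Cube) : Prop :=
  s(u, stp d u) ∈ N ∧ HC N u w ∧ VE N b w ∧
    Rch d (xc (u.2.2 + 1) u) b (xc (u.2.2 + 1) w)

/-- A collapsed model: as `Mod`, but at level `k` several segments on the lines `c`, `c + 1` have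
the value `v`. -/
structure CollD (k c : ℤ) (D : Finset (Sym2 Cube)) (f : Cube → ℚ) (v : ℚ) : Prop where
  hz : ∀ p, hzE p ∈ D → f (nx p) = f p
  line : ∀ p q, On D p → On D q → p.2.2 = q.2.2 → xc p.2.2 p < xc p.2.2 q →
    f p < f q ∨ (p.2.2 = k ∧ f p = v ∧ f q = v)
  sep : ∀ p q, On D p → On D q → p.2.2 = q.2.2 → f p = f q → HC D p q ∨ (p.2.2 = k ∧ f p = v)
  gap : ∀ p, On D p → p.2.2 = k → (xc k p ≤ c ∧ f p < v) ∨ (c + 1 ≤ xc k p ∧ v + 1 < f p) ∨
    (f p = v ∧ (xc k p = c ∨ xc k p = c + 1))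

/-- The class of the column: the vertices of level `k` connected with its sides. -/
def Kc (S : Strip) (G : Finset (Sym2 Cube)) (p : Cube) : Prop :=
  p.2.2 = S.k ∧ (HC G p (S.vx 0 1) ∨ HC G p (S.vx 1 1))

/-- A collapsed function for `G`: the class of the column has the value `v`. -/
structure FC (S : Strip) (G : Finset (Sym2 Cube)) (f : Cube → ℚ) (v : ℚ) : Prop where
  hz : ∀ p, hzE p ∈ G → f (nx p) = f p
  line : ∀ p q, p.2.2 = q.2.2 → xc p.2.2 p < xc p.2.2 q → f p < f q ∨ (Kc S G p ∧ Kc S G q)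
  sep : ∀ p q, p.2.2 = q.2.2 → f p = f q → HC G p q ∨ (Kc S G p ∧ Kc S G q)
  cls : ∀ p, Kc S G p → f p = v
  gap : ∀ p, p.2.2 = S.k → ¬ Kc S G p →
    (xc S.k p ≤ S.c ∧ f p < v) ∨ (S.c + 1 ≤ xc S.k p ∧ v + 1 < f p)

/-- The keys of the two ends of the column. -/
def KS (S : Strip) (f : Cube → ℚ) : Bool × ℚ := (!S.g0, f (S.vx 0 0))

def KN (S : Strip) (f : Cube → ℚ) : Bool × ℚ := (!S.g1, f (S.vx 0 S.n))

/-- Kind I: the curve contains of the boundary of the column exactly the arc from `Z lo` to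
`Z hi`. -/
structure KI (S : Strip) (q : ℕ) (D : Finset (Sym2 Cube)) (lo hi : ℕ) : Prop where
  qn : q < S.n
  lt : lo < hi
  hi_le : hi ≤ 2 * S.n + 1
  edge : ∀ j, j < 2 * S.n + 1 → (s(S.Z q j, S.Z q (j + 1)) ∈ D ↔ lo ≤ j ∧ j < hi)
  wrap : s(S.Z q 0, S.Z q (2 * S.n + 1)) ∉ D
  on : ∀ j, j ≤ 2 * S.n + 1 → (On D (S.Z q j) ↔ lo ≤ j ∧ j ≤ hi)

/-- Kind II: the curve contains exactly the complementary arc. -/
structure KII (S : Strip) (q : ℕ) (D : Finset (Sym2 Cube)) (lo hi : ℕ) : Prop where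
  qn : q < S.n
  lt : lo < hi
  hi_le : hi ≤ 2 * S.n + 1
  edge : ∀ j, j < 2 * S.n + 1 → (s(S.Z q j, S.Z q (j + 1)) ∈ D ↔ ¬ (lo ≤ j ∧ j < hi))
  wrap : s(S.Z q 0, S.Z q (2 * S.n + 1)) ∈ D
  on : ∀ j, j ≤ 2 * S.n + 1 → (On D (S.Z q j) ↔ j ≤ lo ∨ hi ≤ j)

/-- The data of a push across the column. The crossing edges are `s(vx 1 r, vx 1 (r + 1))` (in the
curve) and `s(vx 0 q, vx 0 (q + 1))` (the wrap edge, not in the curve). -/
structure ArcP (S : Strip) (q r : ℕ) (C : Finset (Sym2 Cube)) (lo hi : ℕ) : Prop where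
  ki : KI S q C lo hi
  rn : r < S.n
  lo_le : lo ≤ q + 1 + r
  le_hi : q + 2 + r ≤ hi
  loc : Loc S q r C

/-- The data of the last column: both crossing edges are in the curve, a part of the white side or of
the black side of the boundary of the column is missing, and a vertical edge is missing. -/
structure ArcZ (S : Strip) (q r : ℕ) (C : Finset (Sym2 Cube)) (lo hi : ℕ) : Prop where
  kii : KII S q C lo hi
  rn : r < S.n
  pos : hi ≤ q + 1 + r ∨ q + 2 + r ≤ lo
  vert : ∃ j p, lo ≤ j ∧ j < hi ∧ s(S.Z q j, S.Z q (j + 1)) = upE p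
  loc : Loc S q r C

/-- A chain of columns: `C j` is the boundary of `S 0, .., S j` (`j ≤ n`), the column `S (j + 1)` is
pushed across at step `j`, the column `S (n + 1)` closes the chain. (`S (j + 1)` is the column on
side 0 of `S j`, with which it shares the crossing edge; this is on side 1 of `S (j + 1)`.) -/
structure Chain (n : ℕ) where
  S : ℕ → Strip
  q : ℕ → ℕ
  r : ℕ → ℕ
  lo : ℕ → ℕ
  hi : ℕ → ℕ
  C : ℕ → Finset (Sym2 Cube)
  valid : ∀ j, j ≤ n → Valid (C j)
  base : C 0 = (S 0).bS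
  push : ∀ j, j < n → ArcP (S (j + 1)) (q (j + 1)) (r (j + 1)) (C j) (lo (j + 1)) (hi (j + 1))
  next : ∀ j, j < n → C (j + 1) = symmDiff (C j) (S (j + 1)).bS
  zero : ArcZ (S (n + 1)) (q (n + 1)) (r (n + 1)) (C n) (lo (n + 1)) (hi (n + 1))

end Pool.Agent.Helper24.GEO
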