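import Pool.Agent.Helper24.GEO.ProfII

/-!
# GEO-19: the last column: no ruling (project GEO, MP_409f7f_co)

By reversal (`rev_ArcZ`) we may assume that the missing arc is white: `q + 2 + r ≤ lo` (so
`q + 2 ≤ lo`). `G = C ∪ bS`, `f` from `exists_FC`. A vertical edge is missing; the vertical edges of
the white part are `j = q + n` (leg of side 1 at N) and `j = q + n + 2` (leg of side 0 at N)
(`Strip.vert_edge`, `leg_N`, positions from `side1`, `side0_hi`). Cases:
* `lo ≤ q + n`: then `q + n + 1 ≤ hi` (otherwise no vertical edge is missing). `hi ≤ q + n + 2`: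
  `II_S1`, `R C` would give `Cyc KN κ KS` with `κ` the outer end at `vx 1 (lo - q - 1)`, but
  `Cyc3 KS κ KN` by `out_cyc` (`not_cyc`). `q + n + 3 ≤ hi`: `II_S2` would give `Cyc κ' κ KS`, but
  `Cyc3 KS κ KN` and `Cyc3 KN κ' KS` (`out_cyc`, side 0 white), so the cyclic order is
  `KS, κ, KN, κ'`.
* `q + n + 1 ≤ lo`: then `lo ≤ q + n + 2` and `q + n + 3 ≤ hi`: `II_S3` would give `Cyc κ' KN KS`, but
  `Cyc3 KN κ' KS`.
-/

namespace Pool.Agent.Helper24.GEO

open Pool.Agent.Helper17.UF Pool.Agent.Helper53.GP Pool.Agent.Helper24.RUL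

/-- Positions of the vertical edges that can be missing. -/
private theorem zero_pos {S : Strip} {q lo hi j : ℕ} (hq : q < S.n) (hlo : q + 2 ≤ lo)
    (hhi : hi ≤ 2 * S.n + 1) (hj1 : lo ≤ j) (hj2 : j < hi) {p : Cube}
    (hp : s(S.Z q j, S.Z q (j + 1)) = upE p) : j = q + S.n ∨ j = q + S.n + 2 := by
  have h2 := S.two_le
  have hj : j < 2 * S.n + 1 := by omega
  have hm : upE p ∈ S.bS := (Strip.mem_bS hq).2 (Or.inl ⟨j, hj, hp.symm⟩)
  obtain ⟨s, hs, hv⟩ := Strip.vert_edge hm
  rcases hs with rfl | rfl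
  · rcases hv with hv | hv
    · exfalso
      rcases Nat.eq_zero_or_pos q with h0 | h0
      · subst h0
        have e := Strip.side0_q (S := S) hq
        rw [← hp, e] at hv
        exact Strip.edge_ne_wrap hq hj hv
      · have e := Strip.side0_lo (S := S) (q := q) (i := 0) h0
        rw [← hp, e] at hv
        have := Strip.edge_inj hq hj (by omega) hv
        omega
    · rcases Nat.lt_or_ge q (S.n - 1) with h0 | h0
      · have e := Strip.side0_hi (S := S) hq (i := S.n - 1) h0 (by omega)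
        have e1 : S.n - 1 + 1 = S.n := by omega
        rw [e1] at e
        rw [← hp, e] at hv
        have := Strip.edge_inj hq hj (by omega) hv
        omega
      · exfalso
        have e := Strip.side0_q (S := S) hq
        have e1 : q = S.n - 1 := by omega
        have e2 : q + 1 = S.n := by omega
        rw [e2] at e
        rw [← hp, ← e1, e] at hv
        exact Strip.edge_ne_wrap hq hj hv
  · rcases hv with hv | hv
    · exfalso
      have e := Strip.side1 (S := S) (q := q) (i := 0) (by omega)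
      rw [← hp, e] at hv
      have := Strip.edge_inj hq hj (by omega) hv
      omega
    · have e := Strip.side1 (S := S) (q := q) (i := S.n - 1) (by omega)
      have e1 : S.n - 1 + 1 = S.n := by omega
      rw [e1] at e
      rw [← hp, e] at hv
      have := Strip.edge_inj hq hj (by omega) hv
      omega

private theorem zero_aux {S : Strip} {q r lo hi : ℕ} {C : Finset (Sym2 Cube)} (hC : Valid C)
    (h : ArcZ S q r C lo hi) (hp : q + 2 + r ≤ lo) : ¬ R C := by
  intro hR
  have h2 := S.two_le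
  obtain ⟨hk, hrn, -, ⟨j, p, hj1, hj2, hjp⟩, hloc⟩ := h
  have hq := hk.qn
  have hlt := hk.lt
  have hhi := hk.hi_le
  have hpos := zero_pos hq (by omega) hhi hj1 hj2 hjp
  obtain ⟨f, v, hf⟩ := exists_FC S (C ∪ S.bS)
  have hG : S.bS ⊆ C ∪ S.bS := Finset.subset_union_right
  have hDG : C ⊆ C ∪ S.bS := Finset.subset_union_left
  have hGD : ∀ ε ∈ C ∪ S.bS, ε ∉ C → ε ∈ S.bS := by
    intro ε hε hn
    rcases Finset.mem_union.1 hε with h | h
    · exact absurd h hn
    · exact h
  -- the outer end on side 1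
  have key1 : lo ≤ q + S.n → ∃ d b w, OutEnd (C \ S.bS) (S.vx 1 (lo - q - 1)) d b w ∧
      Cyc3 (KS S f) (key f b w) (KN S f) := by
    intro hl
    have e : S.Z q lo = S.vx 1 (lo - q - 1) := by
      have := Strip.Z_mid (S := S) (q := q) (i := lo - q - 1) (by omega)
      rwa [show q + 1 + (lo - q - 1) = lo by omega] at this
    have hon : On C (S.vx 1 (lo - q - 1)) := by
      rw [← e]
      exact (hk.on lo (by omega)).2 (Or.inl le_rfl)
    have hx : ¬ (s(S.vx 1 (lo - q - 1), S.vx 1 (lo - q - 1 - 1)) ∈ C ∧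
        s(S.vx 1 (lo - q - 1), S.vx 1 (lo - q - 1 + 1)) ∈ C) := by
      rintro ⟨-, hx⟩
      have e1 := Strip.side1 (S := S) (q := q) (i := lo - q - 1) (by omega)
      rw [show q + 1 + (lo - q - 1) = lo by omega] at e1
      rw [e1] at hx
      exact (hk.edge lo (by omega)).1 hx ⟨le_rfl, hlt⟩
    obtain ⟨d, b, w, ho, -, -⟩ := exists_out hC (Or.inr rfl) (by omega) (by omega) hon hx
    refine ⟨d, b, w, ho, ?_⟩
    exact (hf.out_cyc hG hloc (Or.inr rfl) (by omega) (by omega) ho).1
      (Or.inl ⟨rfl, by omega⟩)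
  -- the outer end on side 0
  have key0 : q + S.n + 3 ≤ hi → ∃ d b w,
      OutEnd (C \ S.bS) (S.vx 0 (q + 2 * S.n + 2 - hi)) d b w ∧
      Cyc3 (KN S f) (key f b w) (KS S f) := by
    intro hl
    have e : S.Z q hi = S.vx 0 (q + 2 * S.n + 2 - hi) := Strip.Z_hi hq (by omega) hhi
    have hon : On C (S.vx 0 (q + 2 * S.n + 2 - hi)) := by
      rw [← e]
      exact (hk.on hi hhi).2 (Or.inr le_rfl)
    have hx : ¬ (s(S.vx 0 (q + 2 * S.n + 2 - hi), S.vx 0 (q + 2 * S.n + 2 - hi - 1)) ∈ C ∧
        s(S.vx 0 (q + 2 * S.n + 2 - hi), S.vx 0 (q + 2 * S.n + 2 - hi + 1)) ∈ C) := by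
      rintro ⟨-, hx⟩
      have e1 := Strip.side0_hi (S := S) hq (i := q + 2 * S.n + 2 - hi) (by omega) (by omega)
      rw [show q + 2 * S.n + 1 - (q + 2 * S.n + 2 - hi) = hi - 1 by omega] at e1
      rw [e1] at hx
      exact (hk.edge (hi - 1) (by omega)).1 hx ⟨by omega, by omega⟩
    obtain ⟨d, b, w, ho, -, -⟩ := exists_out hC (Or.inl rfl) (by omega) (by omega) hon hx
    refine ⟨d, b, w, ho, ?_⟩
    exact (hf.out_cyc hG hloc (Or.inl rfl) (by omega) (by omega) ho).2
      (Or.inr ⟨rfl, by omega⟩)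
  rcases Nat.lt_or_ge (q + S.n) lo with hA | hA
  · -- the arc begins at the leg of side 0
    obtain ⟨d', b', w', ho', hc'⟩ := key0 (by omega)
    have := ((hf.II_S3 hG hDG hGD hC hk (by omega) (by omega) (by omega) ho').1 hR).1
    exact not_cyc hc' this
  · obtain ⟨d, b, w, ho, hc⟩ := key1 hA
    rcases Nat.lt_or_ge hi (q + S.n + 3) with hB | hB
    · have := ((hf.II_S1 hG hDG hGD hC hk (by omega) hA (by omega) (by omega) ho).1 hR).1
      exact not_cyc (cyc3_rot hc) this
    · obtain ⟨d', b', w', ho', hc'⟩ := key0 hB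
      have := ((hf.II_S2 hG hDG hGD hC hk (by omega) hA hB ho ho').1 hR).1
      exact not_cyc (cyc3_four' hc' hc) this

theorem zero {S : Strip} {q r lo hi : ℕ} {C : Finset (Sym2 Cube)} (hC : Valid C)
    (h : ArcZ S q r C lo hi) : ¬ R C := by
  rcases h.pos with hp | hp
  · have hq := h.kii.qn
    have hrn := h.rn
    have hhi := h.kii.hi_le
    exact zero_aux hC (Strip.rev_ArcZ h) (by omega)
  · exact zero_aux hC h hp

end Pool.Agent.Helper24.GEO
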