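import Pool.Agent.Helper24.GEO.Push
import Pool.Agent.Helper24.GEO.Zero
import Pool.Agent.Helper24.GEO.Base

/-!
# There is no chain of columns (project GEO, MP_409f7f_co)
-/

namespace Pool.Agent.Helper24.GEO

open Pool.Agent.Helper17.UF Pool.Agent.Helper53.GP Pool.Agent.Helper24.RUL

theorem no_chain {n : ℕ} (K : Chain n) : False := by
  have h : ∀ j, j ≤ n → R (K.C j) := by
    intro j
    induction j with
    | zero =>
      intro _
      rw [K.base]
      exact base _
    | succ j ih =>
      intro hj
      have h1 := K.valid (j + 1) hj
      rw [K.next j (by omega)] at h1 ⊢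
      exact push (K.valid j (by omega)) (K.push j (by omega)) h1 (ih (by omega))
  exact zero (K.valid n le_rfl) K.zero (h n le_rfl)

end Pool.Agent.Helper24.GEO
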