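import Pool.Agent.Helper84.SURF.Elem
import Pool.Agent.Helper16.LD.Dual
import Pool.Agent.Helper17.UF.Statement

/-!
# Readable forms of the hypotheses (MP_409f7f_co)
-/

namespace Pool.Agent.Helper24.GEO

open Pool.Agent.Helper17.UF Pool.Agent.Helper84.LD Pool.Agent.Helper16.LD
  Pool.Agent.Helper84.SURF

/-- Any two boundary squares are joined by a chain of boundary squares in which consecutive squares
share an edge. -/
def SurfaceConnected (P : Finset Cube) : Prop :=
  ∀ A B, IsFace P A → IsFace P B → Relation.ReflTransGen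
    (fun C D => IsFace P C ∧ IsFace P D ∧ ∃ e, IsEdge P e ∧ e ⊆ square C ∧ e ⊆ square D) A B

theorem surfConn_of {P : Finset Cube} (hE : EdgeOK P) (h : SurfaceConnected P) : SurfConn P := by
  intro A B hA hB
  have h1 := h A B hA hB
  clear hB
  induction h1 with
  | refl => exact Relation.ReflTransGen.refl
  | tail _ h2 ih =>
    rename_i C D
    obtain ⟨hC, hD, e, ⟨A', t, hA', ht, rfl⟩, eC, eD⟩ := h2
    refine ih.trans ?_
    obtain ⟨v, d⟩ := A'
    have c1 := faces_of_side_E hE (v := v) (d := d) (t := t) ht hA' hC eC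
    have c2 := faces_of_side_E hE (v := v) (d := d) (t := t) ht hA' hD eD
    have hn : nbr P (nbr P (v, d) t).1 (nbr P (v, d) t).2 = ((v, d), t) :=
      Helper16.LD.nbr_nbr hA'
    have hp := perp_nbr' (P := P) (A := (v, d)) (t := t) ht
    rcases c1 with rfl | rfl <;> rcases c2 with rfl | rfl
    · exact Relation.ReflTransGen.refl
    · exact Relation.ReflTransGen.single ⟨t, ht, rfl⟩
    · exact Relation.ReflTransGen.single ⟨_, hp, by rw [hn]⟩
    · exact Relation.ReflTransGen.refl

theorem mem_vertF_corner {P : Finset Cube} {p : Cube} :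
    p ∈ vertF P ↔ ∃ A, IsFace P A ∧ Corner A p := by
  constructor
  · intro h
    unfold vertF at h
    rw [Finset.mem_image] at h
    obtain ⟨s, hs, rfl⟩ := h
    obtain ⟨h1, h2⟩ := mem_sideF.1 hs
    refine ⟨s.1, h1, ?_⟩
    obtain ⟨⟨⟨x, y, z⟩, d⟩, t⟩ := s
    simp only at h2 ⊢
    revert h2
    cases d <;> cases t <;> intro h2 <;>
      first
      | exact absurd h2 (by decide)
      | (simp [Corner, cnr, Helper16.LD.up, Dir.cross])
  · rintro ⟨⟨⟨x, y, z⟩, d⟩, hA, h1, h2, h3, h4⟩
    obtain ⟨a, b, c⟩ := p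
    simp only at h1 h2 h3
    have key : ∀ t w : Dir, Dir.perp d t = true →
        (w = Dir.cross d t ∨ w = (Dir.cross d t).neg) → cnr ((x, y, z), d) t w = (a, b, c) →
        (a, b, c) ∈ vertF P := fun t w ht hw he => he ▸ cnr_mem_vertF hA ht hw
    have e : ∀ t w : Dir, cnr ((x, y, z), d) t w =
        (x + ((Helper16.LD.up d).1 + (Helper16.LD.up t).1 + (Helper16.LD.up w).1),
          y + ((Helper16.LD.up d).2.1 + (Helper16.LD.up t).2.1 + (Helper16.LD.up w).2.1),
          z + ((Helper16.LD.up d).2.2 + (Helper16.LD.up t).2.2 + (Helper16.LD.up w).2.2)) :=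
      fun t w => rfl
    have key2 : ∀ (d : Dir) (i j k : Fin 2),
        ((d = Dir.px → i = 1) ∧ (d = Dir.nx → i = 0) ∧ (d = Dir.py → j = 1) ∧
          (d = Dir.ny → j = 0) ∧ (d = Dir.pz → k = 1) ∧ (d = Dir.nz → k = 0)) →
        ∃ t w : Dir, Dir.perp d t = true ∧ (w = Dir.cross d t ∨ w = (Dir.cross d t).neg) ∧
          (Helper16.LD.up d).1 + (Helper16.LD.up t).1 + (Helper16.LD.up w).1 = (i.val : ℤ) ∧
          (Helper16.LD.up d).2.1 + (Helper16.LD.up t).2.1 + (Helper16.LD.up w).2.1 = (j.val : ℤ) ∧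
          (Helper16.LD.up d).2.2 + (Helper16.LD.up t).2.2 + (Helper16.LD.up w).2.2 = (k.val : ℤ) := by
      decide
    have hi : ∃ i : Fin 2, a = x + (i.val : ℤ) := by
      rcases h1 with h1 | h1
      · exact ⟨0, by simp [h1]⟩
      · exact ⟨1, by simp [h1]⟩
    have hj : ∃ i : Fin 2, b = y + (i.val : ℤ) := by
      rcases h2 with h1 | h1
      · exact ⟨0, by simp [h1]⟩
      · exact ⟨1, by simp [h1]⟩
    have hk : ∃ i : Fin 2, c = z + (i.val : ℤ) := by
      rcases h3 with h1 | h1
      · exact ⟨0, by simp [h1]⟩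
      · exact ⟨1, by simp [h1]⟩
    obtain ⟨i, rfl⟩ := hi
    obtain ⟨j, rfl⟩ := hj
    obtain ⟨k, rfl⟩ := hk
    obtain ⟨t, w, k1, k2, k3, k4, k5⟩ := key2 d i j k (by
      have hi1 : x + (i.val : ℤ) = x + 1 → i = 1 := by intro h; apply Fin.ext; simp; omega
      have hi0 : x + (i.val : ℤ) = x → i = 0 := by intro h; apply Fin.ext; simp; omega
      have hj1 : y + (j.val : ℤ) = y + 1 → j = 1 := by intro h; apply Fin.ext; simp; omega
      have hj0 : y + (j.val : ℤ) = y → j = 0 := by intro h; apply Fin.ext; simp; omega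
      have hk1 : z + (k.val : ℤ) = z + 1 → k = 1 := by intro h; apply Fin.ext; simp; omega
      have hk0 : z + (k.val : ℤ) = z → k = 0 := by intro h; apply Fin.ext; simp; omega
      refine ⟨?_, ?_, ?_, ?_, ?_, ?_⟩ <;> rintro rfl <;> simp only at h4
      exacts [hi1 h4, hi0 h4, hj1 h4, hj0 h4, hk1 h4, hk0 h4])
    refine key t w k1 k2 ?_
    rw [e, k3, k4, k5]

theorem euler_of {P : Finset Cube} (hE : EdgeOK P)
    (h : {p : Cube | ∃ A, IsFace P A ∧ Corner A p}.ncard = {A : Face | IsFace P A}.ncard + 2) :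
    (vertF P).card + (faceF P).card = (edgeF P).card + 2 := by
  have h1 := card_edgeF (P := P) hE
  have h2 : {p : Cube | ∃ A, IsFace P A ∧ Corner A p} = (vertF P : Set Cube) := by
    ext p
    exact mem_vertF_corner.symm
  have h3 : {A : Face | IsFace P A} = (faceF P : Set Face) := by
    ext A
    exact mem_faceF.symm
  rw [h2, h3, Set.ncard_coe_finset, Set.ncard_coe_finset] at h
  omega

end Pool.Agent.Helper24.GEO
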