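import Pool.Agent.Helper24.GEO.LinkC
import Pool.Agent.Helper24.RUL.Relabel

/-!
# GEO-04: the existence of a ruling does not depend on the model (project GEO, MP_409f7f_co)

PROOF of `mod_indep`. For an integer `j` put `g_j p = f' p` if `p.2.2 < j`, else `f p`. Every `g_j`
is a model (all conditions are level-wise), `EE C g_(j+1) = rel (EE C g_j) j φ` for a `φ` with
`φ (f p) = f' p` for all `p` on the curve at level `j` (`mem_EE`, `Mod` says that `f p = f q` iff
`HC C p q` iff `f' p = f' q` there). Apply `relabel` (`closed_EE`): if `v = f p < w = f q` then either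
`xc j p < xc j q` and `f' p < f' q`, or `xc j p = xc j q`: two different segments of the same line, one
of them is completely before the other (with respect to `xc (j + 1)`), so all its vertices are and
`Sep` holds: a strand up has `hi = g (up u)` with `xc (j + 1) (up u) = xc (j + 1) u` and a strand
down has `lo = g (dn u)` with `xc (j - 1) (dn u) = -xc (j + 1) u`. For small `j` we have
`EE C g_j = EE C f`, for large `j` it is `EE C f'`.
-/

namespace Pool.Agent.Helper24.GEO

open Pool.Agent.Helper17.UF Pool.Agent.Helper53.GP Pool.Agent.Helper24.RUL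

variable {C : Finset (Sym2 Cube)} {f f' : Cube → ℚ}

/-- Betweenness of integers. -/
def btz (a b y : ℤ) : Prop := (a ≤ y ∧ y ≤ b) ∨ (b ≤ y ∧ y ≤ a)

/-- A segment is an interval of its line. -/
theorem hc_between {p q : Cube} (h : HC C p q) : ∀ r : Cube, r.2.2 = p.2.2 →
    xc p.2.2 r = xc p.2.2 p → btz (xc (p.2.2 + 1) p) (xc (p.2.2 + 1) q) (xc (p.2.2 + 1) r) →
    HC C p r := by
  induction h with
  | rel a b hab =>
    obtain ⟨hab, rfl⟩ := hab
    intro r hr hx hb
    rw [xc_nx'] at hb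
    have h1 : xc (a.2.2 + 1) r = xc (a.2.2 + 1) a ∨ xc (a.2.2 + 1) r = xc (a.2.2 + 1) a + 1 := by
      rcases hb with hb | hb <;> omega
    rcases h1 with h1 | h1
    · have h2 : r = a := cube_ext a.2.2 hx h1 hr
      rw [h2]
      exact HC.refl C a
    · have h2 : r = nx a :=
        cube_ext a.2.2 (by rw [hx, xc_nx]) (by rw [h1, xc_nx']) (by rw [hr, nx_z])
      rw [h2]
      exact HC.step hab
  | refl a =>
    intro r hr hx hb
    have h2 : r = a := cube_ext a.2.2 hx (by rcases hb with hb | hb <;> omega) hr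
    rw [h2]
    exact HC.refl C a
  | symm a b hab ih =>
    intro r hr hx hb
    have hab' : HC C a b := hab
    have hl := hab'.level
    have hli := hab'.line
    rw [← hl] at hx hr hb
    have := ih r hr (by rw [hx, hli]) (by rcases hb with hb | hb; exacts [Or.inr hb, Or.inl hb])
    exact hab'.symm.trans this
  | trans a b c hab hbc ih1 ih2 =>
    intro r hr hx hb
    have hab' : HC C a b := hab
    have hl := hab'.level
    have hli := hab'.line
    by_cases h : btz (xc (a.2.2 + 1) a) (xc (a.2.2 + 1) b) (xc (a.2.2 + 1) r)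
    · exact ih1 r hr hx h
    · refine hab'.trans (ih2 r (by rw [hr, hl]) ?_ ?_)
      · rw [← hl, hx, hli]
      · rw [← hl]
        unfold btz at *
        omega

/-- Two different segments of a line. -/
theorem seg_sep {p q : Cube} (hl : p.2.2 = q.2.2) (hx : xc p.2.2 p = xc p.2.2 q)
    (hn : ¬ HC C p q) (hy : xc (p.2.2 + 1) p ≤ xc (p.2.2 + 1) q) {u w : Cube} (hu : HC C p u)
    (hw : HC C q w) : xc (p.2.2 + 1) u < xc (p.2.2 + 1) w := by
  by_contra hc
  push Not at hc
  by_cases h1 : xc (p.2.2 + 1) q ≤ xc (p.2.2 + 1) u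
  · exact hn (hc_between hu q hl.symm hx.symm (Or.inl ⟨hy, h1⟩))
  · push Not at h1
    have h2 : HC C q u := by
      apply hc_between hw u
      · rw [← hl, ← hu.level]
      · rw [← hl, ← hx, hu.line]
      · rw [← hl]
        exact Or.inr ⟨hc, h1.le⟩
    exact hn (hu.trans h2.symm)

/-- The interpolating functions. -/
def gj (f f' : Cube → ℚ) (j : ℤ) (p : Cube) : ℚ := if p.2.2 < j then f' p else f p

theorem gj_lt {j : ℤ} {p : Cube} (h : p.2.2 < j) : gj f f' j p = f' p := if_pos h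

theorem gj_ge {j : ℤ} {p : Cube} (h : j ≤ p.2.2) : gj f f' j p = f p := if_neg (not_lt.2 h)

theorem gj_mod (hf : Mod C f) (hf' : Mod C f') (j : ℤ) : Mod C (gj f f' j) where
  hz := by
    intro p hp
    by_cases h : p.2.2 < j
    · rw [gj_lt h, gj_lt (by rw [nx_z]; exact h)]
      exact hf'.hz p hp
    · rw [gj_ge (not_lt.1 h), gj_ge (by rw [nx_z]; exact not_lt.1 h)]
      exact hf.hz p hp
  line := by
    intro p q hp hq hl hx
    by_cases h : p.2.2 < j
    · rw [gj_lt h, gj_lt (by rw [← hl]; exact h)]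
      exact hf'.line p q hp hq hl hx
    · rw [gj_ge (not_lt.1 h), gj_ge (by rw [← hl]; exact not_lt.1 h)]
      exact hf.line p q hp hq hl hx
  sep := by
    intro p q hp hq hl he
    by_cases h : p.2.2 < j
    · rw [gj_lt h, gj_lt (by rw [← hl]; exact h)] at he
      exact hf'.sep p q hp hq hl he
    · rw [gj_ge (not_lt.1 h), gj_ge (by rw [← hl]; exact not_lt.1 h)] at he
      exact hf.sep p q hp hq hl he

theorem on_of_upE {p : Cube} (h : upE p ∈ C) : On C p ∧ On C (up p) :=
  ⟨⟨_, h, mem_upE.2 (Or.inl rfl)⟩, ⟨_, h, mem_upE.2 (Or.inr rfl)⟩⟩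

/-- A used value of a level is the value of a vertex. -/
theorem exists_of_deg (hf : Mod C f) {k : ℤ} {v : ℚ} (h : deg (EE C f) k v ≠ 0) :
    ∃ p, On C p ∧ p.2.2 = k ∧ f p = v := by
  unfold deg at h
  by_cases h1 : ((EE C f (k - 1)).filter (fun s => s.2 = v)).card = 0
  · have h2 : ((EE C f k).filter (fun s => s.1 = v)).card ≠ 0 := by omega
    obtain ⟨⟨x, y⟩, hs⟩ := Finset.card_pos.1 (Nat.pos_of_ne_zero h2)
    rw [Finset.mem_filter] at hs
    obtain ⟨p, hp, hC, hx, hy⟩ := (mem_EE hf).1 hs.1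
    exact ⟨p, (on_of_upE hC).1, hp, hx.trans hs.2⟩
  · obtain ⟨⟨x, y⟩, hs⟩ := Finset.card_pos.1 (Nat.pos_of_ne_zero h1)
    rw [Finset.mem_filter] at hs
    obtain ⟨p, hp, hC, hx, hy⟩ := (mem_EE hf).1 hs.1
    exact ⟨up p, (on_of_upE hC).2, by rw [up_z, hp]; ring, hy.trans hs.2⟩

open Classical in
/-- The relabelling of level `j`. -/
noncomputable def phi (C : Finset (Sym2 Cube)) (f f' : Cube → ℚ) (j : ℤ) (v : ℚ) : ℚ :=
  if h : ∃ p, On C p ∧ p.2.2 = j ∧ f p = v then f' h.choose else v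

theorem phi_eq (hf : Mod C f) (hf' : Mod C f') {j : ℤ} {p : Cube} (hp : On C p) (hj : p.2.2 = j) :
    phi C f f' j (f p) = f' p := by
  have h : ∃ q, On C q ∧ q.2.2 = j ∧ f q = f p := ⟨p, hp, hj, rfl⟩
  unfold phi
  rw [dif_pos h]
  obtain ⟨h1, h2, h3⟩ := h.choose_spec
  exact HC.const hf'.hz (hf.sep _ _ h1 hp (h2.trans hj.symm) h3)

theorem EE_step (hf : Mod C f) (hf' : Mod C f') (j : ℤ) :
    EE C (gj f f' (j + 1)) = rel (EE C (gj f f' j)) j (phi C f f' j) := by
  have hg := gj_mod hf hf' j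
  have hg' := gj_mod hf hf' (j + 1)
  funext k
  ext ⟨x, y⟩
  rw [mem_EE hg']
  unfold rel
  split_ifs with h1 h2
  · rw [Finset.mem_image]
    constructor
    · rintro ⟨p, hp, hC, hx, hy⟩
      refine ⟨(gj f f' j p, gj f f' j (up p)), (mem_EE hg).2 ⟨p, hp, hC, rfl, rfl⟩, ?_⟩
      have h3 : (up p).2.2 = j := by rw [up_z, hp, h1]; ring
      rw [gj_lt (by omega)] at hx ⊢
      rw [gj_lt (by omega)] at hy
      rw [gj_ge (by omega)]
      simp only
      rw [phi_eq hf hf' (on_of_upE hC).2 h3, hx, hy]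
    · rintro ⟨⟨a, b⟩, hab, he⟩
      obtain ⟨p, hp, hC, hx, hy⟩ := (mem_EE hg).1 hab
      have h3 : (up p).2.2 = j := by rw [up_z, hp, h1]; ring
      rw [gj_lt (by omega)] at hx
      rw [gj_ge (by omega)] at hy
      simp only [Prod.mk.injEq] at he
      refine ⟨p, hp, hC, ?_, ?_⟩
      · rw [gj_lt (by omega), hx, he.1]
      · rw [gj_lt (by omega), ← he.2, ← hy, phi_eq hf hf' (on_of_upE hC).2 h3]
  · rw [Finset.mem_image]
    constructor
    · rintro ⟨p, hp, hC, hx, hy⟩
      refine ⟨(gj f f' j p, gj f f' j (up p)), (mem_EE hg).2 ⟨p, hp, hC, rfl, rfl⟩, ?_⟩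
      have h3 : (up p).2.2 = j + 1 := by rw [up_z, hp, h2]
      rw [gj_lt (by omega)] at hx
      rw [gj_ge (by omega)] at hy
      rw [gj_ge (by omega), gj_ge (by omega)]
      simp only
      rw [phi_eq hf hf' (on_of_upE hC).1 (by omega), hx, hy]
    · rintro ⟨⟨a, b⟩, hab, he⟩
      obtain ⟨p, hp, hC, hx, hy⟩ := (mem_EE hg).1 hab
      have h3 : (up p).2.2 = j + 1 := by rw [up_z, hp, h2]
      rw [gj_ge (by omega)] at hx hy
      simp only [Prod.mk.injEq] at he
      refine ⟨p, hp, hC, ?_, ?_⟩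
      · rw [gj_lt (by omega), ← he.1, ← hx, phi_eq hf hf' (on_of_upE hC).1 (by omega)]
      · rw [gj_ge (by omega), hy, he.2]
  · rw [mem_EE hg]
    have key : ∀ p : Cube, p.2.2 = k → gj f f' (j + 1) p = gj f f' j p ∧
        gj f f' (j + 1) (up p) = gj f f' j (up p) := by
      intro p hp
      have h3 : (up p).2.2 = k + 1 := by rw [up_z, hp]
      constructor
      · by_cases h : p.2.2 < j
        · rw [gj_lt (by omega), gj_lt h]
        · rw [gj_ge (by omega), gj_ge (by omega)]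
      · by_cases h : (up p).2.2 < j
        · rw [gj_lt (by omega), gj_lt h]
        · rw [gj_ge (by omega), gj_ge (by omega)]
    constructor
    · rintro ⟨p, hp, hC, hx, hy⟩
      exact ⟨p, hp, hC, by rw [← (key p hp).1, hx], by rw [← (key p hp).2, hy]⟩
    · rintro ⟨p, hp, hC, hx, hy⟩
      exact ⟨p, hp, hC, by rw [(key p hp).1, hx], by rw [(key p hp).2, hy]⟩

/-- One segment before the other. -/
theorem sep_of (hf : Mod C f) {k : ℤ} {p q : Cube} (hp : On C p) (hq : On C q)
    (hpk : p.2.2 = k) (hqk : q.2.2 = k)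
    (h : ∀ u w, HC C p u → HC C q w → xc (k + 1) u < xc (k + 1) w) :
    Sep (EE C f) k (f p) (f q) := by
  constructor
  · intro x y hx hy
    obtain ⟨u, hu, huC, h1, rfl⟩ := (mem_EE hf).1 hx
    obtain ⟨w, hw, hwC, h2, rfl⟩ := (mem_EE hf).1 hy
    have h3 := hf.sep p u hp (on_of_upE huC).1 (hpk.trans hu.symm) h1.symm
    have h4 := hf.sep q w hq (on_of_upE hwC).1 (hqk.trans hw.symm) h2.symm
    have h5 := h u w h3 h4
    apply hf.line _ _ (on_of_upE huC).2 (on_of_upE hwC).2
    · rw [up_z, up_z, hu, hw]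
    · rw [up_z, hu, xc_up, xc_up]
      exact h5
  · intro x y hx hy
    obtain ⟨u, hu, huC, rfl, h1⟩ := (mem_EE hf).1 hx
    obtain ⟨w, hw, hwC, rfl, h2⟩ := (mem_EE hf).1 hy
    have h3 := hf.sep p (up u) hp (on_of_upE huC).2 (by rw [hpk, up_z, hu]; ring) h1.symm
    have h4 := hf.sep q (up w) hq (on_of_upE hwC).2 (by rw [hqk, up_z, hw]; ring) h2.symm
    have h5 := h _ _ h3 h4
    rw [xc_up, xc_up] at h5
    apply hf.line _ _ (on_of_upE hwC).1 (on_of_upE huC).1
    · rw [hu, hw]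
    · rw [hw, xc_pred, xc_pred]
      omega

theorem step_iff (hC : Valid C) (hf : Mod C f) (hf' : Mod C f') (j : ℤ) :
    Rul (EE C (gj f f' (j + 1))) ↔ Rul (EE C (gj f f' j)) := by
  have hg := gj_mod hf hf' j
  rw [EE_step hf hf' j]
  apply relabel (closed_EE hC hg)
  intro v w hv hw hvw
  obtain ⟨p, hp, hpj, rfl⟩ := exists_of_deg hg hv
  obtain ⟨q, hq, hqj, rfl⟩ := exists_of_deg hg hw
  have hep : gj f f' j p = f p := gj_ge (by omega)
  have heq : gj f f' j q = f q := gj_ge (by omega)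
  rw [hep, heq] at hvw ⊢
  rw [phi_eq hf hf' hp hpj, phi_eq hf hf' hq hqj]
  have hl : p.2.2 = q.2.2 := by omega
  rcases lt_trichotomy (xc p.2.2 p) (xc p.2.2 q) with h | h | h
  · exact Or.inl (hf'.line p q hp hq hl h)
  · have hn : ¬ HC C p q := fun hc => (ne_of_lt hvw) (HC.const hf.hz hc)
    rcases lt_trichotomy (f' p) (f' q) with h' | h' | h'
    · exact Or.inl h'
    · exact absurd (hf'.sep p q hp hq hl h') hn
    · right
      refine ⟨h', ?_⟩
      rw [← hep, ← heq]
      rcases le_total (xc (p.2.2 + 1) p) (xc (p.2.2 + 1) q) with hy | hy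
      · left
        apply sep_of hg hp hq hpj hqj
        intro u w hu hw
        rw [← hpj]
        exact seg_sep hl h hn hy hu hw
      · right
        apply sep_of hg hq hp hqj hpj
        intro u w hu hw
        rw [← hqj]
        refine seg_sep hl.symm ?_ (fun hc => hn hc.symm) ?_ hu hw
        · rw [← hl]
          exact h.symm
        · rw [← hl]
          exact hy
  · exfalso
    rw [hl] at h
    exact lt_asymm hvw (hf.line q p hq hp hl.symm h)

theorem all_iff (hC : Valid C) (hf : Mod C f) (hf' : Mod C f') (j : ℤ) (n : ℕ) :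
    Rul (EE C (gj f f' (j + n))) ↔ Rul (EE C (gj f f' j)) := by
  induction n with
  | zero => simp
  | succ n ih =>
    rw [← ih, ← step_iff hC hf hf' (j + n)]
    rw [show j + ((n + 1 : ℕ) : ℤ) = j + n + 1 by push_cast; ring]

/-- The levels of a curve are bounded. -/
theorem level_bound (C : Finset (Sym2 Cube)) : ∃ M : ℕ, ∀ p, On C p → |p.2.2| ≤ (M : ℤ) := by
  refine ⟨((C.biUnion (fun ε => ε.toFinset)).sup (fun p => p.2.2.natAbs)), ?_⟩
  rintro p ⟨ε, hε, hp⟩
  have h1 : p ∈ C.biUnion (fun ε => ε.toFinset) :=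
    Finset.mem_biUnion.2 ⟨ε, hε, Sym2.mem_toFinset.2 hp⟩
  have h2 := Finset.le_sup (f := fun p : Cube => p.2.2.natAbs) h1
  have h3 : |p.2.2| = (p.2.2.natAbs : ℤ) := Int.abs_eq_natAbs _
  rw [h3]
  exact_mod_cast h2

theorem EE_congr_mod {g h : Cube → ℚ} (hg : Mod C g) (hh : Mod C h) (he : ∀ p, On C p → g p = h p) :
    EE C g = EE C h := by
  funext k
  ext ⟨x, y⟩
  rw [mem_EE hg, mem_EE hh]
  constructor
  · rintro ⟨p, hp, hC, hx, hy⟩
    exact ⟨p, hp, hC, by rw [← he _ (on_of_upE hC).1, hx], by rw [← he _ (on_of_upE hC).2, hy]⟩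
  · rintro ⟨p, hp, hC, hx, hy⟩
    exact ⟨p, hp, hC, by rw [he _ (on_of_upE hC).1, hx], by rw [he _ (on_of_upE hC).2, hy]⟩

theorem mod_indep (hC : Valid C) (hf : Mod C f) (hf' : Mod C f') :
    Rul (EE C f) ↔ Rul (EE C f') := by
  obtain ⟨M, hM⟩ := level_bound C
  have h1 : EE C (gj f f' (-(M : ℤ))) = EE C f := by
    apply EE_congr_mod (gj_mod hf hf' _) hf
    intro p hp
    exact gj_ge (abs_le.1 (hM p hp)).1
  have h2 : EE C (gj f f' (-(M : ℤ) + ((2 * M + 1 : ℕ) : ℤ))) = EE C f' := by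
    apply EE_congr_mod (gj_mod hf hf' _) hf'
    intro p hp
    apply gj_lt
    have := (abs_le.1 (hM p hp)).2
    push_cast
    omega
  rw [← h1, ← h2]
  exact (all_iff hC hf hf' _ _).symm

theorem R_iff (hC : Valid C) (hf : Mod C f) : R C ↔ Rul (EE C f) :=
  ⟨fun ⟨_, hg, h⟩ => (mod_indep hC hg hf).1 h, fun h => ⟨f, hf, h⟩⟩

end Pool.Agent.Helper24.GEO
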