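import Pool.Agent.Helper24.GEO.Basic

/-!
# GEO-09: cyclic order of keys (project GEO, MP_409f7f_co)

`klt` is a strict linear order on `Bool × ℚ` (lexicographic, `false < true`).
`rch_cyc`: the ends reached from a point of a line in the directions 0 (up), 1 (forward), 2 (down),
3 (backward) are in this cyclic order, because keys are ordered: up ends by `y`, then down ends by
`-y`.
-/

namespace Pool.Agent.Helper24.GEO

open Pool.Agent.Helper17.UF Pool.Agent.Helper53.GP Pool.Agent.Helper24.RUL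

variable {x y z a b n s : Bool × ℚ}

/-- The order of keys is the lexicographic order. -/
theorem klt_iff_lex (x y : Bool × ℚ) : klt x y ↔ toLex x < toLex y := by
  rw [Prod.Lex.lt_iff]
  unfold klt
  simp only [ofLex_toLex]
  rcases x with ⟨b, r⟩
  rcases y with ⟨c, t⟩
  cases b <;> cases c <;> simp

theorem kle_iff_lex (x y : Bool × ℚ) : kle x y ↔ toLex x ≤ toLex y := by
  unfold kle
  rw [klt_iff_lex, le_iff_lt_or_eq]
  simp

theorem klt_irrefl (x : Bool × ℚ) : ¬ klt x x := by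
  rw [klt_iff_lex]
  exact lt_irrefl _

theorem klt_trans (h : klt x y) (h' : klt y z) : klt x z := by
  rw [klt_iff_lex] at *
  exact h.trans h'

theorem klt_total (x y : Bool × ℚ) : klt x y ∨ x = y ∨ klt y x := by
  rw [klt_iff_lex, klt_iff_lex]
  rcases lt_trichotomy (toLex x) (toLex y) with h | h | h
  · exact Or.inl h
  · exact Or.inr (Or.inl (toLex.injective h))
  · exact Or.inr (Or.inr h)

theorem cyc3_rot (h : Cyc3 x y z) : Cyc3 y z x := by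
  unfold Cyc3 at *
  tauto

theorem cyc3_cyc (h : Cyc3 x y z) : Cyc x y z := by
  unfold Cyc3 at h
  unfold Cyc kle
  tauto

theorem cyc_self (h : x ≠ z) : Cyc x x z := by
  unfold Cyc kle
  rcases klt_total x z with h1 | h1 | h1
  · exact Or.inl ⟨Or.inr rfl, h1⟩
  · exact absurd h1 h
  · exact Or.inr (Or.inr ⟨h1, Or.inr rfl⟩)

private theorem lin1 {α : Type*} [LinearOrder α] {x y z : α}
    (h : (y < x ∧ x < z) ∨ (x < z ∧ z < y) ∨ (z < y ∧ y < x)) :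
    ¬ ((x ≤ y ∧ y < z) ∨ (y < z ∧ z < x) ∨ (z < x ∧ x ≤ y)) := by
  grind

private theorem lin2 {α : Type*} [LinearOrder α] {a b n s : α}
    (h1 : (s < a ∧ a < n) ∨ (a < n ∧ n < s) ∨ (n < s ∧ s < a))
    (h2 : (s < b ∧ b < n) ∨ (b < n ∧ n < s) ∨ (n < s ∧ s < b)) :
    ((a ≤ b ∧ b < s) ∨ (b < s ∧ s < a) ∨ (s < a ∧ a ≤ b)) ↔
      ((a ≤ b ∧ b < n) ∨ (b < n ∧ n < a) ∨ (n < a ∧ a ≤ b)) := by
  grind

private theorem lin3 {α : Type*} [LinearOrder α] {a b n s : α}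
    (h1 : (n < a ∧ a < s) ∨ (a < s ∧ s < n) ∨ (s < n ∧ n < a))
    (h2 : (s < b ∧ b < n) ∨ (b < n ∧ n < s) ∨ (n < s ∧ s < b)) :
    ((a < b ∧ b < n) ∨ (b < n ∧ n < a) ∨ (n < a ∧ a < b)) := by
  grind

theorem not_cyc (h : Cyc3 y x z) : ¬ Cyc x y z := by
  unfold Cyc3 at h
  unfold Cyc
  simp only [klt_iff_lex, kle_iff_lex] at *
  exact lin1 h

theorem cyc_swap (h1 : Cyc3 s a n) (h2 : Cyc3 s b n) : Cyc a b s ↔ Cyc a b n := by
  unfold Cyc3 at h1 h2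
  unfold Cyc
  simp only [klt_iff_lex, kle_iff_lex] at *
  exact lin2 h1 h2

theorem cyc_swap' (h1 : Cyc3 n a s) (h2 : Cyc3 n b s) : Cyc a b s ↔ Cyc a b n :=
  (cyc_swap h1 h2).symm

theorem cyc3_four (h1 : Cyc3 n a s) (h2 : Cyc3 s b n) : Cyc3 a b n := by
  unfold Cyc3 at *
  simp only [klt_iff_lex] at *
  exact lin3 h1 h2

theorem cyc3_four' (h1 : Cyc3 n a s) (h2 : Cyc3 s b n) : Cyc3 b a s := cyc3_four h2 h1

theorem cyc3_ne (h : Cyc3 x y z) : x ≠ y ∧ y ≠ z ∧ x ≠ z := by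
  unfold Cyc3 at h
  simp only [klt_iff_lex] at h
  refine ⟨?_, ?_, ?_⟩ <;> rintro rfl <;> rcases h with ⟨h, h'⟩ | ⟨h, h'⟩ | ⟨h, h'⟩ <;>
    first
      | exact lt_irrefl _ h
      | exact lt_irrefl _ h'
      | exact lt_irrefl _ (h.trans h')

private theorem klt_ik (b b' : Bool) (y y' : ℤ) : klt (ik b y) (ik b' y') ↔
    (b = false ∧ b' = true) ∨ (b = false ∧ b' = false ∧ y < y') ∨
      (b = true ∧ b' = true ∧ y' < y) := by
  unfold klt ik
  cases b <;> cases b' <;> simp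

theorem rch_cyc {d1 d2 d3 : Fin 4} {y y1 y2 y3 : ℤ} {b1 b2 b3 : Bool} (h : cyc4 d1 d2 d3)
    (h1 : Rch d1 y b1 y1) (h2 : Rch d2 y b2 y2) (h3 : Rch d3 y b3 y3) :
    Cyc3 (ik b1 y1) (ik b2 y2) (ik b3 y3) := by
  unfold Cyc3
  simp only [klt_ik]
  have key : ∀ d : Fin 4, ∀ (b : Bool) (y' : ℤ), Rch d y b y' → (d = 0 ∧ b = false ∧ y' = y) ∨
      (d = 1 ∧ y < y') ∨ (d = 2 ∧ b = true ∧ y' = y) ∨ (d = 3 ∧ y' < y) := fun d b y' h => h
  rcases key _ _ _ h1 with ⟨rfl, h1, h1'⟩ | ⟨rfl, h1⟩ | ⟨rfl, h1, h1'⟩ | ⟨rfl, h1⟩ <;>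
  rcases key _ _ _ h2 with ⟨rfl, h2, h2'⟩ | ⟨rfl, h2⟩ | ⟨rfl, h2, h2'⟩ | ⟨rfl, h2⟩ <;>
  rcases key _ _ _ h3 with ⟨rfl, h3, h3'⟩ | ⟨rfl, h3⟩ | ⟨rfl, h3, h3'⟩ | ⟨rfl, h3⟩ <;>
  first
    | exact absurd h (by decide)
    | (clear h key
       subst_vars
       (try cases b1) <;> (try cases b2) <;> (try cases b3) <;>
       simp only [Bool.false_eq_true, Bool.true_eq_false, true_and, false_and,
         and_false, and_true, false_or, or_false] <;> omega)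

/-- From integer keys to keys. -/
theorem key_mono {k : ℤ} {f : Cube → ℚ}
    (hf : ∀ p q : Cube, p.2.2 = q.2.2 → p.2.2 ≠ k → xc p.2.2 p < xc p.2.2 q → f p < f q)
    {b b' : Bool} {u u' : Cube} (hu : u.2.2 = k) (hu' : u'.2.2 = k)
    (h : klt (ik b (xc (k + 1) u)) (ik b' (xc (k + 1) u'))) : klt (key f b u) (key f b' u') := by
  rw [klt_ik] at h
  unfold klt key
  rcases h with ⟨rfl, rfl⟩ | ⟨rfl, rfl, h⟩ | ⟨rfl, rfl, h⟩
  · exact Or.inl ⟨rfl, rfl⟩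
  · refine Or.inr ⟨rfl, ?_⟩
    have e : ∀ w : Cube, fr false w = up w := fun w => rfl
    show f (fr false u) < f (fr false u')
    rw [e, e]
    have z1 : (up u).2.2 = k + 1 := by rw [up_z, hu]
    have z2 : (up u').2.2 = k + 1 := by rw [up_z, hu']
    refine hf _ _ (z1.trans z2.symm) (by rw [z1]; omega) ?_
    rw [z1, xc_up, xc_up]
    exact h
  · refine Or.inr ⟨rfl, ?_⟩
    have e : ∀ w : Cube, fr true w = dn w := fun w => rfl
    show f (fr true u) < f (fr true u')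
    rw [e, e]
    have z1 : (dn u).2.2 = k - 1 := by rw [dn_z, hu]
    have z2 : (dn u').2.2 = k - 1 := by rw [dn_z, hu']
    refine hf _ _ (z1.trans z2.symm) (by rw [z1]; omega) ?_
    rw [z1, xc_dn, xc_dn, xc_pred, xc_pred]
    omega

theorem key_cyc3 {k : ℤ} {f : Cube → ℚ}
    (hf : ∀ p q : Cube, p.2.2 = q.2.2 → p.2.2 ≠ k → xc p.2.2 p < xc p.2.2 q → f p < f q)
    {b b' b'' : Bool} {u u' u'' : Cube} (hu : u.2.2 = k) (hu' : u'.2.2 = k) (hu'' : u''.2.2 = k)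
    (h : Cyc3 (ik b (xc (k + 1) u)) (ik b' (xc (k + 1) u')) (ik b'' (xc (k + 1) u''))) :
    Cyc3 (key f b u) (key f b' u') (key f b'' u'') := by
  unfold Cyc3 at *
  rcases h with ⟨h, h'⟩ | ⟨h, h'⟩ | ⟨h, h'⟩
  · exact Or.inl ⟨key_mono hf hu hu' h, key_mono hf hu' hu'' h'⟩
  · exact Or.inr (Or.inl ⟨key_mono hf hu' hu'' h, key_mono hf hu'' hu h'⟩)
  · exact Or.inr (Or.inr ⟨key_mono hf hu'' hu h, key_mono hf hu hu' h'⟩)

end Pool.Agent.Helper24.GEO
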