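import Pool.Agent.Helper24.GEO.Final
import Pool.Agent.Helper14.SURF.Assemble

/-!
# Tie-free polycubes have edge unfoldings (MP_409f7f_co)
-/

namespace Pool.Agent.Helper24.GEO

open Pool.Agent.Helper17.UF Pool.Agent.Helper84.LD Pool.Agent.Helper16.LD
  Pool.Agent.Helper53.GP Pool.Agent.Helper14.SURF Relation

theorem CanCol_conn {P : Finset Cube} {c : Cube → Bool} (hE : EdgeOK P) (hsurf : SurfConn P)
    (heuler : (vertF P).card + (faceF P).card = (edgeF P).card + 2) (H : CanCol P c) :
    ∀ A B, IsFace P A → IsFace P B →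
      EqvGen (fun C D => Up P true eCan (UU P true eCan) C D ∨
        Cr P true eCan (XX P true eCan c) C D) A B := by
  by_contra hnc
  obtain ⟨n, ⟨K⟩⟩ := exists_chain hE hsurf heuler H hnc
  exact no_chain K

theorem CanCol_unfolding {P : Finset Cube} {c : Cube → Bool} (hE : EdgeOK P) (hsurf : SurfConn P)
    (heuler : (vertF P).card + (faceF P).card = (edgeF P).card + 2) (H : CanCol P c) :
    HasEdgeUnfolding P :=
  (H.isField.isLadder_of_conn (CanCol_conn hE hsurf heuler H)).unfolding hE

end Pool.Agent.Helper24.GEO
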