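import Pool.Agent.Helper24.GEO.Indep
import Pool.Agent.Helper24.RUL.Finger

/-!
# GEO-10: collapsed models with one or two segments in the class (project GEO, MP_409f7f_co)

`red0`: then `f` is a model. `red1`: put `f' p = v + 1` if `p.2.2 = k`, `f p = v`, `xc k p = c + 1`, else
`f' p = f p`. This is a model of `D` (on the line `c` all values are `≤ v`, on the line `c + 1` they are
`≥ v + 1`), `EE D f = mrg (EE D f') k v (v + 1)` (`EE_mrg`, `EE_congr`, no point of the curve at level `k`
has `f = v + 1` by `gap`), apply `finger` with `v1 = v`, `v2 = v + 1` (`closed_EE`, `endAt_EE`,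
`deg_EE_zero`); `f'` and `f` agree at the levels `k + 1` and `k - 1`, so the keys are the same. The
keys are different from the common key because of `key_inj`.
-/

namespace Pool.Agent.Helper24.GEO

open Pool.Agent.Helper17.UF Pool.Agent.Helper53.GP Pool.Agent.Helper24.RUL

variable {k c : ℤ} {D : Finset (Sym2 Cube)} {f : Cube → ℚ} {v : ℚ}

theorem red0 (hD : Valid D) (h : CollD k c D f v)
    (hone : ∀ p q, On D p → On D q → p.2.2 = k → q.2.2 = k → f p = v → f q = v → HC D p q) :
    R D ↔ Rul (EE D f) := by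
  refine R_iff hD ⟨h.hz, ?_, ?_⟩
  · intro p q hp hq hl hx
    rcases h.line p q hp hq hl hx with h1 | ⟨h1, h2, h3⟩
    · exact h1
    · exfalso
      have hpq := hone p q hp hq h1 (hl ▸ h1) h2 h3
      have := hpq.line
      omega
  · intro p q hp hq hl hx
    rcases h.sep p q hp hq hl hx with h1 | ⟨h1, h2⟩
    · exact h1
    · exact hone p q hp hq h1 (hl ▸ h1) h2 (hx ▸ h2)

private theorem red_img2_congr {α β : Type*} [DecidableEq α] [DecidableEq β] {g g' : α → β}
    {F : Finset α} (h : ∀ s ∈ F, g s = g' s) : img2 g F = img2 g' F := by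
  ext e
  rw [mem_img2, mem_img2]
  have : F.filter (fun s => g s = e) = F.filter (fun s => g' s = e) := by
    ext s
    simp only [Finset.mem_filter]
    constructor
    · rintro ⟨h1, h2⟩
      exact ⟨h1, (h s h1) ▸ h2⟩
    · rintro ⟨h1, h2⟩
      exact ⟨h1, (h s h1).symm ▸ h2⟩
  rw [this]

private theorem red_on_Vk {C : Finset (Sym2 Cube)} {j : ℤ} {p : Cube} (h : p ∈ Vk C j) :
    On C p ∧ On C (up p) := by
  have h1 := (mem_Vk.1 h).2
  exact ⟨⟨_, h1, mem_upE.2 (Or.inl rfl)⟩, ⟨_, h1, mem_upE.2 (Or.inr rfl)⟩⟩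

/-- Merging of the refined function gives the collapsed one. -/
private theorem red_mrg {C : Finset (Sym2 Cube)} {f f' : Cube → ℚ} {k : ℤ} {v1 v2 : ℚ}
    (h0 : ∀ p, p.2.2 ≠ k → f' p = f p)
    (h1 : ∀ p, On C p → p.2.2 = k → (if f' p = v2 then v1 else f' p) = f p) :
    mrg (EE C f') k v1 v2 = EE C f := by
  funext j
  unfold mrg EE
  by_cases hj : j = k - 1
  · rw [if_pos hj, img2_comp]
    refine red_img2_congr ?_
    intro p hp
    have hz := (mem_Vk.1 hp).1
    have hu := up_z p
    simp only [Function.comp]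
    rw [h0 p (by omega), h1 (up p) (red_on_Vk hp).2 (by omega)]
  · rw [if_neg hj]
    by_cases hk : j = k
    · rw [if_pos hk, img2_comp]
      refine red_img2_congr ?_
      intro p hp
      have hz := (mem_Vk.1 hp).1
      have hu := up_z p
      simp only [Function.comp]
      rw [h0 (up p) (by omega), h1 p (red_on_Vk hp).1 (by omega)]
    · rw [if_neg hk]
      refine red_img2_congr ?_
      intro p hp
      have hz := (mem_Vk.1 hp).1
      have hu := up_z p
      rw [h0 p (by omega), h0 (up p) (by omega)]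

private theorem red_deg {C : Finset (Sym2 Cube)} {f : Cube → ℚ} (hf : Mod C f) {k : ℤ} {w : ℚ}
    (h : ∀ p, On C p → p.2.2 = k → f p ≠ w) : deg (EE C f) k w = 0 := by
  unfold deg
  have e1 : (EE C f (k - 1)).filter (fun s => s.2 = w) = ∅ := by
    rw [Finset.filter_eq_empty_iff]
    rintro ⟨x, y⟩ hs hy
    obtain ⟨p, hp, hpC, -, hp2⟩ := (mem_EE hf).1 hs
    refine h (up p) ⟨_, hpC, mem_upE.2 (Or.inr rfl)⟩ ?_ (hp2.trans hy)
    rw [up_z]
    omega
  have e2 : (EE C f k).filter (fun s => s.1 = w) = ∅ := by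
    rw [Finset.filter_eq_empty_iff]
    rintro ⟨x, y⟩ hs hy
    obtain ⟨p, hp, hpC, hp1, -⟩ := (mem_EE hf).1 hs
    exact h p ⟨_, hpC, mem_upE.2 (Or.inl rfl)⟩ hp (hp1.trans hy)
  rw [e1, e2]
  rfl

theorem red1 (hD : Valid D) (h : CollD k c D f v) {a b u w u' w' : Cube} {β α α' : Bool}
    (ha : On D a) (hak : a.2.2 = k) (hav : f a = v) (hax : xc k a = c)
    (hb : On D b) (hbk : b.2.2 = k) (hbv : f b = v) (hbx : xc k b = c + 1)
    (hcov : ∀ p, On D p → p.2.2 = k → f p = v → HC D p a ∨ HC D p b)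
    (hu : HC D a u) (hβ : VE D β u) (hw : HC D b w) (hβ' : VE D β w)
    (hfar : f (fr β u) = f (fr β w))
    (hu' : HC D a u') (hα : VE D α u') (hne : ¬ (u' = u ∧ α = β))
    (hw' : HC D b w') (hα' : VE D α' w') (hne' : ¬ (w' = w ∧ α' = β)) :
    R D ↔ Cyc (key f α u') (key f α' w') (key f β u) ∧ Rul (EE D f) := by
  classical
  obtain ⟨f', hf'⟩ : ∃ f' : Cube → ℚ, ∀ p, f' p =
      if p.2.2 = k ∧ f p = v ∧ xc k p = c + 1 then v + 1 else f p := ⟨_, fun _ => rfl⟩
  have hf'n : ∀ p, ¬ (p.2.2 = k ∧ f p = v ∧ xc k p = c + 1) → f' p = f p := by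
    intro p hp
    rw [hf', if_neg hp]
  have hf's : ∀ p, p.2.2 = k → f p = v → xc k p = c + 1 → f' p = v + 1 := by
    intro p h1 h2 h3
    rw [hf', if_pos ⟨h1, h2, h3⟩]
  have hf'k : ∀ p, p.2.2 ≠ k → f' p = f p := fun p hp => hf'n p (fun h => hp h.1)
  -- the value of a point on the curve
  have gap' : ∀ p, On D p → p.2.2 = k → f p = v → xc k p = c ∨ xc k p = c + 1 := by
    intro p hp hk hv
    rcases h.gap p hp hk with ⟨_, h1⟩ | ⟨_, h1⟩ | ⟨_, h1⟩
    · rw [hv] at h1
      exact absurd h1 (lt_irrefl _)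
    · rw [hv] at h1
      linarith
    · exact h1
  have hM : Mod D f' := by
    refine ⟨?_, ?_, ?_⟩
    · intro p hp
      have h1 := h.hz p hp
      have h2 := nx_z p
      have h3 := xc_nx p
      by_cases hs : p.2.2 = k ∧ f p = v ∧ xc k p = c + 1
      · have h4 : xc k (nx p) = c + 1 := by
          rw [← hs.1, h3, hs.1]
          exact hs.2.2
        rw [hf's p hs.1 hs.2.1 hs.2.2, hf's (nx p) (h2.trans hs.1) (h1.trans hs.2.1) h4]
      · rw [hf'n p hs, hf'n (nx p), h1]
        rintro ⟨h4, h5, h6⟩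
        refine hs ⟨h2 ▸ h4, h1 ▸ h5, ?_⟩
        have h7 : p.2.2 = k := h2 ▸ h4
        rw [← h6, ← h7, h3]
    · intro p q hp hq hl hx
      by_cases hk : p.2.2 = k
      · have hqk : q.2.2 = k := hl ▸ hk
        rw [hk] at hx
        have hlt := h.line p q hp hq hl (by rw [hk]; exact hx)
        by_cases hs : p.2.2 = k ∧ f p = v ∧ xc k p = c + 1
        · rw [hf's p hs.1 hs.2.1 hs.2.2]
          have hqs : ¬ (q.2.2 = k ∧ f q = v ∧ xc k q = c + 1) := by
            rintro ⟨-, -, h3⟩
            have := hs.2.2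
            omega
          rw [hf'n q hqs]
          have := hs.2.2
          rcases h.gap q hq hqk with ⟨h1, _⟩ | ⟨_, h1⟩ | ⟨_, h1⟩
          · omega
          · exact h1
          · omega
        · rw [hf'n p hs]
          by_cases hqs : q.2.2 = k ∧ f q = v ∧ xc k q = c + 1
          · rw [hf's q hqs.1 hqs.2.1 hqs.2.2]
            rcases hlt with h1 | ⟨_, h1, _⟩
            · rw [hqs.2.1] at h1
              linarith
            · rw [h1]
              linarith
          · rw [hf'n q hqs]
            rcases hlt with h1 | ⟨_, h1, h2⟩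
            · exact h1
            · exfalso
              rcases gap' p hp hk h1 with h3 | h3
              · rcases gap' q hq hqk h2 with h4 | h4
                · omega
                · exact hqs ⟨hqk, h2, h4⟩
              · exact hs ⟨hk, h1, h3⟩
      · rw [hf'k p hk, hf'k q (fun h1 => hk (hl.trans h1))]
        rcases h.line p q hp hq hl hx with h1 | ⟨h1, _⟩
        · exact h1
        · exact absurd h1 hk
    · intro p q hp hq hl hx
      by_cases hk : p.2.2 = k
      · have hqk : q.2.2 = k := hl ▸ hk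
        by_cases hs : p.2.2 = k ∧ f p = v ∧ xc k p = c + 1
        · by_cases hqs : q.2.2 = k ∧ f q = v ∧ xc k q = c + 1
          · have h1 : ∀ r, On D r → r.2.2 = k → f r = v → xc k r = c + 1 → HC D r b := by
              intro r hr1 hr2 hr3 hr4
              rcases hcov r hr1 hr2 hr3 with h1 | h1
              · exfalso
                have h2 := h1.line
                rw [hr2] at h2
                omega
              · exact h1
            exact (h1 p hp hs.1 hs.2.1 hs.2.2).trans (h1 q hq hqs.1 hqs.2.1 hqs.2.2).symm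
          · exfalso
            rw [hf's p hs.1 hs.2.1 hs.2.2, hf'n q hqs] at hx
            rcases h.gap q hq hqk with ⟨_, h1⟩ | ⟨_, h1⟩ | ⟨h1, _⟩ <;> linarith
        · by_cases hqs : q.2.2 = k ∧ f q = v ∧ xc k q = c + 1
          · exfalso
            rw [hf'n p hs, hf's q hqs.1 hqs.2.1 hqs.2.2] at hx
            rcases h.gap p hp hk with ⟨_, h1⟩ | ⟨_, h1⟩ | ⟨h1, _⟩ <;> linarith
          · rw [hf'n p hs, hf'n q hqs] at hx
            rcases h.sep p q hp hq hl hx with h1 | ⟨_, h1⟩
            · exact h1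
            · have h2 : f q = v := hx ▸ h1
              have h3 : ∀ r, On D r → r.2.2 = k → f r = v →
                  ¬ (r.2.2 = k ∧ f r = v ∧ xc k r = c + 1) → HC D r a := by
                intro r hr1 hr2 hr3 hr4
                rcases hcov r hr1 hr2 hr3 with h4 | h4
                · exact h4
                · exfalso
                  refine hr4 ⟨hr2, hr3, ?_⟩
                  have h5 := h4.line
                  rw [hr2] at h5
                  omega
              exact (h3 p hp hk h1 hs).trans (h3 q hq hqk h2 hqs).symm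
      · rw [hf'k p hk, hf'k q (fun h1 => hk (hl.trans h1))] at hx
        rcases h.sep p q hp hq hl hx with h1 | ⟨h1, _⟩
        · exact h1
        · exact absurd h1 hk
  -- the values on the two segments
  have hA : ∀ r, HC D a r → r.2.2 = k ∧ f' r = v := by
    intro r hr
    have h1 : r.2.2 = k := hr.level ▸ hak
    have h2 := hr.line
    rw [hak] at h2
    refine ⟨h1, ?_⟩
    rw [hf'n r, ← hr.const h.hz, hav]
    rintro ⟨-, -, h3⟩
    omega
  have hB : ∀ r, HC D b r → r.2.2 = k ∧ f' r = v + 1 := by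
    intro r hr
    have h1 : r.2.2 = k := hr.level ▸ hbk
    have h2 := hr.line
    rw [hbk] at h2
    exact ⟨h1, hf's r h1 ((hr.const h.hz).symm.trans hbv) (by omega)⟩
  have hkey : ∀ (e : Bool) (r : Cube), r.2.2 = k → key f' e r = key f e r := by
    intro e r hr
    unfold key
    rw [hf'k]
    rw [fr_z, hr]
    cases e <;> simp
  have hkk : key f β u = key f β w := by
    unfold key
    rw [hfar]
  have hfin := finger (closed_EE hD hM) (k := k) (v1 := v) (v2 := v + 1) (by linarith)
    (fun x hx1 hx2 => red_deg hM (fun p hp hk => by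
      by_cases hs : p.2.2 = k ∧ f p = v ∧ xc k p = c + 1
      · rw [hf's p hs.1 hs.2.1 hs.2.2]
        intro h1
        linarith
      · rw [hf'n p hs]
        intro h1
        rcases h.gap p hp hk with ⟨_, h2⟩ | ⟨_, h2⟩ | ⟨h2, _⟩ <;> linarith))
    (κα := key f α u') (κβ := key f α' w') (κγ := key f β u)
    ((endAt_EE hM).2 ⟨α, u', (hA u' hu').1, (hA u' hu').2, hα, (hkey α u' (hA u' hu').1).symm⟩)
    ((endAt_EE hM).2 ⟨β, u, (hA u hu).1, (hA u hu).2, hβ, (hkey β u (hA u hu).1).symm⟩)
    (fun he => hne (key_inj hM hα hβ ((hA u' hu').1.trans (hA u hu).1.symm)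
      ((hA u' hu').2.trans (hA u hu).2.symm) (by
        rw [hkey α u' (hA u' hu').1, hkey β u (hA u hu).1]
        exact he)))
    ((endAt_EE hM).2 ⟨α', w', (hB w' hw').1, (hB w' hw').2, hα', (hkey α' w' (hB w' hw').1).symm⟩)
    ((endAt_EE hM).2 ⟨β, w, (hB w hw).1, (hB w hw).2, hβ', by
      rw [hkey β w (hB w hw).1]
      exact hkk⟩)
    (fun he => hne' (key_inj hM hα' hβ' ((hB w' hw').1.trans (hB w hw).1.symm)
      ((hB w' hw').2.trans (hB w hw).2.symm) (by
        rw [hkey α' w' (hB w' hw').1, hkey β w (hB w hw).1, ← hkk]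
        exact he)))
  rw [R_iff hD hM, hfin, red_mrg hf'k]
  intro p hp hk
  by_cases hs : p.2.2 = k ∧ f p = v ∧ xc k p = c + 1
  · rw [hf's p hs.1 hs.2.1 hs.2.2, if_pos rfl, hs.2.1]
  · rw [hf'n p hs, if_neg]
    intro h1
    rcases h.gap p hp hk with ⟨_, h2⟩ | ⟨_, h2⟩ | ⟨h2, _⟩ <;> linarith

end Pool.Agent.Helper24.GEO
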