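import Pool.Agent.Helper24.GEO.Outer
import Pool.Agent.Helper24.GEO.Red

/-!
# GEO-14: a finger at the end S (project GEO, MP_409f7f_co)

`no_finger`: all class vertices are on one segment: `red0` with `FC.collD` and `cls_reach`.
`one_S`: `red1` with `a = u = vx 0 1`, `b = w = vx 1 1`, `β = !g0`; the two far vertices have the same
value (`FC.far_S`), coverage by `cls_reach` and `hcov`.
-/

namespace Pool.Agent.Helper24.GEO

open Pool.Agent.Helper17.UF Pool.Agent.Helper53.GP Pool.Agent.Helper24.RUL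

variable {S : Strip} {G D : Finset (Sym2 Cube)} {f : Cube → ℚ} {v : ℚ} {q lo hi : ℕ}

theorem FC.no_finger (h : FC S G f v) (hG : S.bS ⊆ G) (hDG : D ⊆ G)
    (hGD : ∀ ε ∈ G, ε ∉ D → ε ∈ S.bS) (hD : Valid D)
    (hS : On D (S.vx 0 0) → On D (S.vx 1 0) → s(S.vx 0 0, S.vx 1 0) ∈ D)
    (hN : On D (S.vx 0 S.n) → On D (S.vx 1 S.n) → s(S.vx 0 S.n, S.vx 1 S.n) ∈ D)
    (hone : ∃ a, ∀ s i, (s = 0 ∨ s = 1) → 1 ≤ i → i < S.n → On D (S.vx s i) →
      HC D (S.vx s i) a) :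
    R D ↔ Rul (EE D f) := by
  obtain ⟨a, ha⟩ := hone
  have key1 : ∀ p, On D p → p.2.2 = S.k → f p = v → HC D p a := by
    intro p hp hpk hpv
    have hK : Kc S G p := (h.eq_v hpk).1 hpv
    obtain ⟨s, i, hs, h1, h2, hon, hc⟩ := cls_reach hGD hp hK
    exact hc.trans (ha s i hs h1 h2 hon)
  exact red0 hD (h.collD hG hDG hGD hS hN) (fun p q hp hq hpk hqk hpv hqv =>
    (key1 p hp hpk hpv).trans (key1 q hq hqk hqv).symm)

theorem FC.one_S (h : FC S G f v) (hG : S.bS ⊆ G) (hDG : D ⊆ G)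
    (hGD : ∀ ε ∈ G, ε ∉ D → ε ∈ S.bS) (hD : Valid D)
    (hl0 : s(S.vx 0 0, S.vx 0 1) ∈ D) (hl1 : s(S.vx 1 0, S.vx 1 1) ∈ D)
    (he : s(S.vx 0 0, S.vx 1 0) ∈ D)
    (hN : On D (S.vx 0 S.n) → On D (S.vx 1 S.n) → s(S.vx 0 S.n, S.vx 1 S.n) ∈ D)
    (hcov : ∀ s i, (s = 0 ∨ s = 1) → 1 ≤ i → i < S.n → On D (S.vx s i) →
      HC D (S.vx s i) (S.vx s 1))
    {α α' : Bool} {u' w' : Cube}
    (hu' : HC D (S.vx 0 1) u') (hα : VE D α u') (hne : ¬ (u' = S.vx 0 1 ∧ α = !S.g0))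
    (hw' : HC D (S.vx 1 1) w') (hα' : VE D α' w') (hne' : ¬ (w' = S.vx 1 1 ∧ α' = !S.g0)) :
    R D ↔ Cyc (key f α u') (key f α' w') (KS S f) ∧ Rul (EE D f) := by
  have h2 : 1 < S.n := Strip.two_le S
  have hve0 : VE D (!S.g0) (S.vx 0 1) := by
    unfold VE
    rw [← Strip.vx_zero, Sym2.eq_swap]
    exact hl0
  have hve1 : VE D (!S.g0) (S.vx 1 1) := by
    unfold VE
    rw [← Strip.vx_zero, Sym2.eq_swap]
    exact hl1
  have hx0 : xc S.k (S.vx 0 1) = S.c := by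
    have := Strip.xc_vx (S := S) 0 1
    rw [this]
    ring
  have hx1 : xc S.k (S.vx 1 1) = S.c + 1 := Strip.xc_vx (S := S) 1 1
  have hfar : f (fr (!S.g0) (S.vx 0 1)) = f (fr (!S.g0) (S.vx 1 1)) := by
    rw [← Strip.vx_zero, ← Strip.vx_zero]
    exact h.far_S hG
  have hcov' : ∀ p, On D p → p.2.2 = S.k → f p = v →
      HC D p (S.vx 0 1) ∨ HC D p (S.vx 1 1) := by
    intro p hp hpk hpv
    have hK : Kc S G p := (h.eq_v hpk).1 hpv
    obtain ⟨s, i, hs, h1, h2, hon, hc⟩ := cls_reach hGD hp hK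
    have hc2 := hc.trans (hcov s i hs h1 h2 hon)
    rcases hs with rfl | rfl
    · exact Or.inl hc2
    · exact Or.inr hc2
  have main := red1 hD (h.collD hG hDG hGD (fun _ _ => he) hN)
    hve0.on.1 (Strip.vx_z le_rfl h2) (h.f_vx hG (Or.inl rfl) le_rfl h2) hx0
    hve1.on.1 (Strip.vx_z le_rfl h2) (h.f_vx hG (Or.inr rfl) le_rfl h2) hx1
    hcov' (HC.refl D _) hve0 (HC.refl D _) hve1 hfar hu' hα hne hw' hα' hne'
  rw [h.key_S hG (Or.inl rfl)] at main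
  exact main

/-! Connections inside the contour. -/

theorem hc_side {s : ℤ} (hs : s = 0 ∨ s = 1) {i j : ℕ} (h1 : 1 ≤ i) (hij : i ≤ j) (h2 : j < S.n)
    (h : ∀ m, i ≤ m → m < j → s(S.vx s m, S.vx s (m + 1)) ∈ D) :
    HC D (S.vx s i) (S.vx s j) := by
  have _ := hs
  induction j, hij using Nat.le_induction with
  | base => exact HC.refl D _
  | succ m hm ih =>
    have ih' := ih (by omega) (fun l hl hl' => h l hl (by omega))
    have hmem := h m hm (by omega)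
    obtain ⟨p, hp, -, -⟩ := Strip.mid_edge (S := S) (s := s) (i := m) (by omega) h2
    rw [hp] at hmem
    have hst := HC.step hmem
    unfold hzE at hp
    rw [Sym2.eq_iff] at hp
    rcases hp with ⟨h3, h4⟩ | ⟨h3, h4⟩
    · rw [← h4, ← h3] at hst
      exact ih'.trans hst
    · rw [h4]
      rw [h3] at ih'
      exact ih'.trans hst.symm

end Pool.Agent.Helper24.GEO
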