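import Pool.Agent.Helper24.GEO.Coll
import Pool.Agent.Helper24.GEO.Keys

/-!
# GEO-13: the outer ends (project GEO, MP_409f7f_co)

At a vertex `vx s i` (`1 ≤ i < n`) where the curve leaves the contour (exactly one contour edge in
the curve) the third edge leads to an outer end; the rule `Loc` gives the cyclic position of its key
between the keys `KS`, `KN` of the ends of the column.
-/

namespace Pool.Agent.Helper24.GEO

open Pool.Agent.Helper17.UF Pool.Agent.Helper53.GP Pool.Agent.Helper24.RUL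

variable {S : Strip} {G D : Finset (Sym2 Cube)} {f : Cube → ℚ} {v : ℚ} {q r i : ℕ} {s : ℤ}

private theorem side_mem (S : Strip) {s : ℤ} (hs : s = 0 ∨ s = 1) {i : ℕ} (hi : i < S.n) :
    s(S.vx s i, S.vx s (i + 1)) ∈ S.bS := by
  unfold Strip.bS
  rcases hs with rfl | rfl
  · exact Finset.mem_union_left _ (Finset.mem_union_left _
      (Finset.mem_image.2 ⟨i, Finset.mem_range.2 hi, rfl⟩))
  · exact Finset.mem_union_left _ (Finset.mem_union_right _
      (Finset.mem_image.2 ⟨i, Finset.mem_range.2 hi, rfl⟩))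

/-- `outEnd_of` with `B = bS`, `Strip.beyond`, `Strip.bS_between`. -/
theorem exists_out (hD : Valid D) (hs : s = 0 ∨ s = 1) (h1 : 1 ≤ i) (h2 : i < S.n)
    (hon : On D (S.vx s i))
    (hx : ¬ (s(S.vx s i, S.vx s (i - 1)) ∈ D ∧ s(S.vx s i, S.vx s (i + 1)) ∈ D)) :
    ∃ d b w, OutEnd (D \ S.bS) (S.vx s i) d b w ∧ d ≠ S.dS i ∧ d ≠ S.dN i := by
  obtain ⟨d1, d2, hne, hd⟩ := valid_dirs hD hon
  have hsn := Strip.dS_ne_dN h1 h2
  have hSN : ¬ ((S.dS i = d1 ∨ S.dS i = d2) ∧ (S.dN i = d1 ∨ S.dN i = d2)) := by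
    rintro ⟨ha, hb⟩
    apply hx
    rw [Strip.vx_dS h1 h2, Strip.vx_dN h1 h2]
    exact ⟨(hd _).2 ha, (hd _).2 hb⟩
  have hex : ∃ d, (d = d1 ∨ d = d2) ∧ d ≠ S.dS i ∧ d ≠ S.dN i := by
    by_contra hcon
    push Not at hcon
    have e1 := hcon d1 (Or.inl rfl)
    have e2 := hcon d2 (Or.inr rfl)
    apply hSN
    by_cases c1 : d1 = S.dS i
    · refine ⟨Or.inl c1.symm, ?_⟩
      by_cases c2 : d2 = S.dS i
      · exact absurd (c1.trans c2.symm) hne
      · exact Or.inr (e2 c2).symm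
    · have c1' := e1 c1
      refine ⟨?_, Or.inl c1'.symm⟩
      by_cases c2 : d2 = S.dS i
      · exact Or.inr c2.symm
      · exact absurd (c1'.trans (e2 c2).symm) hne
  obtain ⟨d, hdd, hdS, hdN⟩ := hex
  have hnB : s(S.vx s i, stp d (S.vx s i)) ∉ S.bS := by
    rw [Strip.dir_bS hs h1 h2]
    rintro (h | h)
    · exact hdS h
    · exact hdN h
  have hz : (S.vx s i).2.2 = S.k := Strip.vx_z h1 h2
  obtain ⟨b, w, hw⟩ := outEnd_of hD hon ((hd d).2 hdd) S.bS (by
    intro w d' hHC hmem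
    have hwz : w.2.2 = S.k := by rw [← hHC.level, hz]
    have hwx : xc S.k w = S.c + s := by
      have := hHC.line
      rw [hz] at this
      rw [← this, Strip.xc_vx]
    rw [hz]
    refine ⟨fun h3 h4 => ?_, fun h3 h4 => ?_⟩
    · exact Strip.beyond hs h1 h2 hdS hdN hwz hwx (Or.inl ⟨h3, h4⟩) d' hmem
    · exact Strip.beyond hs h1 h2 hdS hdN hwz hwx (Or.inr ⟨h3, h4⟩) d' hmem) hnB
  exact ⟨d, b, w, hw, hdS, hdN⟩

/-- The outer end is an end of the segment, different from the ends of the column. -/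
theorem out_end (hs : s = 0 ∨ s = 1) (h1 : 1 ≤ i) (h2 : i < S.n) {d : Fin 4} {b : Bool} {w : Cube}
    (h : OutEnd (D \ S.bS) (S.vx s i) d b w) :
    HC D (S.vx s i) w ∧ VE D b w ∧ w.2.2 = S.k ∧ ¬ (w = S.vx s 1 ∧ b = !S.g0) ∧
      ¬ (w = S.vx s (S.n - 1) ∧ b = !S.g1) := by
  obtain ⟨_, h4, h5, _⟩ := h
  have h5' : s(w, fr b w) ∈ D ∧ s(w, fr b w) ∉ S.bS := Finset.mem_sdiff.1 h5
  have hn := S.two_le
  refine ⟨h4.mono Finset.sdiff_subset, h5'.1, ?_, ?_, ?_⟩
  · rw [← h4.level, Strip.vx_z h1 h2]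
  · rintro ⟨rfl, rfl⟩
    apply h5'.2
    rw [← Strip.vx_zero, Sym2.eq_swap]
    exact side_mem S hs (i := 0) (by omega)
  · rintro ⟨rfl, rfl⟩
    apply h5'.2
    rw [← Strip.vx_n]
    have := side_mem S hs (i := S.n - 1) (by omega)
    rwa [show S.n - 1 + 1 = S.n from by omega] at this

theorem FC.out_cyc (h : FC S G f v) (hG : S.bS ⊆ G) (hloc : Loc S q r D)
    (hs : s = 0 ∨ s = 1) (h1 : 1 ≤ i) (h2 : i < S.n) {d : Fin 4} {b : Bool} {w : Cube}
    (ho : OutEnd (D \ S.bS) (S.vx s i) d b w) :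
    ((s = 1 ∧ r < i) ∨ (s = 0 ∧ i ≤ q) → Cyc3 (KS S f) (key f b w) (KN S f)) ∧
    ((s = 1 ∧ i ≤ r) ∨ (s = 0 ∧ q < i) → Cyc3 (KN S f) (key f b w) (KS S f)) := by
  have hn := S.two_le
  have hoe := out_end hs h1 h2 ho
  obtain ⟨h3, h4, h5, h6⟩ := ho
  have h3' := Finset.mem_sdiff.1 h3
  have hz : (S.vx s i).2.2 = S.k := Strip.vx_z h1 h2
  rw [hz] at h6
  have hmono : ∀ p q : Cube, p.2.2 = q.2.2 → p.2.2 ≠ S.k → xc p.2.2 p < xc p.2.2 q → f p < f q :=
    fun p q e1 e2 e3 => h.mono p q e1 e2 e3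
  have e0 : xc (S.k + 1) (S.vx s 1) = S.y0 := by
    rw [Strip.xc_vx' le_rfl (by omega)]
    simp
  have en : xc (S.k + 1) (S.vx s (S.n - 1)) = S.y1 := by
    rw [Strip.xc_vx' (by omega) (by omega), S.y1_eq]
    push_cast [Nat.cast_sub (show 1 ≤ S.n by omega)]
    ring
  have kz1 : (S.vx s 1).2.2 = S.k := Strip.vx_z le_rfl (by omega)
  have kzn : (S.vx s (S.n - 1)).2.2 = S.k := Strip.vx_z (by omega) (by omega)
  have A : cyc4 (S.dS i) d (S.dN i) → Cyc3 (KS S f) (key f b w) (KN S f) := by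
    intro hc
    have := rch_cyc hc (Strip.rch_S (s := s) h1 h2) h6 (Strip.rch_N (s := s) h1 h2)
    rw [← e0, ← en] at this
    have := key_cyc3 hmono kz1 hoe.2.2.1 kzn this
    rwa [h.key_S hG hs, h.key_N hG hs] at this
  have B : cyc4 (S.dN i) d (S.dS i) → Cyc3 (KN S f) (key f b w) (KS S f) := by
    intro hc
    have := rch_cyc hc (Strip.rch_N (s := s) h1 h2) h6 (Strip.rch_S (s := s) h1 h2)
    rw [← e0, ← en] at this
    have := key_cyc3 hmono kzn hoe.2.2.1 kz1 this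
    rwa [h.key_S hG hs, h.key_N hG hs] at this
  have hl := hloc i d h1 h2
  rcases hs with rfl | rfl
  · have := hl.2 h3'.1 h3'.2
    constructor
    · rintro (⟨h7, _⟩ | ⟨_, h7⟩)
      · exact absurd h7 (by norm_num)
      · rw [if_neg (by omega)] at this
        exact A this
    · rintro (⟨h7, _⟩ | ⟨_, h7⟩)
      · exact absurd h7 (by norm_num)
      · rw [if_pos (by omega)] at this
        exact B this
  · have := hl.1 h3'.1 h3'.2
    constructor
    · rintro (⟨_, h7⟩ | ⟨h7, _⟩)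
      · rw [if_pos (by omega)] at this
        exact A this
      · exact absurd h7 (by norm_num)
    · rintro (⟨_, h7⟩ | ⟨h7, _⟩)
      · rw [if_neg (by omega)] at this
        exact B this
      · exact absurd h7 (by norm_num)

end Pool.Agent.Helper24.GEO
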