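import Pool.Agent.Helper24.GEO.Indep
import Pool.Agent.Helper24.RUL.MrgC

/-!
# GEO-11: collapsed models with three segments in the class (project GEO, MP_409f7f_co)

The segment of `a` (line `x0`) has the two ends `uS`, `uN`; the segments of `b` and `b'` (on the other
line `x1`) are fingers at the ends S and N and have the other ends `oS`, `oN`.
`red2_one` (`x0 = c + 1`): values `b' : v`, `b : v + 1/2`, `a : v + 1`; first merge `v + 1/2` and `v + 1`
(common key `key f βS uS`), then `v` and `v + 1/2` (common key `key f βN uN`).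
`red2_zero` (`x0 = c`): values `a : v`, `b : v + 1/2`, `b' : v + 1`; first merge `v` and `v + 1/2`
(common key `key f βS uS`), then `v` and `v + 1` (common key `key f βN uN`).
The refined function `f'` is `f` outside the class; it is a model; merging back with `EE_mrg` twice.
After the first merge use `mrg_closed`, `mrg_end`, `mrg_end_other`, `mrg_deg_other`, `mrg_deg_v2`
(`RUL/MrgC.lean`).
-/

namespace Pool.Agent.Helper24.GEO

open Pool.Agent.Helper17.UF Pool.Agent.Helper53.GP Pool.Agent.Helper24.RUL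

variable {k c : ℤ} {D : Finset (Sym2 Cube)} {f : Cube → ℚ} {v : ℚ}

structure Seg3 (k : ℤ) (D : Finset (Sym2 Cube)) (f : Cube → ℚ) (v : ℚ) (x0 x1 : ℤ)
    (a b b' uS uN wS wN oS oN : Cube) (βS βN αS αN : Bool) : Prop where
  a_on : On D a
  a_k : a.2.2 = k
  a_v : f a = v
  a_x : xc k a = x0
  b_on : On D b
  b_k : b.2.2 = k
  b_v : f b = v
  b_x : xc k b = x1
  b'_on : On D b'
  b'_k : b'.2.2 = k
  b'_v : f b' = v
  b'_x : xc k b' = x1
  cov : ∀ p, On D p → p.2.2 = k → f p = v → HC D p a ∨ HC D p b ∨ HC D p b'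
  nbb : ¬ HC D b b'
  hc_uS : HC D a uS
  ve_uS : VE D βS uS
  hc_uN : HC D a uN
  ve_uN : VE D βN uN
  une : ¬ (uS = uN ∧ βS = βN)
  hc_wS : HC D b wS
  ve_wS : VE D βS wS
  farS : f (fr βS uS) = f (fr βS wS)
  hc_wN : HC D b' wN
  ve_wN : VE D βN wN
  farN : f (fr βN uN) = f (fr βN wN)
  hc_oS : HC D b oS
  ve_oS : VE D αS oS
  oSne : ¬ (oS = wS ∧ αS = βS)
  hc_oN : HC D b' oN
  ve_oN : VE D αN oN
  oNne : ¬ (oN = wN ∧ αN = βN)

/-! Auxiliary: the refined function. -/

open Classical in
/-- The refined function: `va`, `vb`, `vb'` on the segments of `a`, `b`, `b'`. -/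
noncomputable def r2f (k : ℤ) (D : Finset (Sym2 Cube)) (f : Cube → ℚ) (v : ℚ) (a b : Cube)
    (va vb vb' : ℚ) : Cube → ℚ := fun p =>
  if p.2.2 = k ∧ f p = v then (if HC D p a then va else if HC D p b then vb else vb') else f p

theorem r2f_out {a b : Cube} {va vb vb' : ℚ} {p : Cube} (h : ¬ (p.2.2 = k ∧ f p = v)) :
    r2f k D f v a b va vb vb' p = f p := by
  unfold r2f
  rw [if_neg h]

theorem r2f_a {a b : Cube} {va vb vb' : ℚ} {p : Cube} (h1 : p.2.2 = k) (h2 : f p = v)
    (h : HC D p a) : r2f k D f v a b va vb vb' p = va := by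
  unfold r2f
  rw [if_pos ⟨h1, h2⟩, if_pos h]

theorem r2f_b {a b : Cube} {va vb vb' : ℚ} {p : Cube} (h1 : p.2.2 = k) (h2 : f p = v)
    (ha : ¬ HC D p a) (h : HC D p b) : r2f k D f v a b va vb vb' p = vb := by
  unfold r2f
  rw [if_pos ⟨h1, h2⟩, if_neg ha, if_pos h]

theorem r2f_b' {a b : Cube} {va vb vb' : ℚ} {p : Cube} (h1 : p.2.2 = k) (h2 : f p = v)
    (ha : ¬ HC D p a) (hb : ¬ HC D p b) : r2f k D f v a b va vb vb' p = vb' := by
  unfold r2f
  rw [if_pos ⟨h1, h2⟩, if_neg ha, if_neg hb]

theorem hc_xc {a p : Cube} (hk : p.2.2 = k) (h : HC D p a) : xc k p = xc k a := by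
  have := h.line
  rw [hk] at this
  exact this

theorem r2_cases {x0 x1 : ℤ} {a b b' uS uN wS wN oS oN : Cube} {βS βN αS αN : Bool}
    (H : Seg3 k D f v x0 x1 a b b' uS uN wS wN oS oN βS βN αS αN) (hx : x0 ≠ x1)
    (va vb vb' : ℚ) {p : Cube} (hp : On D p) (hk : p.2.2 = k) (hv : f p = v) :
    (HC D p a ∧ xc k p = x0 ∧ r2f k D f v a b va vb vb' p = va) ∨
    (HC D p b ∧ xc k p = x1 ∧ r2f k D f v a b va vb vb' p = vb) ∨
    (HC D p b' ∧ xc k p = x1 ∧ r2f k D f v a b va vb vb' p = vb') := by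
  rcases H.cov p hp hk hv with h | h | h
  · exact Or.inl ⟨h, (hc_xc hk h).trans H.a_x, r2f_a hk hv h⟩
  · have hx1 : xc k p = x1 := (hc_xc hk h).trans H.b_x
    have ha : ¬ HC D p a := fun ha => hx ((((hc_xc hk ha).trans H.a_x).symm).trans hx1)
    exact Or.inr (Or.inl ⟨h, hx1, r2f_b hk hv ha h⟩)
  · have hx1 : xc k p = x1 := (hc_xc hk h).trans H.b'_x
    have ha : ¬ HC D p a := fun ha => hx ((((hc_xc hk ha).trans H.a_x).symm).trans hx1)
    have hb : ¬ HC D p b := fun hb => H.nbb (hb.symm.trans h)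
    exact Or.inr (Or.inr ⟨h, hx1, r2f_b' hk hv ha hb⟩)

theorem r2_range {x0 x1 : ℤ} {a b b' uS uN wS wN oS oN : Cube} {βS βN αS αN : Bool}
    (H : Seg3 k D f v x0 x1 a b b' uS uN wS wN oS oN βS βN αS αN) (hx : x0 ≠ x1)
    {va vb vb' : ℚ} (ha : v ≤ va ∧ va ≤ v + 1) (hb : v ≤ vb ∧ vb ≤ v + 1)
    (hb' : v ≤ vb' ∧ vb' ≤ v + 1)
    {p : Cube} (hp : On D p) (hk : p.2.2 = k) (hv : f p = v) :
    v ≤ r2f k D f v a b va vb vb' p ∧ r2f k D f v a b va vb vb' p ≤ v + 1 := by
  rcases r2_cases H hx va vb vb' hp hk hv with h | h | h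
  · rw [h.2.2]; exact ha
  · rw [h.2.2]; exact hb
  · rw [h.2.2]; exact hb'

theorem r2_mod (h : CollD k c D f v) {x0 x1 : ℤ} {a b b' uS uN wS wN oS oN : Cube}
    {βS βN αS αN : Bool}
    (H : Seg3 k D f v x0 x1 a b b' uS uN wS wN oS oN βS βN αS αN) {va vb vb' : ℚ}
    (ha : v ≤ va ∧ va ≤ v + 1) (hb : v ≤ vb ∧ vb ≤ v + 1) (hb' : v ≤ vb' ∧ vb' ≤ v + 1)
    (hab : va ≠ vb) (hab' : va ≠ vb') (hbb' : vb ≠ vb')
    (hx : (x0 = c + 1 ∧ x1 = c ∧ vb < va ∧ vb' < va) ∨ (x0 = c ∧ x1 = c + 1 ∧ va < vb ∧ va < vb')) :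
    Mod D (r2f k D f v a b va vb vb') := by
  have hx01 : x0 ≠ x1 := by rcases hx with h | h <;> omega
  have hout : ∀ p, On D p → p.2.2 = k → f p ≠ v → f p < v ∨ v + 1 < f p := by
    intro p hp hk hv
    rcases h.gap p hp hk with h1 | h1 | h1
    · exact Or.inl h1.2
    · exact Or.inr h1.2
    · exact absurd h1.1 hv
  refine ⟨?_, ?_, ?_⟩
  · intro p hp
    have hz := h.hz p hp
    have hp1 : On D p := ⟨_, hp, mem_hzE.2 (Or.inl rfl)⟩
    have hs : HC D p (nx p) := HC.step hp
    have hp2 : On D (nx p) := hs.on hp1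
    by_cases hk : p.2.2 = k ∧ f p = v
    · have hk' : (nx p).2.2 = k := (nx_z p).trans hk.1
      have hv' : f (nx p) = v := hz.trans hk.2
      rcases r2_cases H hx01 va vb vb' hp1 hk.1 hk.2 with h1 | h1 | h1
      · rw [h1.2.2, r2f_a hk' hv' (hs.symm.trans h1.1)]
      · rcases r2_cases H hx01 va vb vb' hp2 hk' hv' with h2 | h2 | h2
        · exfalso
          have e1 := hc_xc hk.1 hs
          have e2 := h1.2.1
          have e3 := h2.2.1
          omega
        · rw [h1.2.2, h2.2.2]
        · exact absurd ((h1.1.symm.trans hs).trans h2.1) H.nbb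
      · rcases r2_cases H hx01 va vb vb' hp2 hk' hv' with h2 | h2 | h2
        · exfalso
          have e1 := hc_xc hk.1 hs
          have e2 := h1.2.1
          have e3 := h2.2.1
          omega
        · exact absurd ((h2.1.symm.trans hs.symm).trans h1.1) H.nbb
        · rw [h1.2.2, h2.2.2]
    · have hk' : ¬ ((nx p).2.2 = k ∧ f (nx p) = v) := by
        rw [nx_z, hz]
        exact hk
      rw [r2f_out hk, r2f_out hk', hz]
  · intro p q hp hq hl hxx
    by_cases hk : p.2.2 = k
    · have hkq : q.2.2 = k := hl.symm.trans hk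
      by_cases hvp : f p = v
      · by_cases hvq : f q = v
        · have hpx := (h.gap p hp hk)
          rw [hk] at hxx
          rcases hx with hx | hx
          · rcases r2_cases H hx01 va vb vb' hp hk hvp with h1 | h1 | h1
            · rcases r2_cases H hx01 va vb vb' hq hkq hvq with h2 | h2 | h2
              · exfalso; have := h1.2.1; have := h2.2.1; omega
              · exfalso; have := h1.2.1; have := h2.2.1; omega
              · exfalso; have := h1.2.1; have := h2.2.1; omega
            · rcases r2_cases H hx01 va vb vb' hq hkq hvq with h2 | h2 | h2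
              · rw [h1.2.2, h2.2.2]; exact hx.2.2.1
              · exfalso; have := h1.2.1; have := h2.2.1; omega
              · exfalso; have := h1.2.1; have := h2.2.1; omega
            · rcases r2_cases H hx01 va vb vb' hq hkq hvq with h2 | h2 | h2
              · rw [h1.2.2, h2.2.2]; exact hx.2.2.2
              · exfalso; have := h1.2.1; have := h2.2.1; omega
              · exfalso; have := h1.2.1; have := h2.2.1; omega
          · rcases r2_cases H hx01 va vb vb' hp hk hvp with h1 | h1 | h1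
            · rcases r2_cases H hx01 va vb vb' hq hkq hvq with h2 | h2 | h2
              · exfalso; have := h1.2.1; have := h2.2.1; omega
              · rw [h1.2.2, h2.2.2]; exact hx.2.2.1
              · rw [h1.2.2, h2.2.2]; exact hx.2.2.2
            · rcases r2_cases H hx01 va vb vb' hq hkq hvq with h2 | h2 | h2
              · exfalso; have := h1.2.1; have := h2.2.1; omega
              · exfalso; have := h1.2.1; have := h2.2.1; omega
              · exfalso; have := h1.2.1; have := h2.2.1; omega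
            · rcases r2_cases H hx01 va vb vb' hq hkq hvq with h2 | h2 | h2
              · exfalso; have := h1.2.1; have := h2.2.1; omega
              · exfalso; have := h1.2.1; have := h2.2.1; omega
              · exfalso; have := h1.2.1; have := h2.2.1; omega
        · rw [r2f_out (p := q) (fun hh => hvq hh.2)]
          have hr := (r2_range H hx01 ha hb hb' hp hk hvp).2
          rcases h.line p q hp hq hl hxx with h1 | h1
          · rcases hout q hq hkq hvq with h2 | h2
            · exfalso; rw [hvp] at h1; exact absurd h1 (not_lt.2 h2.le)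
            · exact lt_of_le_of_lt hr h2
          · exact absurd h1.2.2 hvq
      · rw [r2f_out (p := p) (fun hh => hvp hh.2)]
        by_cases hvq : f q = v
        · have hr := (r2_range H hx01 ha hb hb' hq hkq hvq).1
          rcases h.line p q hp hq hl hxx with h1 | h1
          · rw [hvq] at h1
            exact lt_of_lt_of_le h1 hr
          · exact absurd h1.2.1 hvp
        · rw [r2f_out (p := q) (fun hh => hvq hh.2)]
          rcases h.line p q hp hq hl hxx with h1 | h1
          · exact h1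
          · exact absurd h1.2.1 hvp
    · rw [r2f_out (p := p) (fun hh => hk hh.1), r2f_out (p := q) (fun hh => hk (hl.trans hh.1))]
      rcases h.line p q hp hq hl hxx with h1 | h1
      · exact h1
      · exact absurd h1.1 hk
  · intro p q hp hq hl he
    by_cases hk : p.2.2 = k
    · have hkq : q.2.2 = k := hl.symm.trans hk
      by_cases hvp : f p = v
      · by_cases hvq : f q = v
        · rcases r2_cases H hx01 va vb vb' hp hk hvp with h1 | h1 | h1
          · rcases r2_cases H hx01 va vb vb' hq hkq hvq with h2 | h2 | h2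
            · exact h1.1.trans h2.1.symm
            · rw [h1.2.2, h2.2.2] at he; exact absurd he hab
            · rw [h1.2.2, h2.2.2] at he; exact absurd he hab'
          · rcases r2_cases H hx01 va vb vb' hq hkq hvq with h2 | h2 | h2
            · rw [h1.2.2, h2.2.2] at he; exact absurd he.symm hab
            · exact h1.1.trans h2.1.symm
            · rw [h1.2.2, h2.2.2] at he; exact absurd he hbb'
          · rcases r2_cases H hx01 va vb vb' hq hkq hvq with h2 | h2 | h2
            · rw [h1.2.2, h2.2.2] at he; exact absurd he.symm hab'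
            · rw [h1.2.2, h2.2.2] at he; exact absurd he.symm hbb'
            · exact h1.1.trans h2.1.symm
        · exfalso
          rw [r2f_out (p := q) (fun hh => hvq hh.2)] at he
          have hr := r2_range H hx01 ha hb hb' hp hk hvp
          rw [he] at hr
          rcases hout q hq hkq hvq with h2 | h2
          · exact absurd h2 (not_lt.2 hr.1)
          · exact absurd h2 (not_lt.2 hr.2)
      · rw [r2f_out (p := p) (fun hh => hvp hh.2)] at he
        by_cases hvq : f q = v
        · exfalso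
          have hr := r2_range H hx01 ha hb hb' hq hkq hvq
          rw [← he] at hr
          rcases hout p hp hk hvp with h2 | h2
          · exact absurd h2 (not_lt.2 hr.1)
          · exact absurd h2 (not_lt.2 hr.2)
        · rw [r2f_out (p := q) (fun hh => hvq hh.2)] at he
          rcases h.sep p q hp hq hl he with h1 | h1
          · exact h1
          · exact absurd h1.2 hvp
    · rw [r2f_out (p := p) (fun hh => hk hh.1), r2f_out (p := q) (fun hh => hk (hl.trans hh.1))] at he
      rcases h.sep p q hp hq hl he with h1 | h1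
      · exact h1
      · exact absurd h1.1 hk

theorem r2_key {a b : Cube} {va vb vb' : ℚ} {u : Cube} (hu : u.2.2 = k) (β : Bool) :
    key (r2f k D f v a b va vb vb') β u = key f β u := by
  unfold key
  rw [r2f_out]
  rintro ⟨h1, _⟩
  rw [fr_z, hu] at h1
  cases β <;> simp at h1

/-- The same key at three different values is impossible. -/
theorem three_keys {E : Lk} {k : ℤ} (hE : Closed E) {v1 v2 v3 : ℚ} {κ : Bool × ℚ}
    (h1 : EndAt E k v1 κ) (h2 : EndAt E k v2 κ) (h3 : EndAt E k v3 κ) (h12 : v1 ≠ v2)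
    (h13 : v1 ≠ v3) (h23 : v2 ≠ v3) : False := by
  obtain ⟨t, x⟩ := κ
  cases t with
  | false =>
    have e : ∀ w, EndAt E k w (false, x) → EndAt E (k + 1) x (true, w) := by
      intro w hw
      have hw' : (w, x) ∈ E k := by simpa [EndAt] using hw
      have : k + 1 - 1 = k := by ring
      simp only [EndAt, if_true, this]
      exact hw'
    rcases end_cases hE (e v1 h1) (e v2 h2) (fun hh => h12 (Prod.mk.inj hh).2) (e v3 h3) with hh | hh
    · exact h13 (Prod.mk.inj hh).2.symm
    · exact h23 (Prod.mk.inj hh).2.symm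
  | true =>
    have e : ∀ w, EndAt E k w (true, x) → EndAt E (k - 1) x (false, w) := by
      intro w hw
      have hw' : (x, w) ∈ E (k - 1) := by simpa [EndAt] using hw
      simpa [EndAt] using hw'
    rcases end_cases hE (e v1 h1) (e v2 h2) (fun hh => h12 (Prod.mk.inj hh).2) (e v3 h3) with hh | hh
    · exact h13 (Prod.mk.inj hh).2.symm
    · exact h23 (Prod.mk.inj hh).2.symm

/-- The facts about the link of the refined function. -/
theorem r2_facts (hD : Valid D) (h : CollD k c D f v) {x0 x1 : ℤ}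
    {a b b' uS uN wS wN oS oN : Cube} {βS βN αS αN : Bool}
    (H : Seg3 k D f v x0 x1 a b b' uS uN wS wN oS oN βS βN αS αN) {va vb vb' : ℚ}
    (ha : v ≤ va ∧ va ≤ v + 1) (hb : v ≤ vb ∧ vb ≤ v + 1) (hb' : v ≤ vb' ∧ vb' ≤ v + 1)
    (hab : va ≠ vb) (hab' : va ≠ vb') (hbb' : vb ≠ vb')
    (hx : (x0 = c + 1 ∧ x1 = c ∧ vb < va ∧ vb' < va) ∨
      (x0 = c ∧ x1 = c + 1 ∧ va < vb ∧ va < vb')) :
    Closed (EE D (r2f k D f v a b va vb vb')) ∧
    (R D ↔ Rul (EE D (r2f k D f v a b va vb vb'))) ∧
    (∀ w, v ≤ w → w ≤ v + 1 → w ≠ va → w ≠ vb → w ≠ vb' →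
      deg (EE D (r2f k D f v a b va vb vb')) k w = 0) ∧
    EndAt (EE D (r2f k D f v a b va vb vb')) k va (key f βS uS) ∧
    EndAt (EE D (r2f k D f v a b va vb vb')) k va (key f βN uN) ∧
    EndAt (EE D (r2f k D f v a b va vb vb')) k vb (key f βS uS) ∧
    EndAt (EE D (r2f k D f v a b va vb vb')) k vb (key f αS oS) ∧
    EndAt (EE D (r2f k D f v a b va vb vb')) k vb' (key f βN uN) ∧
    EndAt (EE D (r2f k D f v a b va vb vb')) k vb' (key f αN oN) ∧
    key f βN uN ≠ key f βS uS ∧ key f αS oS ≠ key f βS uS ∧ key f αN oN ≠ key f βN uN ∧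
    key f αS oS ≠ key f βN uN := by
  have hM := r2_mod h H ha hb hb' hab hab' hbb' hx
  have hx01 : x0 ≠ x1 := by rcases hx with h | h <;> omega
  have hcl := closed_EE hD hM
  have hka : ∀ u, HC D a u → u.2.2 = k ∧ r2f k D f v a b va vb vb' u = va ∧ f u = v := by
    intro u hu
    have hk : u.2.2 = k := hu.level.symm.trans H.a_k
    have hv : f u = v := (HC.const h.hz hu).symm.trans H.a_v
    exact ⟨hk, r2f_a hk hv hu.symm, hv⟩
  have hkb : ∀ u, HC D b u → u.2.2 = k ∧ r2f k D f v a b va vb vb' u = vb ∧ f u = v := by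
    intro u hu
    have hk : u.2.2 = k := hu.level.symm.trans H.b_k
    have hv : f u = v := (HC.const h.hz hu).symm.trans H.b_v
    refine ⟨hk, r2f_b hk hv ?_ hu.symm, hv⟩
    intro h1
    have e1 := hc_xc hk h1
    have e2 := hc_xc hk hu.symm
    have e3 := H.a_x
    have e4 := H.b_x
    omega
  have hkb' : ∀ u, HC D b' u → u.2.2 = k ∧ r2f k D f v a b va vb vb' u = vb' ∧ f u = v := by
    intro u hu
    have hk : u.2.2 = k := hu.level.symm.trans H.b'_k
    have hv : f u = v := (HC.const h.hz hu).symm.trans H.b'_v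
    refine ⟨hk, r2f_b' hk hv ?_ ?_, hv⟩
    · intro h1
      have e1 := hc_xc hk h1
      have e2 := hc_xc hk hu.symm
      have e3 := H.a_x
      have e4 := H.b'_x
      omega
    · intro h1
      exact H.nbb (h1.symm.trans hu.symm)
  have hEnd : ∀ {w : ℚ} {β : Bool} {u : Cube}, u.2.2 = k →
      r2f k D f v a b va vb vb' u = w → VE D β u →
      EndAt (EE D (r2f k D f v a b va vb vb')) k w (key f β u) := by
    intro w β u hk hw hV
    rw [endAt_EE hM]
    exact ⟨β, u, hk, hw, hV, (r2_key hk β).symm⟩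
  have hNe : ∀ {w : ℚ} {β β' : Bool} {u u' : Cube}, u.2.2 = k → u'.2.2 = k →
      r2f k D f v a b va vb vb' u = w → r2f k D f v a b va vb vb' u' = w →
      VE D β u → VE D β' u' → ¬ (u = u' ∧ β = β') → key f β u ≠ key f β' u' := by
    intro w β β' u u' hk hk' hw hw' hV hV' hn he
    refine hn (key_inj hM hV hV' (hk.trans hk'.symm) (hw.trans hw'.symm) ?_)
    rw [r2_key hk, r2_key hk', he]
  have kS : key f βS wS = key f βS uS := by unfold key; rw [H.farS]
  have kN : key f βN wN = key f βN uN := by unfold key; rw [H.farN]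
  have e1 := hEnd (hka _ H.hc_uS).1 (hka _ H.hc_uS).2.1 H.ve_uS
  have e2 := hEnd (hka _ H.hc_uN).1 (hka _ H.hc_uN).2.1 H.ve_uN
  have e3 := hEnd (hkb _ H.hc_wS).1 (hkb _ H.hc_wS).2.1 H.ve_wS
  have e4 := hEnd (hkb _ H.hc_oS).1 (hkb _ H.hc_oS).2.1 H.ve_oS
  have e5 := hEnd (hkb' _ H.hc_wN).1 (hkb' _ H.hc_wN).2.1 H.ve_wN
  have e6 := hEnd (hkb' _ H.hc_oN).1 (hkb' _ H.hc_oN).2.1 H.ve_oN
  rw [kS] at e3
  rw [kN] at e5
  have n1 : key f βN uN ≠ key f βS uS := by
    refine hNe (hka _ H.hc_uN).1 (hka _ H.hc_uS).1 (hka _ H.hc_uN).2.1 (hka _ H.hc_uS).2.1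
      H.ve_uN H.ve_uS ?_
    rintro ⟨h1, h2⟩
    exact H.une ⟨h1.symm, h2.symm⟩
  have n2 : key f αS oS ≠ key f βS uS := by
    rw [← kS]
    exact hNe (hkb _ H.hc_oS).1 (hkb _ H.hc_wS).1 (hkb _ H.hc_oS).2.1 (hkb _ H.hc_wS).2.1
      H.ve_oS H.ve_wS H.oSne
  have n3 : key f αN oN ≠ key f βN uN := by
    rw [← kN]
    exact hNe (hkb' _ H.hc_oN).1 (hkb' _ H.hc_wN).1 (hkb' _ H.hc_oN).2.1 (hkb' _ H.hc_wN).2.1
      H.ve_oN H.ve_wN H.oNne
  have n4 : key f αS oS ≠ key f βN uN := by
    intro he
    rw [he] at e4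
    exact three_keys hcl e2 e4 e5 hab hab' hbb'
  refine ⟨hcl, R_iff hD hM, ?_, e1, e2, e3, e4, e5, e6, n1, n2, n3, n4⟩
  intro w hw1 hw2 hwa hwb hwb'
  refine deg_EE_zero ?_
  intro p hp hk he
  by_cases hv : f p = v
  · rcases r2_cases H hx01 va vb vb' hp hk hv with h1 | h1 | h1
    · exact hwa (he.symm.trans h1.2.2)
    · exact hwb (he.symm.trans h1.2.2)
    · exact hwb' (he.symm.trans h1.2.2)
  · rw [r2f_out (fun hh => hv hh.2)] at he
    rcases h.gap p hp hk with h1 | h1 | h1
    · rw [he] at h1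
      exact absurd h1.2 (not_lt.2 hw1)
    · rw [he] at h1
      exact absurd h1.2 (not_lt.2 hw2)
    · exact hv h1.1

theorem red2_one (hD : Valid D) (h : CollD k c D f v)
    {a b b' uS uN wS wN oS oN : Cube} {βS βN αS αN : Bool}
    (H : Seg3 k D f v (c + 1) c a b b' uS uN wS wN oS oN βS βN αS αN) :
    R D ↔ Cyc (key f αS oS) (key f βN uN) (key f βS uS) ∧
      Cyc (key f αN oN) (key f αS oS) (key f βN uN) ∧ Rul (EE D f) := by
  have c1 : c + 1 ≠ c := by omega
  obtain ⟨hcl, hR, hdeg, e1, e2, e3, e4, e5, e6, n1, n2, n3, n4⟩ :=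
    r2_facts hD h H (va := v + 1) (vb := v + 1 / 2) (vb' := v)
      ⟨by linarith, le_refl _⟩ ⟨by linarith, by linarith⟩ ⟨le_refl _, by linarith⟩
      (by intro hh; linarith) (by intro hh; linarith) (by intro hh; linarith)
      (Or.inl ⟨rfl, rfl, by linarith, by linarith⟩)
  have m1 : mrg (mrg (EE D (r2f k D f v a b (v + 1) (v + 1 / 2) v)) k (v + 1 / 2) (v + 1)) k v
      (v + 1 / 2) = EE D f := by
    rw [← EE_mrg, ← EE_mrg]
    refine EE_congr ?_
    intro p hp
    by_cases hk : p.2.2 = k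
    · by_cases hv : f p = v
      · rcases r2_cases H c1 (v + 1) (v + 1 / 2) v hp hk hv with h1 | h1 | h1
        · rw [h1.2.2, if_pos (show p.2.2 = k ∧ v + 1 = v + 1 from ⟨hk, rfl⟩),
            if_pos (show p.2.2 = k ∧ v + 1 / 2 = v + 1 / 2 from ⟨hk, rfl⟩), hv]
        · have hn : ¬ (p.2.2 = k ∧ v + 1 / 2 = v + 1) := fun hh => by
            have := hh.2; linarith
          rw [h1.2.2, if_neg hn, if_pos ⟨hk, rfl⟩, hv]
        · have hn : ¬ (p.2.2 = k ∧ v = v + 1) := fun hh => by
            have := hh.2; linarith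
          have hn' : ¬ (p.2.2 = k ∧ v = v + 1 / 2) := fun hh => by
            have := hh.2; linarith
          rw [h1.2.2, if_neg hn, if_neg hn', hv]
      · rw [r2f_out (fun hh => hv hh.2)]
        have h0 : f p < v ∨ v + 1 < f p := by
          rcases h.gap p hp hk with h1 | h1 | h1
          · exact Or.inl h1.2
          · exact Or.inr h1.2
          · exact absurd h1.1 hv
        have hn : ¬ (p.2.2 = k ∧ f p = v + 1) := fun hh => by
          have := hh.2
          rcases h0 with h0 | h0 <;> linarith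
        have hn' : ¬ (p.2.2 = k ∧ f p = v + 1 / 2) := fun hh => by
          have := hh.2
          rcases h0 with h0 | h0 <;> linarith
        rw [if_neg hn, if_neg hn']
    · rw [r2f_out (fun hh => hk hh.1), if_neg (fun hh => hk hh.1), if_neg (fun hh => hk hh.1)]
  have q1 : v + 1 / 2 < v + 1 := by linarith
  have q2 : v < v + 1 / 2 := by linarith
  have F1 := finger hcl q1 (fun w hw hw' => hdeg w (by linarith) hw'.le hw'.ne hw.ne'
      (by intro hh; linarith)) e4 e3 n2 e2 e1 n1
  have hcl1 := mrg_closed hcl q1.ne e4 e3 n2 e2 e1 n1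
  have hend := mrg_end hcl q1.ne e4 e3 n2 e2 e1 n1 n4
  have o1 : v ≠ v + 1 / 2 := by intro hh; linarith
  have o2 : v ≠ v + 1 := by intro hh; linarith
  have F2 := finger hcl1 q2 (fun w hw hw' => by
      rw [mrg_deg_other (by intro hh; linarith) (by intro hh; linarith)]
      exact hdeg w hw.le (by linarith) (by intro hh; linarith) (by intro hh; linarith) hw.ne')
    ((mrg_end_other o1 o2 _).2 e6) ((mrg_end_other o1 o2 _).2 e5) n3
    ((hend _).2 (Or.inl rfl)) ((hend _).2 (Or.inr rfl)) n4
  rw [m1] at F2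
  rw [hR, F1, F2]

theorem red2_zero (hD : Valid D) (h : CollD k c D f v)
    {a b b' uS uN wS wN oS oN : Cube} {βS βN αS αN : Bool}
    (H : Seg3 k D f v c (c + 1) a b b' uS uN wS wN oS oN βS βN αS αN) :
    R D ↔ Cyc (key f βN uN) (key f αS oS) (key f βS uS) ∧
      Cyc (key f αS oS) (key f αN oN) (key f βN uN) ∧ Rul (EE D f) := by
  have c1 : c ≠ c + 1 := by omega
  obtain ⟨hcl, hR, hdeg, e1, e2, e3, e4, e5, e6, n1, n2, n3, n4⟩ :=
    r2_facts hD h H (va := v) (vb := v + 1 / 2) (vb' := v + 1)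
      ⟨le_refl _, by linarith⟩ ⟨by linarith, by linarith⟩ ⟨by linarith, le_refl _⟩
      (by intro hh; linarith) (by intro hh; linarith) (by intro hh; linarith)
      (Or.inr ⟨rfl, rfl, by linarith, by linarith⟩)
  have m1 : mrg (mrg (EE D (r2f k D f v a b v (v + 1 / 2) (v + 1))) k v (v + 1 / 2)) k v
      (v + 1) = EE D f := by
    rw [← EE_mrg, ← EE_mrg]
    refine EE_congr ?_
    intro p hp
    by_cases hk : p.2.2 = k
    · by_cases hv : f p = v
      · have hn' : ¬ (p.2.2 = k ∧ v = v + 1) := fun hh => by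
          have := hh.2; linarith
        rcases r2_cases H c1 v (v + 1 / 2) (v + 1) hp hk hv with h1 | h1 | h1
        · have hn : ¬ (p.2.2 = k ∧ v = v + 1 / 2) := fun hh => by
            have := hh.2; linarith
          rw [h1.2.2, if_neg hn, if_neg hn', hv]
        · rw [h1.2.2, if_pos (show p.2.2 = k ∧ v + 1 / 2 = v + 1 / 2 from ⟨hk, rfl⟩),
            if_neg hn', hv]
        · have hn : ¬ (p.2.2 = k ∧ v + 1 = v + 1 / 2) := fun hh => by
            have := hh.2; linarith
          rw [h1.2.2, if_neg hn, if_pos ⟨hk, rfl⟩, hv]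
      · rw [r2f_out (fun hh => hv hh.2)]
        have h0 : f p < v ∨ v + 1 < f p := by
          rcases h.gap p hp hk with h1 | h1 | h1
          · exact Or.inl h1.2
          · exact Or.inr h1.2
          · exact absurd h1.1 hv
        have hn : ¬ (p.2.2 = k ∧ f p = v + 1 / 2) := fun hh => by
          have := hh.2
          rcases h0 with h0 | h0 <;> linarith
        have hn' : ¬ (p.2.2 = k ∧ f p = v + 1) := fun hh => by
          have := hh.2
          rcases h0 with h0 | h0 <;> linarith
        rw [if_neg hn, if_neg hn']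
    · rw [r2f_out (fun hh => hk hh.1), if_neg (fun hh => hk hh.1), if_neg (fun hh => hk hh.1)]
  have q1 : v < v + 1 / 2 := by linarith
  have q2 : v < v + 1 := by linarith
  have F1 := finger hcl q1 (fun w hw hw' => hdeg w hw.le (by linarith) hw.ne' hw'.ne
      (by intro hh; linarith)) e2 e1 n1 e4 e3 n2
  have hcl1 := mrg_closed hcl q1.ne e2 e1 n1 e4 e3 n2
  have hend := mrg_end hcl q1.ne e2 e1 n1 e4 e3 n2 n4.symm
  have o1 : v + 1 ≠ v := by intro hh; linarith
  have o2 : v + 1 ≠ v + 1 / 2 := by intro hh; linarith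
  have F2 := finger hcl1 q2 (fun w hw hw' => by
      by_cases hw2 : w = v + 1 / 2
      · rw [hw2, mrg_deg_v2 q1.ne]
      · rw [mrg_deg_other hw.ne' hw2]
        exact hdeg w hw.le hw'.le hw.ne' hw2 hw'.ne)
    ((hend _).2 (Or.inr rfl)) ((hend _).2 (Or.inl rfl)) n4
    ((mrg_end_other o1 o2 _).2 e6) ((mrg_end_other o1 o2 _).2 e5) n3
  rw [m1] at F2
  rw [hR, F1, F2]

end Pool.Agent.Helper24.GEO
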