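import Pool.Agent.Helper24.GEO.Outer
import Pool.Agent.Helper24.GEO.OneS
import Pool.Agent.Helper24.GEO.Red2

/-!
# GEO-17: fingers at both ends (project GEO, MP_409f7f_co)

`I_both`: `red2_one` with `a = vx 1 1`, `b = vx 0 1`, `b' = vx 0 (n - 1)`.
`II_both`: `red2_zero` with `a = vx 0 1` (connected with `vx 0 (n - 1)` through the wrap edge),
`b = vx 1 1`, `b' = vx 1 (n - 1)`.
`b` and `b'` are not on one segment: if they were, the two ends of this segment would be the two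
legs, but `oS` is a third end (or use the missing contour edge and `seg_ends`).
-/

namespace Pool.Agent.Helper24.GEO

open Pool.Agent.Helper17.UF Pool.Agent.Helper53.GP Pool.Agent.Helper24.RUL

variable {S : Strip} {G D : Finset (Sym2 Cube)} {f : Cube → ℚ} {v : ℚ} {q lo hi : ℕ}

/-- The segment data, uniformly in the two sides: side `s0` is complete, side `s1` consists of two
fingers `vx s1 0 .. vx s1 iS` and `vx s1 iN .. vx s1 n`. -/
theorem FC.seg3_of (h : FC S G f v) (hG : S.bS ⊆ G)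
    (hGD : ∀ ε ∈ G, ε ∉ D → ε ∈ S.bS) (hD : Valid D) {s0 s1 : ℤ}
    (h0 : s0 = 0 ∨ s0 = 1) (h1 : s1 = 0 ∨ s1 = 1) (hall : ∀ s : ℤ, s = 0 ∨ s = 1 → s = s0 ∨ s = s1)
    {iS iN : ℕ} (hi1 : 1 ≤ iS) (hi2 : iS < iN) (hi3 : iN < S.n)
    (e0 : ∀ i, i < S.n → s(S.vx s0 i, S.vx s0 (i + 1)) ∈ D)
    (eS : ∀ i, i < iS → s(S.vx s1 i, S.vx s1 (i + 1)) ∈ D)
    (eN : ∀ i, iN ≤ i → i < S.n → s(S.vx s1 i, S.vx s1 (i + 1)) ∈ D)
    (hon : ∀ i, 1 ≤ i → i < S.n → On D (S.vx s1 i) → i ≤ iS ∨ iN ≤ i)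
    {d : Fin 4} {b : Bool} {w : Cube} (ho : OutEnd (D \ S.bS) (S.vx s1 iS) d b w)
    {d' : Fin 4} {b' : Bool} {w' : Cube} (ho' : OutEnd (D \ S.bS) (S.vx s1 iN) d' b' w') :
    Seg3 S.k D f v (S.c + s0) (S.c + s1) (S.vx s0 1) (S.vx s1 1) (S.vx s1 (S.n - 1))
      (S.vx s0 1) (S.vx s0 (S.n - 1)) (S.vx s1 1) (S.vx s1 (S.n - 1)) w w'
      (!S.g0) (!S.g1) b b' := by
  obtain ⟨oh, ov, _, o1, o2⟩ := out_end h1 hi1 (by omega) ho
  obtain ⟨oh', ov', _, o1', o2'⟩ := out_end h1 (by omega) hi3 ho'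
  have hveS : ∀ s : ℤ, s(S.vx s 0, S.vx s (0 + 1)) ∈ D → VE D (!S.g0) (S.vx s 1) := by
    intro s hs
    unfold VE
    rw [← Strip.vx_zero, Sym2.eq_swap]
    exact hs
  have hveN : ∀ s : ℤ, s(S.vx s (S.n - 1), S.vx s (S.n - 1 + 1)) ∈ D →
      VE D (!S.g1) (S.vx s (S.n - 1)) := by
    intro s hs
    unfold VE
    rw [← Strip.vx_n]
    have h' : S.n - 1 + 1 = S.n := by omega
    rwa [h'] at hs
  have v0S : VE D (!S.g0) (S.vx s0 1) := hveS s0 (e0 0 (by omega))
  have v1S : VE D (!S.g0) (S.vx s1 1) := hveS s1 (eS 0 (by omega))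
  have v0N : VE D (!S.g1) (S.vx s0 (S.n - 1)) := hveN s0 (e0 (S.n - 1) (by omega))
  have v1N : VE D (!S.g1) (S.vx s1 (S.n - 1)) := hveN s1 (eN (S.n - 1) (by omega) (by omega))
  have hcS : HC D (S.vx s1 1) (S.vx s1 iS) :=
    hc_side h1 le_rfl hi1 (by omega) (fun m _ hm => eS m hm)
  have hcN : HC D (S.vx s1 iN) (S.vx s1 (S.n - 1)) :=
    hc_side h1 (by omega) (by omega) (by omega) (fun m hm hm' => eN m hm (by omega))
  have hfar0 : f (S.vx s0 0) = f (S.vx s1 0) := by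
    have hf := h.far_S hG
    rcases h0 with rfl | rfl <;> rcases h1 with rfl | rfl
    · rfl
    · exact hf
    · exact hf.symm
    · rfl
  have hfarn : f (S.vx s0 S.n) = f (S.vx s1 S.n) := by
    have hf := h.far_N hG
    rcases h0 with rfl | rfl <;> rcases h1 with rfl | rfl
    · rfl
    · exact hf
    · exact hf.symm
    · rfl
  have hne : ∀ s : ℤ, S.vx s 1 ≠ S.vx s (S.n - 1) := by
    intro s hs
    have := (Strip.vx_inj (by omega) (by omega) hs).2
    omega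
  refine
    { a_on := v0S.on.1
      a_k := Strip.vx_z le_rfl (by omega)
      a_v := h.f_vx hG h0 le_rfl (by omega)
      a_x := Strip.xc_vx _ _
      b_on := v1S.on.1
      b_k := Strip.vx_z le_rfl (by omega)
      b_v := h.f_vx hG h1 le_rfl (by omega)
      b_x := Strip.xc_vx _ _
      b'_on := v1N.on.1
      b'_k := Strip.vx_z (by omega) (by omega)
      b'_v := h.f_vx hG h1 (by omega) (by omega)
      b'_x := Strip.xc_vx _ _
      cov := ?_
      nbb := ?_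
      hc_uS := HC.refl _ _
      ve_uS := v0S
      hc_uN := hc_side h0 le_rfl (by omega) (by omega) (fun m _ hm => e0 m (by omega))
      ve_uN := v0N
      une := fun hh => hne s0 hh.1
      hc_wS := HC.refl _ _
      ve_wS := v1S
      farS := by rw [← Strip.vx_zero, ← Strip.vx_zero]; exact hfar0
      hc_wN := HC.refl _ _
      ve_wN := v1N
      farN := by rw [← Strip.vx_n, ← Strip.vx_n]; exact hfarn
      hc_oS := hcS.trans oh
      ve_oS := ov
      oSne := o1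
      hc_oN := hcN.symm.trans oh'
      ve_oN := ov'
      oNne := o2' }
  · intro p hp hpk hpv
    obtain ⟨s, i, hs, hi, hi', hon', hh⟩ := cls_reach hGD hp ((h.eq_v hpk).1 hpv)
    rcases hall s hs with rfl | rfl
    · left
      exact hh.trans (hc_side h0 le_rfl hi hi' (fun m _ hm => e0 m (by omega))).symm
    · rcases hon i hi hi' hon' with hlt | hge
      · right; left
        exact hh.trans (hc_side h1 le_rfl hi hi' (fun m _ hm => eS m (by omega))).symm
      · right; right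
        exact hh.trans (hc_side h1 hi (by omega) (by omega) (fun m hm hm' => eN m (by omega) (by omega)))
  · intro hbb
    obtain ⟨b1, b2, u1, u2, _, _, _, _, _, hall2⟩ := two_ends hD v1S.on.1
    have t1 := hall2 _ _ (HC.refl _ _) v1S
    have t2 := hall2 _ _ hbb v1N
    have t3 := hall2 _ _ (hcS.trans oh) ov
    have hne1 := hne s1
    rcases t1 with ⟨p1, p2⟩ | ⟨p1, p2⟩ <;> rcases t2 with ⟨q1, q2⟩ | ⟨q1, q2⟩ <;>
      rcases t3 with ⟨r1, r2⟩ | ⟨r1, r2⟩
    · exact hne1 (p1.trans q1.symm)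
    · exact hne1 (p1.trans q1.symm)
    · exact o1 ⟨r1.trans p1.symm, r2.trans p2.symm⟩
    · exact o2 ⟨r1.trans q1.symm, r2.trans q2.symm⟩
    · exact o2 ⟨r1.trans q1.symm, r2.trans q2.symm⟩
    · exact o1 ⟨r1.trans p1.symm, r2.trans p2.symm⟩
    · exact hne1 (p1.trans q1.symm)
    · exact hne1 (p1.trans q1.symm)

theorem FC.I_both (h : FC S G f v) (hG : S.bS ⊆ G) (hDG : D ⊆ G)
    (hGD : ∀ ε ∈ G, ε ∉ D → ε ∈ S.bS) (hD : Valid D) (hk : KI S q D lo hi)
    (h1 : lo < q) (h2 : q + S.n + 3 ≤ hi)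
    {d : Fin 4} {b : Bool} {w : Cube} (ho : OutEnd (D \ S.bS) (S.vx 0 (q - lo)) d b w)
    {d' : Fin 4} {b' : Bool} {w' : Cube}
    (ho' : OutEnd (D \ S.bS) (S.vx 0 (q + 2 * S.n + 2 - hi)) d' b' w') :
    R D ↔ Cyc (key f b w) (KN S f) (KS S f) ∧ Cyc (key f b' w') (key f b w) (KN S f) ∧
      Rul (EE D f) := by
  have hq := hk.qn
  have hhi := hk.hi_le
  have hside1 : ∀ i, i < S.n → s(S.vx 1 i, S.vx 1 (i + 1)) ∈ D := by
    intro i hi'
    rw [Strip.side1 (q := q) hi']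
    exact (hk.edge _ (by omega)).2 (by omega)
  have hsideS : ∀ i, i < q - lo → s(S.vx 0 i, S.vx 0 (i + 1)) ∈ D := by
    intro i hi'
    rw [Strip.side0_lo (q := q) (by omega)]
    exact (hk.edge _ (by omega)).2 (by omega)
  have hsideN : ∀ i, q + 2 * S.n + 2 - hi ≤ i → i < S.n → s(S.vx 0 i, S.vx 0 (i + 1)) ∈ D := by
    intro i hi' hi''
    rw [Strip.side0_hi hq (by omega) hi'']
    exact (hk.edge _ (by omega)).2 (by omega)
  have hendS : s(S.vx 0 0, S.vx 1 0) ∈ D := by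
    rw [Strip.endS_Z (q := q)]
    exact (hk.edge _ (by omega)).2 (by omega)
  have hendN : s(S.vx 0 S.n, S.vx 1 S.n) ∈ D := by
    rw [Strip.endN_Z hq]
    exact (hk.edge _ (by omega)).2 (by omega)
  have hon : ∀ i, 1 ≤ i → i < S.n → On D (S.vx 0 i) →
      i ≤ q - lo ∨ q + 2 * S.n + 2 - hi ≤ i := by
    intro i hi1 hi2 hO
    by_cases hiq : i ≤ q
    · rw [Strip.vx0_lo hiq] at hO
      have := (hk.on _ (by omega)).1 hO
      omega
    · rw [Strip.vx0_hi hq (by omega) hi2.le] at hO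
      have := (hk.on _ (by omega)).1 hO
      omega
  have H := h.seg3_of hG hGD hD (s0 := 1) (s1 := 0) (Or.inr rfl) (Or.inl rfl)
    (fun s hs => hs.symm) (iS := q - lo) (iN := q + 2 * S.n + 2 - hi) (by omega) (by omega)
    (by omega) hside1 hsideS hsideN hon ho ho'
  rw [add_zero] at H
  have key := red2_one hD (h.collD hG hDG hGD (fun _ _ => hendS) (fun _ _ => hendN)) H
  rw [h.key_N hG (Or.inr rfl), h.key_S hG (Or.inr rfl)] at key
  exact key

theorem FC.II_both (h : FC S G f v) (hG : S.bS ⊆ G) (hDG : D ⊆ G)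
    (hGD : ∀ ε ∈ G, ε ∉ D → ε ∈ S.bS) (hD : Valid D) (hk : KII S q D lo hi)
    (h1 : q + 2 ≤ lo) (h2 : hi ≤ q + S.n)
    {d : Fin 4} {b : Bool} {w : Cube} (ho : OutEnd (D \ S.bS) (S.vx 1 (lo - q - 1)) d b w)
    {d' : Fin 4} {b' : Bool} {w' : Cube}
    (ho' : OutEnd (D \ S.bS) (S.vx 1 (hi - q - 1)) d' b' w') :
    R D ↔ Cyc (KN S f) (key f b w) (KS S f) ∧ Cyc (key f b w) (key f b' w') (KN S f) ∧
      Rul (EE D f) := by
  have hq := hk.qn
  have hlt := hk.lt
  have hside0 : ∀ i, i < S.n → s(S.vx 0 i, S.vx 0 (i + 1)) ∈ D := by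
    intro i hi'
    rcases lt_trichotomy i q with hiq | rfl | hiq
    · rw [Strip.side0_lo (q := q) hiq]
      exact (hk.edge _ (by omega)).2 (by omega)
    · rw [Strip.side0_q hq]
      exact hk.wrap
    · rw [Strip.side0_hi hq hiq hi']
      exact (hk.edge _ (by omega)).2 (by omega)
  have hsideS : ∀ i, i < lo - q - 1 → s(S.vx 1 i, S.vx 1 (i + 1)) ∈ D := by
    intro i hi'
    rw [Strip.side1 (q := q) (by omega)]
    exact (hk.edge _ (by omega)).2 (by omega)
  have hsideN : ∀ i, hi - q - 1 ≤ i → i < S.n → s(S.vx 1 i, S.vx 1 (i + 1)) ∈ D := by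
    intro i hi' hi''
    rw [Strip.side1 (q := q) hi'']
    exact (hk.edge _ (by omega)).2 (by omega)
  have hendS : s(S.vx 0 0, S.vx 1 0) ∈ D := by
    rw [Strip.endS_Z (q := q)]
    exact (hk.edge _ (by omega)).2 (by omega)
  have hendN : s(S.vx 0 S.n, S.vx 1 S.n) ∈ D := by
    rw [Strip.endN_Z hq]
    exact (hk.edge _ (by omega)).2 (by omega)
  have hon : ∀ i, 1 ≤ i → i < S.n → On D (S.vx 1 i) →
      i ≤ lo - q - 1 ∨ hi - q - 1 ≤ i := by
    intro i hi1 hi2 hO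
    rw [← Strip.Z_mid (q := q) hi2.le] at hO
    have := (hk.on _ (by omega)).1 hO
    omega
  have H := h.seg3_of hG hGD hD (s0 := 0) (s1 := 1) (Or.inl rfl) (Or.inr rfl)
    (fun s hs => hs) (iS := lo - q - 1) (iN := hi - q - 1) (by omega) (by omega)
    (by omega) hside0 hsideS hsideN hon ho ho'
  rw [add_zero] at H
  have key := red2_zero hD (h.collD hG hDG hGD (fun _ _ => hendS) (fun _ _ => hendN)) H
  rw [h.key_N hG (Or.inl rfl), h.key_S hG (Or.inl rfl)] at key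
  exact key

end Pool.Agent.Helper24.GEO
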