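import Pool.Agent.Helper24.GEO.OneS

/-!
# GEO-15: curves of kind I without a finger or with a finger at S (project GEO, MP_409f7f_co)

`D` contains the arc `Z lo .. Z hi`; positions `q + 2 .. q + n` are the level-`k` vertices of side 1
(`vx 1 1 .. vx 1 (n - 1)`), positions `< q` those of side 0 near S (`vx 0 q .. vx 0 1`), positions
`≥ q + n + 3` those of side 0 near N.
-/

namespace Pool.Agent.Helper24.GEO

open Pool.Agent.Helper17.UF Pool.Agent.Helper53.GP Pool.Agent.Helper24.RUL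

variable {S : Strip} {G D : Finset (Sym2 Cube)} {f : Cube → ℚ} {v : ℚ} {q lo hi : ℕ}

/-! Membership of the contour edges and vertices in a curve of kind I. -/

theorem KI.side1_mem (hk : KI S q D lo hi) {i : ℕ} (hi' : i < S.n) :
    s(S.vx 1 i, S.vx 1 (i + 1)) ∈ D ↔ lo ≤ q + 1 + i ∧ q + 1 + i < hi := by
  have hq := hk.qn
  rw [Strip.side1 (q := q) hi']
  exact hk.edge (q + 1 + i) (by omega)

theorem KI.side0_lo_mem (hk : KI S q D lo hi) {i : ℕ} (hi' : i < q) :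
    s(S.vx 0 i, S.vx 0 (i + 1)) ∈ D ↔ lo ≤ q - i - 1 ∧ q - i - 1 < hi := by
  have hq := hk.qn
  rw [Strip.side0_lo hi']
  exact hk.edge (q - i - 1) (by omega)

theorem KI.endS_mem (hk : KI S q D lo hi) :
    s(S.vx 0 0, S.vx 1 0) ∈ D ↔ lo ≤ q ∧ q < hi := by
  have hq := hk.qn
  rw [Strip.endS_Z (q := q)]
  exact hk.edge q (by omega)

theorem KI.endN_mem (hk : KI S q D lo hi) :
    s(S.vx 0 S.n, S.vx 1 S.n) ∈ D ↔ lo ≤ q + 1 + S.n ∧ q + 1 + S.n < hi := by
  have hq := hk.qn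
  rw [Strip.endN_Z (q := q) hq]
  exact hk.edge (q + 1 + S.n) (by omega)

theorem KI.on_side1 (hk : KI S q D lo hi) {i : ℕ} (hi' : i ≤ S.n) :
    On D (S.vx 1 i) ↔ lo ≤ q + 1 + i ∧ q + 1 + i ≤ hi := by
  have hq := hk.qn
  rw [← Strip.Z_mid (q := q) hi']
  exact hk.on (q + 1 + i) (by omega)

theorem KI.on_side0_lo (hk : KI S q D lo hi) {i : ℕ} (hi' : i ≤ q) :
    On D (S.vx 0 i) ↔ lo ≤ q - i ∧ q - i ≤ hi := by
  have hq := hk.qn
  rw [Strip.vx0_lo hi']
  exact hk.on (q - i) (by omega)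

theorem KI.on_side0_hi (hk : KI S q D lo hi) {i : ℕ} (hi' : q + 1 ≤ i) (hn : i ≤ S.n) :
    On D (S.vx 0 i) ↔ lo ≤ q + 2 * S.n + 2 - i ∧ q + 2 * S.n + 2 - i ≤ hi := by
  have hq := hk.qn
  rw [Strip.vx0_hi hq hi' hn]
  exact hk.on (q + 2 * S.n + 2 - i) (by omega)

/-- The two far vertices at S. -/
theorem KI.far_S (hk : KI S q D lo hi) (h0 : On D (S.vx 0 0)) (h1 : On D (S.vx 1 0)) :
    s(S.vx 0 0, S.vx 1 0) ∈ D := by
  rw [hk.on_side0_lo (Nat.zero_le q)] at h0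
  rw [hk.on_side1 (Nat.zero_le _)] at h1
  rw [hk.endS_mem]
  omega

/-- The two far vertices at N. -/
theorem KI.far_N (hk : KI S q D lo hi) (h0 : On D (S.vx 0 S.n)) (h1 : On D (S.vx 1 S.n)) :
    s(S.vx 0 S.n, S.vx 1 S.n) ∈ D := by
  have hq := hk.qn
  rw [hk.on_side0_hi (by omega) le_rfl] at h0
  rw [hk.on_side1 le_rfl] at h1
  rw [hk.endN_mem]
  omega

/-- Vertices of side 1 in the arc are connected. -/
theorem KI.hc1 (hk : KI S q D lo hi) {i j : ℕ} (h1 : 1 ≤ i) (hij : i ≤ j) (h2 : j < S.n)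
    (h3 : lo ≤ q + 1 + i) (h4 : q + 1 + j ≤ hi) : HC D (S.vx 1 i) (S.vx 1 j) := by
  refine hc_side (Or.inr rfl) h1 hij h2 (fun m hm hm' => ?_)
  rw [hk.side1_mem (by omega)]
  omega

/-- Vertices of side 0 near S in the arc are connected. -/
theorem KI.hc0 (hk : KI S q D lo hi) {i j : ℕ} (h1 : 1 ≤ i) (hij : i ≤ j) (h2 : j ≤ q)
    (h3 : lo ≤ q - j) (h4 : q ≤ hi) : HC D (S.vx 0 i) (S.vx 0 j) := by
  have hq := hk.qn
  refine hc_side (Or.inl rfl) h1 hij (by omega) (fun m hm hm' => ?_)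
  rw [hk.side0_lo_mem (by omega)]
  omega

/-- No finger: the class vertices are the vertices of side 1 in the arc. -/
theorem FC.I_none (h : FC S G f v) (hG : S.bS ⊆ G) (hDG : D ⊆ G)
    (hGD : ∀ ε ∈ G, ε ∉ D → ε ∈ S.bS) (hD : Valid D) (hk : KI S q D lo hi)
    (h1 : q ≤ lo) (h2 : hi ≤ q + S.n + 2) : R D ↔ Rul (EE D f) := by
  have hq := hk.qn
  refine h.no_finger hG hDG hGD hD hk.far_S hk.far_N
    ⟨S.vx 1 (max 1 (lo - q - 1)), fun s i hs hi1 hi2 hon => ?_⟩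
  rcases hs with rfl | rfl
  · exfalso
    rcases Nat.lt_or_ge q i with hqi | hqi
    · rw [hk.on_side0_hi hqi hi2.le] at hon
      omega
    · rw [hk.on_side0_lo hqi] at hon
      omega
  · rw [hk.on_side1 hi2.le] at hon
    have ha : 1 ≤ max 1 (lo - q - 1) := le_max_left _ _
    have hb : lo - q - 1 ≤ max 1 (lo - q - 1) := le_max_right _ _
    have hc : max 1 (lo - q - 1) ≤ i := max_le hi1 (by omega)
    exact (hk.hc1 ha hc hi2 (by omega) hon.2).symm

/-- With a finger at S the arc vertices of the sides are connected with the first vertices. -/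
theorem KI.cov_S (hk : KI S q D lo hi) (h1 : lo < q) (h2 : q + 2 ≤ hi) (h3 : hi ≤ q + S.n + 2)
    (s : ℤ) (i : ℕ) (hs : s = 0 ∨ s = 1) (hi1 : 1 ≤ i) (hi2 : i < S.n) (hon : On D (S.vx s i)) :
    HC D (S.vx s i) (S.vx s 1) := by
  have hq := hk.qn
  rcases hs with rfl | rfl
  · rcases Nat.lt_or_ge q i with hqi | hqi
    · rw [hk.on_side0_hi hqi hi2.le] at hon
      omega
    · rw [hk.on_side0_lo hqi] at hon
      exact (hk.hc0 le_rfl hi1 hqi hon.1 (by omega)).symm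
  · rw [hk.on_side1 hi2.le] at hon
    exact (hk.hc1 le_rfl hi1 hi2 (by omega) hon.2).symm

/-- A finger at S, side 1 is complete up to the end N. -/
theorem FC.I_S1 (h : FC S G f v) (hG : S.bS ⊆ G) (hDG : D ⊆ G)
    (hGD : ∀ ε ∈ G, ε ∉ D → ε ∈ S.bS) (hD : Valid D) (hk : KI S q D lo hi)
    (h1 : lo < q) (h2 : q + S.n + 1 ≤ hi) (h3 : hi ≤ q + S.n + 2)
    {d : Fin 4} {b : Bool} {w : Cube} (ho : OutEnd (D \ S.bS) (S.vx 0 (q - lo)) d b w) :
    R D ↔ Cyc (key f b w) (KN S f) (KS S f) ∧ Rul (EE D f) := by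
  have hq := hk.qn
  have hn := S.two_le
  obtain ⟨ho1, ho2, -, ho3, -⟩ := out_end (Or.inl rfl) (show 1 ≤ q - lo by omega)
    (show q - lo < S.n by omega) ho
  have hl0 : s(S.vx 0 0, S.vx 0 1) ∈ D := by
    have := (hk.side0_lo_mem (i := 0) (by omega)).2 (by omega)
    simpa using this
  have hl1 : s(S.vx 1 0, S.vx 1 1) ∈ D := by
    have := (hk.side1_mem (i := 0) (by omega)).2 (by omega)
    simpa using this
  have hve : VE D (!S.g1) (S.vx 1 (S.n - 1)) := by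
    have h5 := (hk.side1_mem (i := S.n - 1) (by omega)).2 (by omega)
    have h6 : S.n - 1 + 1 = S.n := by omega
    rw [h6, Strip.vx_n] at h5
    exact h5
  have hne' : ¬ (S.vx 1 (S.n - 1) = S.vx 1 1 ∧ (!S.g1) = !S.g0) := by
    rintro ⟨h5, h6⟩
    have h7 := (Strip.vx_inj (by omega) (by omega) h5).2
    have h8 : S.y0 = S.y1 := by
      have h9 : S.n = 2 := by omega
      have h10 := S.y1_eq
      rw [h9] at h10
      simpa using h10.symm
    have h11 := S.ok h8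
    revert h6
    cases hg0 : S.g0 <;> cases hg1 : S.g1 <;> simp_all
  have key := h.one_S hG hDG hGD hD hl0 hl1 (hk.endS_mem.2 (by omega)) hk.far_N
    (hk.cov_S h1 (by omega) h3) (u' := w) (α := b) (w' := S.vx 1 (S.n - 1)) (α' := !S.g1)
    ((hk.hc0 le_rfl (by omega) (by omega) (by omega) (by omega)).trans ho1) ho2 ho3
    (hk.hc1 le_rfl (by omega) (by omega) (by omega) (by omega)) hve hne'
  rw [h.key_N hG (Or.inr rfl)] at key
  exact key

/-- A finger at S, the arc ends on side 1. -/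
theorem FC.I_S2 (h : FC S G f v) (hG : S.bS ⊆ G) (hDG : D ⊆ G)
    (hGD : ∀ ε ∈ G, ε ∉ D → ε ∈ S.bS) (hD : Valid D) (hk : KI S q D lo hi)
    (h1 : lo < q) (h2 : q + 2 ≤ hi) (h3 : hi ≤ q + S.n)
    {d : Fin 4} {b : Bool} {w : Cube} (ho : OutEnd (D \ S.bS) (S.vx 0 (q - lo)) d b w)
    {d' : Fin 4} {b' : Bool} {w' : Cube}
    (ho' : OutEnd (D \ S.bS) (S.vx 1 (hi - q - 1)) d' b' w') :
    R D ↔ Cyc (key f b w) (key f b' w') (KS S f) ∧ Rul (EE D f) := by
  have hq := hk.qn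
  have hn := S.two_le
  obtain ⟨ho1, ho2, -, ho3, -⟩ := out_end (Or.inl rfl) (show 1 ≤ q - lo by omega)
    (show q - lo < S.n by omega) ho
  obtain ⟨ho1', ho2', -, ho3', -⟩ := out_end (Or.inr rfl) (show 1 ≤ hi - q - 1 by omega)
    (show hi - q - 1 < S.n by omega) ho'
  have hl0 : s(S.vx 0 0, S.vx 0 1) ∈ D := by
    have := (hk.side0_lo_mem (i := 0) (by omega)).2 (by omega)
    simpa using this
  have hl1 : s(S.vx 1 0, S.vx 1 1) ∈ D := by
    have := (hk.side1_mem (i := 0) (by omega)).2 (by omega)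
    simpa using this
  exact h.one_S hG hDG hGD hD hl0 hl1 (hk.endS_mem.2 (by omega)) hk.far_N
    (hk.cov_S h1 h2 (by omega))
    ((hk.hc0 le_rfl (by omega) (by omega) (by omega) (by omega)).trans ho1) ho2 ho3
    ((hk.hc1 le_rfl (by omega) (by omega) (by omega) (by omega)).trans ho1') ho2' ho3'

end Pool.Agent.Helper24.GEO
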