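import Pool.Agent.Helper24.GEO.OneS

/-!
# GEO-16: curves of kind II without a finger or with a finger at S (project GEO, MP_409f7f_co)

`D` contains all edges of the contour (also the wrap edge) except those of the arc `Z lo .. Z hi`.
-/

namespace Pool.Agent.Helper24.GEO

open Pool.Agent.Helper17.UF Pool.Agent.Helper53.GP Pool.Agent.Helper24.RUL

variable {S : Strip} {G D : Finset (Sym2 Cube)} {f : Cube → ℚ} {v : ℚ} {q lo hi : ℕ}

/-! Positions. -/

theorem KII.on0_lo (hk : KII S q D lo hi) {i : ℕ} (h : i ≤ q) :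
    On D (S.vx 0 i) ↔ q - i ≤ lo ∨ hi ≤ q - i := by
  have h1 := hk.qn
  rw [Strip.vx0_lo h]
  exact hk.on _ (by omega)

theorem KII.on0_hi (hk : KII S q D lo hi) {i : ℕ} (h : q + 1 ≤ i) (h' : i ≤ S.n) :
    On D (S.vx 0 i) ↔ q + 2 * S.n + 2 - i ≤ lo ∨ hi ≤ q + 2 * S.n + 2 - i := by
  have h1 := hk.qn
  rw [Strip.vx0_hi h1 h h']
  exact hk.on _ (by omega)

theorem KII.on1 (hk : KII S q D lo hi) {i : ℕ} (h : i ≤ S.n) :
    On D (S.vx 1 i) ↔ q + 1 + i ≤ lo ∨ hi ≤ q + 1 + i := by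
  have h1 := hk.qn
  rw [← Strip.Z_mid (q := q) h]
  exact hk.on _ (by omega)

theorem KII.e0_lo (hk : KII S q D lo hi) {i : ℕ} (h : i < q) :
    s(S.vx 0 i, S.vx 0 (i + 1)) ∈ D ↔ ¬ (lo ≤ q - i - 1 ∧ q - i - 1 < hi) := by
  have h1 := hk.qn
  rw [Strip.side0_lo h]
  exact hk.edge _ (by omega)

theorem KII.e0_q (hk : KII S q D lo hi) : s(S.vx 0 q, S.vx 0 (q + 1)) ∈ D := by
  rw [Strip.side0_q hk.qn]
  exact hk.wrap

theorem KII.e0_hi (hk : KII S q D lo hi) {i : ℕ} (h : q < i) (h' : i < S.n) :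
    s(S.vx 0 i, S.vx 0 (i + 1)) ∈ D ↔
      ¬ (lo ≤ q + 2 * S.n + 1 - i ∧ q + 2 * S.n + 1 - i < hi) := by
  have h1 := hk.qn
  rw [Strip.side0_hi h1 h h']
  exact hk.edge _ (by omega)

theorem KII.e1 (hk : KII S q D lo hi) {i : ℕ} (h : i < S.n) :
    s(S.vx 1 i, S.vx 1 (i + 1)) ∈ D ↔ ¬ (lo ≤ q + 1 + i ∧ q + 1 + i < hi) := by
  have h1 := hk.qn
  rw [Strip.side1 (q := q) h]
  exact hk.edge _ (by omega)

theorem KII.eS (hk : KII S q D lo hi) :
    s(S.vx 0 0, S.vx 1 0) ∈ D ↔ ¬ (lo ≤ q ∧ q < hi) := by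
  have h1 := hk.qn
  rw [Strip.endS_Z (q := q)]
  exact hk.edge _ (by omega)

theorem KII.eN (hk : KII S q D lo hi) :
    s(S.vx 0 S.n, S.vx 1 S.n) ∈ D ↔ ¬ (lo ≤ q + 1 + S.n ∧ q + 1 + S.n < hi) := by
  have h1 := hk.qn
  rw [Strip.endN_Z h1]
  exact hk.edge _ (by omega)

/-- Edges of side 0 in the curve. -/
theorem KII.edge0 (hk : KII S q D lo hi) {m : ℕ} (h : m < S.n) (h1 : q - m ≤ lo)
    (h2 : hi ≤ q + 2 * S.n + 1 - m) : s(S.vx 0 m, S.vx 0 (m + 1)) ∈ D := by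
  rcases lt_trichotomy m q with h3 | h3 | h3
  · rw [hk.e0_lo h3]
    omega
  · subst h3
    exact hk.e0_q
  · rw [hk.e0_hi h3 h]
    omega

/-- Side 0 between two of its vertices. -/
theorem KII.hc0 (hk : KII S q D lo hi) {i j : ℕ} (h1 : 1 ≤ i) (hij : i ≤ j) (h2 : j < S.n)
    (h3 : q - i ≤ lo) (h4 : hi ≤ q + 2 * S.n + 2 - j) : HC D (S.vx 0 i) (S.vx 0 j) := by
  have hq := hk.qn
  refine hc_side (Or.inl rfl) h1 hij h2 ?_
  intro m hm1 hm2
  exact hk.edge0 (by omega) (by omega) (by omega)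

/-- Side 1 between two of its vertices, before the gap. -/
theorem KII.hc1 (hk : KII S q D lo hi) {i j : ℕ} (h1 : 1 ≤ i) (hij : i ≤ j) (h2 : j < S.n)
    (h3 : q + 1 + j ≤ lo) : HC D (S.vx 1 i) (S.vx 1 j) := by
  refine hc_side (Or.inr rfl) h1 hij h2 ?_
  intro m hm1 hm2
  rw [hk.e1 (by omega)]
  omega

/-- The end N of the column is not its end S. -/
theorem ne_legs (s : ℤ) : ¬ (S.vx s (S.n - 1) = S.vx s 1 ∧ (!S.g1) = !S.g0) := by
  rintro ⟨h1, h2⟩
  have h3 := Strip.two_le S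
  have h4 := (Strip.vx_inj (S := S) (by omega) (by omega) h1).2
  have h5 : (S.y1 - S.y0).natAbs = 0 := by
    have : (S.y1 - S.y0).natAbs + 2 = S.n := rfl
    omega
  have h6 := S.ok (by omega)
  apply h6
  revert h2
  cases S.g0 <;> cases S.g1 <;> simp

/-- No finger: no vertex of side 1 at level `k` is on the curve; the class vertices are on side 0 and
connected (through the wrap edge, if it is horizontal). -/
theorem FC.II_none (h : FC S G f v) (hG : S.bS ⊆ G) (hDG : D ⊆ G)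
    (hGD : ∀ ε ∈ G, ε ∉ D → ε ∈ S.bS) (hD : Valid D) (hk : KII S q D lo hi)
    (h1 : lo ≤ q + 1) (h2 : q + S.n + 1 ≤ hi) : R D ↔ Rul (EE D f) := by
  have hn := Strip.two_le S
  have hq := hk.qn
  have hhi := hk.hi_le
  refine h.no_finger hG hDG hGD hD ?_ ?_ ?_
  · intro ha hb
    rw [hk.on0_lo (Nat.zero_le q)] at ha
    rw [hk.on1 (Nat.zero_le _)] at hb
    rw [hk.eS]
    omega
  · intro ha hb
    rw [hk.on0_hi (by omega) le_rfl] at ha
    rw [hk.on1 le_rfl] at hb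
    rw [hk.eN]
    omega
  · refine ⟨S.vx 0 (max q 1), ?_⟩
    rintro s i (rfl | rfl) hi1 hi2 hon
    · rcases le_total i (max q 1) with h3 | h3
      · rcases le_or_gt i q with h4 | h4
        · rw [hk.on0_lo h4] at hon
          exact hk.hc0 hi1 h3 (by omega) (by omega) (by omega)
        · have h5 : i = max q 1 := by omega
          rw [h5]
          exact HC.refl _ _
      · rcases le_or_gt i q with h4 | h4
        · have h5 : i = max q 1 := by omega
          rw [h5]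
          exact HC.refl _ _
        · rw [hk.on0_hi (by omega) (by omega)] at hon
          exact (hk.hc0 (by omega) h3 hi2 (by omega) (by omega)).symm
    · rw [hk.on1 (by omega)] at hon
      omega

/-- A finger at S; side 0 is complete with the leg at N; the arc begins on side 1. -/
theorem FC.II_S1 (h : FC S G f v) (hG : S.bS ⊆ G) (hDG : D ⊆ G)
    (hGD : ∀ ε ∈ G, ε ∉ D → ε ∈ S.bS) (hD : Valid D) (hk : KII S q D lo hi)
    (h1 : q + 2 ≤ lo) (h2 : lo ≤ q + S.n) (h3 : q + S.n + 1 ≤ hi) (h4 : hi ≤ q + S.n + 2)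
    {d : Fin 4} {b : Bool} {w : Cube}
    (ho : OutEnd (D \ S.bS) (S.vx 1 (lo - q - 1)) d b w) :
    R D ↔ Cyc (KN S f) (key f b w) (KS S f) ∧ Rul (EE D f) := by
  have hn := Strip.two_le S
  have hq := hk.qn
  obtain ⟨o1, o2, -, o3, -⟩ := out_end (Or.inr rfl) (by omega) (by omega) ho
  have hN := h.key_N hG (s := 0) (Or.inl rfl)
  rw [← hN]
  refine h.one_S hG hDG hGD hD ?_ ?_ ?_ ?_ ?_ ?_ ?_ (ne_legs 0) ?_ o2 o3
  · exact hk.edge0 (by omega) (by omega) (by omega)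
  · rw [hk.e1 (by omega)]
    omega
  · rw [hk.eS]
    omega
  · intro ha hb
    rw [hk.on1 le_rfl] at hb
    rw [hk.eN]
    omega
  · rintro s i (rfl | rfl) hi1 hi2 hon
    · exact (hk.hc0 le_rfl hi1 hi2 (by omega) (by omega)).symm
    · rw [hk.on1 (by omega)] at hon
      exact (hk.hc1 le_rfl hi1 hi2 (by omega)).symm
  · exact hk.hc0 le_rfl (by omega) (by omega) (by omega) (by omega)
  · show s(S.vx 0 (S.n - 1), fr (!S.g1) (S.vx 0 (S.n - 1))) ∈ D
    rw [← Strip.vx_n]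
    have h5 := hk.edge0 (m := S.n - 1) (by omega) (by omega) (by omega)
    rwa [Nat.sub_add_cancel (by omega)] at h5
  · exact (hk.hc1 le_rfl (by omega) (by omega) (by omega)).trans o1

/-- A finger at S; the arc begins on side 1 and ends on side 0 (beyond the end N). -/
theorem FC.II_S2 (h : FC S G f v) (hG : S.bS ⊆ G) (hDG : D ⊆ G)
    (hGD : ∀ ε ∈ G, ε ∉ D → ε ∈ S.bS) (hD : Valid D) (hk : KII S q D lo hi)
    (h1 : q + 2 ≤ lo) (h2 : lo ≤ q + S.n) (h3 : q + S.n + 3 ≤ hi)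
    {d : Fin 4} {b : Bool} {w : Cube}
    (ho : OutEnd (D \ S.bS) (S.vx 1 (lo - q - 1)) d b w)
    {d' : Fin 4} {b' : Bool} {w' : Cube}
    (ho' : OutEnd (D \ S.bS) (S.vx 0 (q + 2 * S.n + 2 - hi)) d' b' w') :
    R D ↔ Cyc (key f b' w') (key f b w) (KS S f) ∧ Rul (EE D f) := by
  have hn := Strip.two_le S
  have hq := hk.qn
  have hhi := hk.hi_le
  obtain ⟨o1, o2, -, o3, -⟩ := out_end (Or.inr rfl) (by omega) (by omega) ho
  obtain ⟨p1, p2, -, p3, -⟩ := out_end (Or.inl rfl) (by omega) (by omega) ho'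
  refine h.one_S hG hDG hGD hD ?_ ?_ ?_ ?_ ?_ ?_ p2 p3 ?_ o2 o3
  · exact hk.edge0 (by omega) (by omega) (by omega)
  · rw [hk.e1 (by omega)]
    omega
  · rw [hk.eS]
    omega
  · intro ha hb
    rw [hk.on0_hi (by omega) le_rfl] at ha
    omega
  · rintro s i (rfl | rfl) hi1 hi2 hon
    · rcases le_or_gt i q with h4 | h4
      · exact (hk.hc0 le_rfl hi1 hi2 (by omega) (by omega)).symm
      · rw [hk.on0_hi (by omega) (by omega)] at hon
        exact (hk.hc0 le_rfl hi1 hi2 (by omega) (by omega)).symm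
    · rw [hk.on1 (by omega)] at hon
      exact (hk.hc1 le_rfl hi1 hi2 (by omega)).symm
  · exact (hk.hc0 le_rfl (by omega) (by omega) (by omega) (by omega)).trans p1
  · exact (hk.hc1 le_rfl (by omega) (by omega) (by omega)).trans o1

/-- A finger at S; side 1 is complete with the leg at N; the arc ends on side 0. -/
theorem FC.II_S3 (h : FC S G f v) (hG : S.bS ⊆ G) (hDG : D ⊆ G)
    (hGD : ∀ ε ∈ G, ε ∉ D → ε ∈ S.bS) (hD : Valid D) (hk : KII S q D lo hi)
    (h1 : q + S.n + 1 ≤ lo) (h2 : lo ≤ q + S.n + 2) (h3 : q + S.n + 3 ≤ hi)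
    {d' : Fin 4} {b' : Bool} {w' : Cube}
    (ho' : OutEnd (D \ S.bS) (S.vx 0 (q + 2 * S.n + 2 - hi)) d' b' w') :
    R D ↔ Cyc (key f b' w') (KN S f) (KS S f) ∧ Rul (EE D f) := by
  have hn := Strip.two_le S
  have hq := hk.qn
  have hhi := hk.hi_le
  obtain ⟨p1, p2, -, p3, -⟩ := out_end (Or.inl rfl) (by omega) (by omega) ho'
  have hN := h.key_N hG (s := 1) (Or.inr rfl)
  rw [← hN]
  refine h.one_S hG hDG hGD hD ?_ ?_ ?_ ?_ ?_ ?_ p2 p3 ?_ ?_ (ne_legs 1)
  · exact hk.edge0 (by omega) (by omega) (by omega)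
  · rw [hk.e1 (by omega)]
    omega
  · rw [hk.eS]
    omega
  · intro ha hb
    rw [hk.on0_hi (by omega) le_rfl] at ha
    rw [hk.eN]
    omega
  · rintro s i (rfl | rfl) hi1 hi2 hon
    · rcases le_or_gt i q with h4 | h4
      · exact (hk.hc0 le_rfl hi1 hi2 (by omega) (by omega)).symm
      · rw [hk.on0_hi (by omega) (by omega)] at hon
        exact (hk.hc0 le_rfl hi1 hi2 (by omega) (by omega)).symm
    · exact (hk.hc1 le_rfl hi1 hi2 (by omega)).symm
  · exact (hk.hc0 le_rfl (by omega) (by omega) (by omega) (by omega)).trans p1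
  · exact hk.hc1 le_rfl (by omega) (by omega) (by omega)
  · show s(S.vx 1 (S.n - 1), fr (!S.g1) (S.vx 1 (S.n - 1))) ∈ D
    rw [← Strip.vx_n]
    have h5 := (hk.e1 (i := S.n - 1) (by omega)).2 (by omega)
    rwa [Nat.sub_add_cancel (by omega)] at h5

end Pool.Agent.Helper24.GEO
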