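import Pool.Agent.Helper24.GEO.ProfI
import Pool.Agent.Helper24.GEO.ProfII
import Pool.Agent.Helper24.GEO.ProfB

/-!
# GEO-18: pushing the curve across a column keeps the ruling (project GEO, MP_409f7f_co)

`G = C ∪ bS`, `C' = symmDiff C bS` (`KI_push`, `loc_push`, `sdiff_push`), `f` from `exists_FC`,
`EE C' f = EE C f` (`FC.EE_push`). Outer ends at `Z lo`, `Z hi` from `exists_out` (for `C`; they are
outer ends for `C'` as well because `C \ bS = C' \ bS`), their cyclic position from `FC.out_cyc`.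
Cases for the end S: (f) `lo < q`; (0) `lo = q ∨ lo = q + 1`; (f') `q + 2 ≤ lo`.
Cases for the end N: (f) `q + n + 3 ≤ hi`; (0) `hi = q + n + 1 ∨ hi = q + n + 2`; (f') `hi ≤ q + n`.
* (0, 0): `I_none` for `C`, `II_none` for `C'`.
* (f, 0): `I_S1` for `C`, `II_none` for `C'`; (the condition is true, not even needed).
* (f', 0): `I_none`, `II_S1`: the condition `Cyc KN κ KS` is true by `out_cyc` (side 1, `i ≤ r`).
* (f, f): `I_both`, `II_none`.
* (f', f'): `I_none`, `II_both`: both conditions are true (`cyc3_cyc`, `cyc3_four`).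
* (f, f'): `I_S2` for `C`; `C'` has a finger at N: `II_S2` for the reversed column; the conditions are
  `Cyc κα κβ KS` and `Cyc κα κβ KN` with both keys between `KS` and `KN`: `cyc_swap`.
* (0, f), (0, f'), (f', f): reversed column (`rev_ArcP`, `rev_bS`): prove `push_aux` for the cases with
  (S, N) in {(0,0), (f,0), (f',0), (f,f), (f',f'), (f,f')} and apply it to `S.rev`.
Note `FC S.rev G f v` follows from `FC S G f v` (`Kc` is the same set), `KS S.rev f = KN S f`.
-/

namespace Pool.Agent.Helper24.GEO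

open Pool.Agent.Helper17.UF Pool.Agent.Helper53.GP Pool.Agent.Helper24.RUL

namespace PushAux

variable {S : Strip} {q r lo hi : ℕ} {C : Finset (Sym2 Cube)}

theorem out_lo0 (hC : Valid C) (hk : KI S q C lo hi) (h1 : lo < q) :
    ∃ d b w, OutEnd (C \ S.bS) (S.vx 0 (q - lo)) d b w := by
  have hqn := hk.qn
  have hlt := hk.lt
  have hhi := hk.hi_le
  obtain ⟨d, b, w, h, _⟩ := exists_out (S := S) (s := 0) (i := q - lo) hC (Or.inl rfl) (by omega)
    (by omega)
    (by
      rw [← Strip.Z_lo (S := S) (q := q) (j := lo) (by omega)]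
      exact (hk.on lo (by omega)).2 ⟨le_rfl, hlt.le⟩)
    (by
      rintro ⟨_, h2⟩
      by_cases h0 : lo = 0
      · subst h0
        rw [Nat.sub_zero, Strip.side0_q hqn] at h2
        exact hk.wrap h2
      · rw [Strip.side0_lo (S := S) (q := q) (i := q - lo) (by omega)] at h2
        have := (hk.edge (q - (q - lo) - 1) (by omega)).1 h2
        omega)
  exact ⟨d, b, w, h⟩

theorem out_lo1 (hC : Valid C) (hk : KI S q C lo hi) (h1 : q + 2 ≤ lo) (h2 : lo ≤ q + S.n) :
    ∃ d b w, OutEnd (C \ S.bS) (S.vx 1 (lo - q - 1)) d b w := by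
  have hqn := hk.qn
  have hlt := hk.lt
  have hhi := hk.hi_le
  obtain ⟨d, b, w, h, _⟩ := exists_out (S := S) (s := 1) (i := lo - q - 1) hC (Or.inr rfl)
    (by omega) (by omega)
    (by
      rw [← Strip.Z_mid (S := S) (q := q) (i := lo - q - 1) (by omega)]
      exact (hk.on _ (by omega)).2 ⟨by omega, by omega⟩)
    (by
      rintro ⟨h2, _⟩
      have e := Strip.side1 (S := S) (q := q) (i := lo - q - 1 - 1) (by omega)
      have e1 : lo - q - 1 - 1 + 1 = lo - q - 1 := by omega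
      rw [e1] at e
      rw [Sym2.eq_swap, e] at h2
      have := (hk.edge _ (by omega)).1 h2
      omega)
  exact ⟨d, b, w, h⟩

theorem out_hi1 (hC : Valid C) (hk : KI S q C lo hi) (h1 : q + 2 ≤ hi) (h2 : hi ≤ q + S.n) :
    ∃ d b w, OutEnd (C \ S.bS) (S.vx 1 (hi - q - 1)) d b w := by
  have hqn := hk.qn
  have hlt := hk.lt
  have hhi := hk.hi_le
  obtain ⟨d, b, w, h, _⟩ := exists_out (S := S) (s := 1) (i := hi - q - 1) hC (Or.inr rfl)
    (by omega) (by omega)
    (by
      rw [← Strip.Z_mid (S := S) (q := q) (i := hi - q - 1) (by omega)]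
      exact (hk.on _ (by omega)).2 ⟨by omega, by omega⟩)
    (by
      rintro ⟨_, h2⟩
      rw [Strip.side1 (S := S) (q := q) (i := hi - q - 1) (by omega)] at h2
      have := (hk.edge _ (by omega)).1 h2
      omega)
  exact ⟨d, b, w, h⟩

theorem out_hi0 (hC : Valid C) (hk : KI S q C lo hi) (h1 : q + S.n + 3 ≤ hi) :
    ∃ d b w, OutEnd (C \ S.bS) (S.vx 0 (q + 2 * S.n + 2 - hi)) d b w := by
  have hqn := hk.qn
  have hlt := hk.lt
  have hhi := hk.hi_le
  obtain ⟨d, b, w, h, _⟩ := exists_out (S := S) (s := 0) (i := q + 2 * S.n + 2 - hi) hC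
    (Or.inl rfl) (by omega) (by omega)
    (by
      rw [← Strip.Z_hi (S := S) (q := q) (j := hi) hqn (by omega) (by omega)]
      exact (hk.on hi (by omega)).2 ⟨hlt.le, le_rfl⟩)
    (by
      rintro ⟨h2, _⟩
      rw [Sym2.eq_swap] at h2
      by_cases h0 : hi = 2 * S.n + 1
      · have e1 : q + 2 * S.n + 2 - hi = q + 1 := by omega
        rw [e1] at h2
        have e2 : q + 1 - 1 = q := by omega
        rw [e2, Strip.side0_q hqn] at h2
        exact hk.wrap h2
      · have e := Strip.side0_hi (S := S) (q := q) hqn (i := q + 2 * S.n + 2 - hi - 1) (by omega)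
          (by omega)
        have e1 : q + 2 * S.n + 2 - hi - 1 + 1 = q + 2 * S.n + 2 - hi := by omega
        rw [e1] at e
        rw [e] at h2
        have := (hk.edge _ (by omega)).1 h2
        omega)
  exact ⟨d, b, w, h⟩

/-- The cases that are not reduced to the reversed column. -/
theorem push_aux (hC : Valid C) (h : ArcP S q r C lo hi) (hC' : Valid (symmDiff C S.bS))
    (hR : R C)
    (hcase : (hi ≤ q + S.n + 2 ∧ q + S.n + 1 ≤ hi) ∨ (lo < q ∧ q + S.n + 3 ≤ hi) ∨
      (q + 2 ≤ lo ∧ hi ≤ q + S.n) ∨ (lo < q ∧ hi ≤ q + S.n)) :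
    R (symmDiff C S.bS) := by
  have hk := h.ki
  have hqn := hk.qn
  have hlt := hk.lt
  have hhi := hk.hi_le
  have hrn := h.rn
  have hlo := h.lo_le
  have hle := h.le_hi
  have hk' : KII S q (symmDiff C S.bS) lo hi := Strip.KI_push hC hk
  obtain ⟨f, v, F⟩ := exists_FC S (C ∪ S.bS)
  have hG : S.bS ⊆ C ∪ S.bS := Finset.subset_union_right
  have hCG : C ⊆ C ∪ S.bS := Finset.subset_union_left
  have hGC : ∀ ε ∈ C ∪ S.bS, ε ∉ C → ε ∈ S.bS := by
    intro ε h1 h2
    rcases Finset.mem_union.1 h1 with h3 | h3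
    · exact absurd h3 h2
    · exact h3
  have hCG' : symmDiff C S.bS ⊆ C ∪ S.bS := by
    intro ε h1
    rw [Finset.mem_symmDiff] at h1
    rw [Finset.mem_union]
    tauto
  have hGC' : ∀ ε ∈ C ∪ S.bS, ε ∉ symmDiff C S.bS → ε ∈ S.bS := by
    intro ε h1 h2
    rw [Finset.mem_symmDiff] at h2
    rw [Finset.mem_union] at h1
    tauto
  have hE : EE (symmDiff C S.bS) f = EE C f := F.EE_push hG C
  have hsd : symmDiff C S.bS \ S.bS = C \ S.bS := Strip.sdiff_push C S
  rcases hcase with ⟨c1, c2⟩ | ⟨c1, c2⟩ | ⟨c1, c2⟩ | ⟨c1, c2⟩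
  · -- no finger at N
    by_cases d1 : lo < q
    · obtain ⟨d, b, w, ho⟩ := out_lo0 hC hk d1
      have hRul := ((F.I_S1 hG hCG hGC hC hk d1 c2 c1 ho).1 hR).2
      rw [F.II_none hG hCG' hGC' hC' hk' (by omega) (by omega), hE]
      exact hRul
    · have hRul := (F.I_none hG hCG hGC hC hk (by omega) (by omega)).1 hR
      by_cases d2 : q + 2 ≤ lo
      · obtain ⟨d, b, w, ho⟩ := out_lo1 hC hk d2 (by omega)
        have ho' : OutEnd (symmDiff C S.bS \ S.bS) (S.vx 1 (lo - q - 1)) d b w := by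
          rw [hsd]; exact ho
        rw [F.II_S1 hG hCG' hGC' hC' hk' d2 (by omega) c2 c1 ho', hE]
        refine ⟨cyc3_cyc ?_, hRul⟩
        exact (F.out_cyc hG h.loc (Or.inr rfl) (by omega) (by omega) ho).2
          (Or.inl ⟨rfl, by omega⟩)
      · rw [F.II_none hG hCG' hGC' hC' hk' (by omega) (by omega), hE]
        exact hRul
  · obtain ⟨d, b, w, ho⟩ := out_lo0 hC hk c1
    obtain ⟨d', b', w', ho'⟩ := out_hi0 hC hk c2
    have hRul := ((F.I_both hG hCG hGC hC hk c1 c2 ho ho').1 hR).2.2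
    rw [F.II_none hG hCG' hGC' hC' hk' (by omega) (by omega), hE]
    exact hRul
  · obtain ⟨d, b, w, ho⟩ := out_lo1 hC hk c1 (by omega)
    obtain ⟨d', b', w', ho'⟩ := out_hi1 hC hk (by omega) c2
    have hRul := (F.I_none hG hCG hGC hC hk (by omega) (by omega)).1 hR
    have hoC : OutEnd (symmDiff C S.bS \ S.bS) (S.vx 1 (lo - q - 1)) d b w := by
      rw [hsd]; exact ho
    have hoC' : OutEnd (symmDiff C S.bS \ S.bS) (S.vx 1 (hi - q - 1)) d' b' w' := by
      rw [hsd]; exact ho'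
    rw [F.II_both hG hCG' hGC' hC' hk' c1 c2 hoC hoC', hE]
    have k1 : Cyc3 (KN S f) (key f b w) (KS S f) :=
      (F.out_cyc hG h.loc (Or.inr rfl) (by omega) (by omega) ho).2 (Or.inl ⟨rfl, by omega⟩)
    have k2 : Cyc3 (KS S f) (key f b' w') (KN S f) :=
      (F.out_cyc hG h.loc (Or.inr rfl) (by omega) (by omega) ho').1 (Or.inl ⟨rfl, by omega⟩)
    exact ⟨cyc3_cyc k1, cyc3_cyc (cyc3_four k1 k2), hRul⟩
  · obtain ⟨d, b, w, ho⟩ := out_lo0 hC hk c1
    obtain ⟨d', b', w', ho'⟩ := out_hi1 hC hk (by omega) c2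
    obtain ⟨hcyc, hRul⟩ := (F.I_S2 hG hCG hGC hC hk c1 (by omega) c2 ho ho').1 hR
    have k1 : Cyc3 (KS S f) (key f b w) (KN S f) :=
      (F.out_cyc hG h.loc (Or.inl rfl) (by omega) (by omega) ho).1 (Or.inr ⟨rfl, by omega⟩)
    have k2 : Cyc3 (KS S f) (key f b' w') (KN S f) :=
      (F.out_cyc hG h.loc (Or.inr rfl) (by omega) (by omega) ho').1 (Or.inl ⟨rfl, by omega⟩)
    have hcyc' : Cyc (key f b w) (key f b' w') (KN S f) := (cyc_swap k1 k2).1 hcyc
    -- the reversed column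
    have hn : S.rev.n = S.n := Strip.rev_n S
    have hb : S.rev.bS = S.bS := Strip.rev_bS S
    have Fr : FC S.rev (C ∪ S.bS) f v := F.rev hG
    have hkr : KII S.rev (S.n - 1 - q) (symmDiff C S.bS) (2 * S.n + 1 - hi)
        (2 * S.n + 1 - lo) := Strip.rev_KII hk'
    have e1 : S.rev.vx 1 (2 * S.n + 1 - hi - (S.n - 1 - q) - 1) = S.vx 1 (hi - q - 1) := by
      rw [Strip.rev_vx (by omega)]
      congr 1
      omega
    have e2 : S.rev.vx 0 (S.n - 1 - q + 2 * S.rev.n + 2 - (2 * S.n + 1 - lo)) =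
        S.vx 0 (q - lo) := by
      rw [hn, Strip.rev_vx (by omega)]
      congr 1
      omega
    have hoA : OutEnd (symmDiff C S.bS \ S.rev.bS)
        (S.rev.vx 1 (2 * S.n + 1 - hi - (S.n - 1 - q) - 1)) d' b' w' := by
      rw [hb, hsd, e1]; exact ho'
    have hoB : OutEnd (symmDiff C S.bS \ S.rev.bS)
        (S.rev.vx 0 (S.n - 1 - q + 2 * S.rev.n + 2 - (2 * S.n + 1 - lo))) d b w := by
      rw [hb, hsd, e2]; exact ho
    rw [Fr.II_S2 (by rw [hb]; exact hG) hCG' (by rw [hb]; exact hGC') hC' hkr (by omega)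
      (by rw [hn]; omega) (by rw [hn]; omega) hoA hoB, hE, KS_rev]
    exact ⟨hcyc', hRul⟩

end PushAux

theorem push {S : Strip} {q r lo hi : ℕ} {C : Finset (Sym2 Cube)} (hC : Valid C)
    (h : ArcP S q r C lo hi) (hC' : Valid (symmDiff C S.bS)) (hR : R C) :
    R (symmDiff C S.bS) := by
  have hqn := h.ki.qn
  have hlt := h.ki.lt
  have hhi := h.ki.hi_le
  have hrn := h.rn
  have hlo := h.lo_le
  have hle := h.le_hi
  by_cases hcase : (hi ≤ q + S.n + 2 ∧ q + S.n + 1 ≤ hi) ∨ (lo < q ∧ q + S.n + 3 ≤ hi) ∨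
      (q + 2 ≤ lo ∧ hi ≤ q + S.n) ∨ (lo < q ∧ hi ≤ q + S.n)
  · exact PushAux.push_aux hC h hC' hR hcase
  · have hn : S.rev.n = S.n := Strip.rev_n S
    have hb : S.rev.bS = S.bS := Strip.rev_bS S
    have hr : ArcP S.rev (S.n - 1 - q) (S.n - 1 - r) C (2 * S.n + 1 - hi) (2 * S.n + 1 - lo) :=
      Strip.rev_ArcP h
    have key := PushAux.push_aux hC hr (by rw [hb]; exact hC') hR (by rw [hn]; omega)
    rw [hb] at key
    exact key

end Pool.Agent.Helper24.GEO
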