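import Pool.Agent.Helper24.GEO.Basic

/-!
# GEO-02: horizontal segments of a valid curve (project GEO, MP_409f7f_co)

Every vertex `u` of a valid curve has exactly two directions; following the curve from `u` in each of
them one reaches a vertical end of the horizontal segment of `u`. The two ends are different and
there is no other vertical end on the segment.

PROOF of `seg_ends`. For a direction `d = 1` (forward) at `u`: induction on a bound for
`xc (k + 1)` on the finite curve; `nx u` has degree 2, one of its edges is `hzE u` (direction 3),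
the other one is vertical (then `nx u` is the end) or forward (induction). `d = 3` is symmetric,
`d = 0, 2`: the end is `u` itself. No other vertical end: all vertices strictly between the two
ends have both horizontal edges, the vertices of the segment (`HC C u w`) lie between the ends.
-/

namespace Pool.Agent.Helper24.GEO

open Pool.Agent.Helper17.UF Pool.Agent.Helper53.GP Pool.Agent.Helper24.RUL

variable {C D : Finset (Sym2 Cube)} {p q u : Cube}

theorem HC.refl (C : Finset (Sym2 Cube)) (p : Cube) : HC C p p := Relation.EqvGen.refl p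

theorem HC.symm (h : HC C p q) : HC C q p := Relation.EqvGen.symm _ _ h

theorem HC.trans (h : HC C p q) (h' : HC C q u) : HC C p u := Relation.EqvGen.trans _ _ _ h h'

theorem HC.mono (hCD : C ⊆ D) (h : HC C p q) : HC D p q := by
  induction h with
  | rel a b hab => exact Relation.EqvGen.rel _ _ ⟨hCD hab.1, hab.2⟩
  | refl a => exact HC.refl _ _
  | symm a b _ ih => exact ih.symm
  | trans a b c _ _ ih1 ih2 => exact ih1.trans ih2

theorem HC.step (h : hzE p ∈ C) : HC C p (nx p) := Relation.EqvGen.rel _ _ ⟨h, rfl⟩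

theorem HC.const {α : Type*} {f : Cube → α} (hf : ∀ p, hzE p ∈ C → f (nx p) = f p)
    (h : HC C p q) : f p = f q := by
  induction h with
  | rel a b hab => rw [hab.2, hf a hab.1]
  | refl a => rfl
  | symm a b _ ih => exact ih.symm
  | trans a b c _ _ ih1 ih2 => exact ih1.trans ih2

theorem HC.level (h : HC C p q) : p.2.2 = q.2.2 :=
  HC.const (f := fun p : Cube => p.2.2) (fun p _ => nx_z p) h

theorem HC.line (h : HC C p q) : xc p.2.2 p = xc p.2.2 q := by
  have h1 : xc p.2.2 p = xc q.2.2 q := by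
    refine HC.const (f := fun p : Cube => xc p.2.2 p) (fun p _ => ?_) h
    show xc (nx p).2.2 (nx p) = xc p.2.2 p
    rw [nx_z, xc_nx]
  rw [h1, HC.level h]

theorem HC.on (h : HC C p q) (hp : On C p) : On C q := by
  have h1 : On C p ↔ On C q := by
    clear hp
    induction h with
    | rel a b hab =>
      refine ⟨fun _ => ⟨hzE a, hab.1, ?_⟩, fun _ => ⟨hzE a, hab.1, ?_⟩⟩
      · rw [mem_hzE]; exact Or.inr hab.2
      · rw [mem_hzE]; exact Or.inl rfl
    | refl a => exact Iff.rfl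
    | symm a b _ ih => exact ih.symm
    | trans a b c _ _ ih1 ih2 => exact ih1.trans ih2
  exact h1.1 hp

theorem VE.on {b : Bool} (h : VE C b u) : On C u ∧ On C (fr b u) :=
  ⟨⟨_, h, Sym2.mem_mk_left _ _⟩, ⟨_, h, Sym2.mem_mk_right _ _⟩⟩

theorem valid_dirs (hC : Valid C) (hu : On C u) : ∃ d1 d2 : Fin 4, d1 ≠ d2 ∧
    ∀ d, s(u, stp d u) ∈ C ↔ d = d1 ∨ d = d2 := by
  have h1 := deg_dirs hC.1 u
  have h2 : (Finset.univ.filter (fun d : Fin 4 => s(u, stp d u) ∈ C)).card = 2 := by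
    rw [← h1]
    rcases hC.2 u with h | h
    · exfalso
      obtain ⟨ε, hε, huε⟩ := hu
      rw [Finset.card_eq_zero] at h
      have h3 : ε ∈ C.filter (fun ε => u ∈ ε) := Finset.mem_filter.2 ⟨hε, huε⟩
      rw [h] at h3
      exact absurd h3 (Finset.notMem_empty _)
    · exact h
  obtain ⟨d1, d2, h12, h3⟩ := Finset.card_eq_two.1 h2
  refine ⟨d1, d2, h12, fun d => ?_⟩
  have h4 : d ∈ Finset.univ.filter (fun d : Fin 4 => s(u, stp d u) ∈ C) ↔
      d ∈ ({d1, d2} : Finset (Fin 4)) := by rw [h3]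
  simpa using h4

/-- A vertical end is reached in exactly one direction. -/
theorem rch_unique {d d' : Fin 4} {y y' : ℤ} {b : Bool} (h : Rch d y b y') (h' : Rch d' y b y') :
    d = d' := by
  rcases h with ⟨rfl, h1, h2⟩ | ⟨rfl, h2⟩ | ⟨rfl, h1, h2⟩ | ⟨rfl, h2⟩ <;>
    rcases h' with ⟨rfl, h1', h2'⟩ | ⟨rfl, h2'⟩ | ⟨rfl, h1', h2'⟩ | ⟨rfl, h2'⟩ <;>
    first
    | rfl
    | (exfalso; omega)
    | (exfalso; rw [h1] at h1'; exact absurd h1' (by decide))

namespace SegAux

/-- The point with coordinate `y` on the line of `u`. -/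
def P (u : Cube) (y : ℤ) : Cube := ptk u.2.2 (xc u.2.2 u) y u.2.2

/-- The coordinate. -/
def yc (u : Cube) : ℤ := xc (u.2.2 + 1) u

theorem P_z (u : Cube) (y : ℤ) : (P u y).2.2 = u.2.2 := ptk_z _ _ _ _

theorem P_xc (u : Cube) (y : ℤ) : xc u.2.2 (P u y) = xc u.2.2 u := xc_ptk _ _ _ _

theorem P_xc' (u : Cube) (y : ℤ) : xc (u.2.2 + 1) (P u y) = y := xc_ptk' _ _ _ _

theorem P_self (u : Cube) : P u (xc (u.2.2 + 1) u) = u := ptk_eta _ _

theorem nx_P (u : Cube) (y : ℤ) : nx (P u y) = P u (y + 1) := nx_ptk _ _ _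

theorem pv_P (u : Cube) (y : ℤ) : pv (P u y) = P u (y - 1) := by
  have h := nx_P u (y - 1)
  rw [sub_add_cancel] at h
  rw [← h, pv_nx]

theorem P_inj {u : Cube} {y y' : ℤ} (h : P u y = P u y') : y = y' := by
  rw [← P_xc' u y, h, P_xc']

theorem P_congr {p q : Cube} (h : p.2.2 = q.2.2) (h' : xc p.2.2 p = xc p.2.2 q) (y : ℤ) :
    P p y = P q y := by
  unfold P
  rw [h', h]

theorem P_of_HC {p q : Cube} (h : HC C p q) (y : ℤ) : P p y = P q y :=
  P_congr h.level h.line y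

theorem eq_P {p q : Cube} (h : HC C p q) : q = P p (xc (p.2.2 + 1) q) := by
  rw [P_of_HC h, h.level, P_self]

/-- Three different directions are impossible. -/
theorem no_three (hC : Valid C) {w : Cube} {a b c : Fin 4} (hab : a ≠ b) (hac : a ≠ c)
    (hbc : b ≠ c) (ha : s(w, stp a w) ∈ C) (hb : s(w, stp b w) ∈ C)
    (hc : s(w, stp c w) ∈ C) : False := by
  obtain ⟨d1, d2, _, h⟩ := valid_dirs hC (⟨_, ha, Sym2.mem_mk_left _ _⟩ : On C w)
  rcases (h a).1 ha with h1 | h1 <;> rcases (h b).1 hb with h2 | h2 <;>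
    rcases (h c).1 hc with h3 | h3
  · exact hab (h1.trans h2.symm)
  · exact hab (h1.trans h2.symm)
  · exact hac (h1.trans h3.symm)
  · exact hbc (h2.trans h3.symm)
  · exact hbc (h2.trans h3.symm)
  · exact hac (h1.trans h3.symm)
  · exact hab (h1.trans h2.symm)
  · exact hab (h1.trans h2.symm)

/-- Given one direction there is another one. -/
theorem another (hC : Valid C) {w : Cube} {a : Fin 4} (ha : s(w, stp a w) ∈ C) :
    ∃ b, b ≠ a ∧ s(w, stp b w) ∈ C := by
  obtain ⟨d1, d2, h12, h⟩ := valid_dirs hC (⟨_, ha, Sym2.mem_mk_left _ _⟩ : On C w)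
  rcases (h a).1 ha with h1 | h1
  · exact ⟨d2, by rw [h1]; exact h12.symm, (h d2).2 (Or.inr rfl)⟩
  · exact ⟨d1, by rw [h1]; exact h12, (h d1).2 (Or.inl rfl)⟩

theorem ext (f : ℕ → Sym2 Cube) (hf : Function.Injective f) (C : Finset (Sym2 Cube)) :
    ∃ n, f n ∉ C ∧ ∀ m, m < n → f m ∈ C := by
  classical
  have h1 : (f ⁻¹' (C : Set (Sym2 Cube))).Finite := C.finite_toSet.preimage hf.injOn
  obtain ⟨n, hn⟩ := h1.exists_notMem
  have h2 : ∃ n, f n ∉ C := ⟨n, hn⟩
  refine ⟨Nat.find h2, Nat.find_spec h2, fun m hm => ?_⟩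
  by_contra h3
  exact Nat.find_min h2 hm h3

theorem hz_stp1 (w : Cube) : s(w, stp 1 w) = hzE w := (edge_stp w).2.1

theorem hz_stp3 (w : Cube) : s(w, stp 3 w) = hzE (pv w) := (edge_stp w).2.2.2

theorem ve_iff {b : Bool} {w : Cube} : VE C b w ↔ s(w, stp (if b then 2 else 0) w) ∈ C := by
  unfold VE
  rw [fr_eq]

theorem ve_of {d : Fin 4} {w : Cube} (h : s(w, stp d w) ∈ C) (h1 : d ≠ 1) (h3 : d ≠ 3) :
    ∃ b : Bool, VE C b w := by
  have h0 : ∀ d : Fin 4, d ≠ 1 → d ≠ 3 → d = 0 ∨ d = 2 := by decide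
  rcases h0 d h1 h3 with rfl | rfl
  · exact ⟨false, ve_iff.2 h⟩
  · exact ⟨true, ve_iff.2 h⟩

theorem ifne1 (b : Bool) : (if b = true then (2 : Fin 4) else 0) ≠ 1 := by cases b <;> decide

theorem ifne3 (b : Bool) : (if b = true then (2 : Fin 4) else 0) ≠ 3 := by cases b <;> decide

theorem ifinj {b b' : Bool} (h : b ≠ b') :
    (if b = true then (2 : Fin 4) else 0) ≠ (if b' = true then (2 : Fin 4) else 0) := by
  revert h; revert b b'; decide

/-- Consecutive edges connect. -/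
theorem hc_edges (u : Cube) {y0 y1 : ℤ} (h01 : y0 ≤ y1)
    (h : ∀ y, y0 ≤ y → y < y1 → hzE (P u y) ∈ C) : HC C (P u y0) (P u y1) := by
  obtain ⟨n, hn⟩ := Int.eq_ofNat_of_zero_le (sub_nonneg.2 h01)
  have h1 : ∀ n : ℕ, y0 + n ≤ y1 → HC C (P u y0) (P u (y0 + n)) := by
    intro n
    induction n with
    | zero => intro _; rw [Nat.cast_zero, add_zero]; exact HC.refl _ _
    | succ n ih =>
      intro hn
      push_cast at hn
      have h2 : hzE (P u (y0 + n)) ∈ C := h _ (by omega) (by omega)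
      have h3 := HC.step h2
      rw [nx_P] at h3
      have h4 := (ih (by omega)).trans h3
      rwa [show y0 + ((n + 1 : ℕ) : ℤ) = y0 + n + 1 by push_cast; ring]
  have h2 := h1 n (by omega)
  rwa [show y0 + (n : ℤ) = y1 by omega] at h2

/-- The edges between connected points are in the curve. -/
theorem edges_hc (h : HC C p q) : ∀ y, min (xc (p.2.2 + 1) p) (xc (q.2.2 + 1) q) ≤ y →
    y < max (xc (p.2.2 + 1) p) (xc (q.2.2 + 1) q) → hzE (P p y) ∈ C := by
  induction h with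
  | rel a b hab =>
    intro y h1 h2
    have h3 : xc (b.2.2 + 1) b = xc (a.2.2 + 1) a + 1 := by
      rw [hab.2, nx_z, xc_nx']
    rw [h3] at h1 h2
    have h4 : y = xc (a.2.2 + 1) a := by
      rw [min_eq_left (by omega)] at h1
      rw [max_eq_right (by omega)] at h2
      omega
    rw [h4, P_self]
    exact hab.1
  | refl a =>
    intro y h1 h2
    rw [min_self] at h1
    rw [max_self] at h2
    omega
  | symm a b h0 ih =>
    intro y h1 h2
    have h3 := ih y (by rwa [min_comm]) (by rwa [max_comm])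
    rwa [← P_of_HC (C := C) (p := a) (q := b) h0]
  | trans a b c h0 h0' ih1 ih2 =>
    intro y h1 h2
    by_cases h3 : min (xc (a.2.2 + 1) a) (xc (b.2.2 + 1) b) ≤ y ∧
        y < max (xc (a.2.2 + 1) a) (xc (b.2.2 + 1) b)
    · exact ih1 y h3.1 h3.2
    · rw [P_of_HC (C := C) (p := a) (q := b) h0]
      refine ih2 y ?_ ?_
      · rw [min_le_iff] at h1 h3 ⊢
        rw [lt_max_iff] at h2 h3
        omega
      · rw [min_le_iff] at h1 h3
        rw [lt_max_iff] at h2 h3 ⊢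
        omega

theorem right_end (hC : Valid C) (h : hzE u ∈ C) : ∃ (R : ℤ) (b : Bool),
    xc (u.2.2 + 1) u < R ∧ (∀ y, xc (u.2.2 + 1) u ≤ y → y < R → hzE (P u y) ∈ C) ∧
    hzE (P u R) ∉ C ∧ VE C b (P u R) := by
  obtain ⟨n, hn, hm⟩ := ext (fun n : ℕ => hzE (P u (xc (u.2.2 + 1) u + n))) (by
    intro n m hnm
    have h1 := P_inj (hzE_inj.1 hnm)
    omega) C
  have h0 : n ≠ 0 := by
    rintro rfl
    apply hn
    show hzE (P u (xc (u.2.2 + 1) u + ((0 : ℕ) : ℤ))) ∈ C
    rw [Nat.cast_zero, add_zero, P_self]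
    exact h
  have hE : ∀ y, xc (u.2.2 + 1) u ≤ y → y < xc (u.2.2 + 1) u + n → hzE (P u y) ∈ C := by
    intro y h1 h2
    obtain ⟨m, hm'⟩ := Int.eq_ofNat_of_zero_le (sub_nonneg.2 h1)
    have h3 := hm m (by omega)
    have h4 : xc (u.2.2 + 1) u + (m : ℤ) = y := by omega
    simpa only [h4] using h3
  have hN : hzE (P u (xc (u.2.2 + 1) u + n)) ∉ C := hn
  have h1 : s(P u (xc (u.2.2 + 1) u + n), stp 3 (P u (xc (u.2.2 + 1) u + n))) ∈ C := by
    rw [hz_stp3, pv_P]
    exact hE _ (by omega) (by omega)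
  obtain ⟨d, hd3, hd⟩ := another hC h1
  have hd1 : d ≠ 1 := by
    rintro rfl
    rw [hz_stp1] at hd
    exact hN hd
  obtain ⟨b, hb⟩ := ve_of hd hd1 hd3
  exact ⟨_, b, by omega, hE, hN, hb⟩

theorem left_end (hC : Valid C) (h : hzE (pv u) ∈ C) : ∃ (L : ℤ) (b : Bool),
    L < xc (u.2.2 + 1) u ∧ (∀ y, L ≤ y → y < xc (u.2.2 + 1) u → hzE (P u y) ∈ C) ∧
    hzE (P u (L - 1)) ∉ C ∧ VE C b (P u L) := by
  obtain ⟨n, hn, hm⟩ := ext (fun n : ℕ => hzE (P u (xc (u.2.2 + 1) u - 1 - n))) (by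
    intro n m hnm
    have h1 := P_inj (hzE_inj.1 hnm)
    omega) C
  have hpu : pv u = P u (xc (u.2.2 + 1) u - 1) := by
    rw [← pv_P, P_self]
  have h0 : n ≠ 0 := by
    rintro rfl
    apply hn
    show hzE (P u (xc (u.2.2 + 1) u - 1 - ((0 : ℕ) : ℤ))) ∈ C
    rw [Nat.cast_zero, sub_zero, ← hpu]
    exact h
  have hE : ∀ y, xc (u.2.2 + 1) u - n ≤ y → y < xc (u.2.2 + 1) u → hzE (P u y) ∈ C := by
    intro y h1 h2
    obtain ⟨m, hm'⟩ := Int.eq_ofNat_of_zero_le (show 0 ≤ xc (u.2.2 + 1) u - 1 - y by omega)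
    have h3 := hm m (by omega)
    have h4 : xc (u.2.2 + 1) u - 1 - (m : ℤ) = y := by omega
    simpa only [h4] using h3
  have hN : hzE (P u (xc (u.2.2 + 1) u - n - 1)) ∉ C := by
    have h1 : xc (u.2.2 + 1) u - 1 - (n : ℤ) = xc (u.2.2 + 1) u - n - 1 := by ring
    simpa only [h1] using hn
  have h1 : s(P u (xc (u.2.2 + 1) u - n), stp 1 (P u (xc (u.2.2 + 1) u - n))) ∈ C := by
    rw [hz_stp1]
    exact hE _ (by omega) (by omega)
  obtain ⟨d, hd1, hd⟩ := another hC h1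
  have hd3 : d ≠ 3 := by
    rintro rfl
    rw [hz_stp3, pv_P] at hd
    exact hN hd
  obtain ⟨b, hb⟩ := ve_of hd hd1 hd3
  exact ⟨_, b, by omega, hE, hN, hb⟩

/-- The end in a direction, with uniqueness. -/
theorem end_dir (hC : Valid C) {d : Fin 4} (hd : s(u, stp d u) ∈ C) :
    ∃ b w, HC C u w ∧ VE C b w ∧ Rch d (xc (u.2.2 + 1) u) b (xc (u.2.2 + 1) w) ∧
      ∀ b' w', HC C u w' → VE C b' w' →
        Rch d (xc (u.2.2 + 1) u) b' (xc (u.2.2 + 1) w') → w' = w ∧ b' = b := by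
  have h4 : ∀ d : Fin 4, d = 0 ∨ d = 1 ∨ d = 2 ∨ d = 3 := by decide
  rcases h4 d with rfl | rfl | rfl | rfl
  · refine ⟨false, u, HC.refl _ _, ve_iff.2 hd, Or.inl ⟨rfl, rfl, rfl⟩, ?_⟩
    intro b' w' hw _ hr
    rcases hr with ⟨_, h1, h2⟩ | ⟨h0, _⟩ | ⟨h0, _, _⟩ | ⟨h0, _⟩
    · refine ⟨?_, h1⟩
      rw [eq_P hw, h2, P_self]
    · exact absurd h0 (by decide)
    · exact absurd h0 (by decide)
    · exact absurd h0 (by decide)
  · rw [hz_stp1] at hd
    obtain ⟨R, b, hR, hE, hN, hb⟩ := right_end hC hd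
    have hcR : HC C u (P u R) := by
      have h1 := hc_edges u hR.le hE
      rwa [P_self] at h1
    refine ⟨b, P u R, hcR, hb, Or.inr (Or.inl ⟨rfl, ?_⟩), ?_⟩
    · rw [P_xc']; exact hR
    · intro b' w' hw hv hr
      have hy : xc (u.2.2 + 1) u < xc (u.2.2 + 1) w' := by
        rcases hr with ⟨h0, _, _⟩ | ⟨_, h1⟩ | ⟨h0, _, _⟩ | ⟨h0, _⟩
        · exact absurd h0 (by decide)
        · exact h1
        · exact absurd h0 (by decide)
        · exact absurd h0 (by decide)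
      have hwP := eq_P hw
      have hlev := hw.level
      have hle : xc (u.2.2 + 1) w' ≤ R := by
        by_contra hlt
        push Not at hlt
        apply hN
        refine edges_hc hw R ?_ ?_
        · rw [← hlev, min_eq_left hy.le]; exact hR.le
        · rw [← hlev, max_eq_right hy.le]; exact hlt
      have hprev : s(w', stp 3 w') ∈ C := by
        rw [hz_stp3, hwP, pv_P]
        exact hE _ (by omega) (by omega)
      have heq : xc (u.2.2 + 1) w' = R := by
        by_contra hne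
        have hnext : s(w', stp 1 w') ∈ C := by
          rw [hz_stp1, hwP]
          exact hE _ hy.le (by omega)
        exact no_three hC (by decide) (ifne1 b').symm (ifne3 b').symm hnext hprev (ve_iff.1 hv)
      have hw' : w' = P u R := by rw [hwP, heq]
      refine ⟨hw', ?_⟩
      by_contra hbb
      rw [← hw'] at hb
      exact no_three hC (ifne3 b').symm (ifne3 b).symm (ifinj hbb) hprev (ve_iff.1 hv)
        (ve_iff.1 hb)
  · refine ⟨true, u, HC.refl _ _, ve_iff.2 hd, Or.inr (Or.inr (Or.inl ⟨rfl, rfl, rfl⟩)), ?_⟩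
    intro b' w' hw _ hr
    rcases hr with ⟨h0, _, _⟩ | ⟨h0, _⟩ | ⟨_, h1, h2⟩ | ⟨h0, _⟩
    · exact absurd h0 (by decide)
    · exact absurd h0 (by decide)
    · refine ⟨?_, h1⟩
      rw [eq_P hw, h2, P_self]
    · exact absurd h0 (by decide)
  · rw [hz_stp3] at hd
    obtain ⟨L, b, hL, hE, hN, hb⟩ := left_end hC hd
    have hcL : HC C u (P u L) := by
      have h1 := hc_edges u hL.le hE
      rw [P_self] at h1
      exact h1.symm
    refine ⟨b, P u L, hcL, hb, Or.inr (Or.inr (Or.inr ⟨rfl, ?_⟩)), ?_⟩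
    · rw [P_xc']; exact hL
    · intro b' w' hw hv hr
      have hy : xc (u.2.2 + 1) w' < xc (u.2.2 + 1) u := by
        rcases hr with ⟨h0, _, _⟩ | ⟨h0, _⟩ | ⟨h0, _, _⟩ | ⟨_, h1⟩
        · exact absurd h0 (by decide)
        · exact absurd h0 (by decide)
        · exact absurd h0 (by decide)
        · exact h1
      have hwP := eq_P hw
      have hlev := hw.level
      have hle : L ≤ xc (u.2.2 + 1) w' := by
        by_contra hlt
        push Not at hlt
        apply hN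
        refine edges_hc hw (L - 1) ?_ ?_
        · rw [← hlev, min_eq_right hy.le]; omega
        · rw [← hlev, max_eq_left hy.le]; omega
      have hnext : s(w', stp 1 w') ∈ C := by
        rw [hz_stp1, hwP]
        exact hE _ hle hy
      have heq : xc (u.2.2 + 1) w' = L := by
        by_contra hne
        have hprev : s(w', stp 3 w') ∈ C := by
          rw [hz_stp3, hwP, pv_P]
          exact hE _ (by omega) (by omega)
        exact no_three hC (by decide) (ifne1 b').symm (ifne3 b').symm hnext hprev (ve_iff.1 hv)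
      have hw' : w' = P u L := by rw [hwP, heq]
      refine ⟨hw', ?_⟩
      by_contra hbb
      rw [← hw'] at hb
      exact no_three hC (ifne1 b').symm (ifne1 b).symm (ifinj hbb) hnext (ve_iff.1 hv)
        (ve_iff.1 hb)

/-- Every vertical end is reached. -/
theorem reach (b : Bool) {w : Cube} (hw : HC C u w) (hv : VE C b w) :
    ∃ d : Fin 4, s(u, stp d u) ∈ C ∧ Rch d (xc (u.2.2 + 1) u) b (xc (u.2.2 + 1) w) := by
  have hlev := hw.level
  rcases lt_trichotomy (xc (u.2.2 + 1) u) (xc (u.2.2 + 1) w) with h | h | h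
  · refine ⟨1, ?_, Or.inr (Or.inl ⟨rfl, h⟩)⟩
    have h1 := edges_hc hw (xc (u.2.2 + 1) u) (min_le_left _ _)
      (by rw [← hlev, max_eq_right h.le]; exact h)
    rwa [P_self, ← hz_stp1] at h1
  · have hwu : w = u := by rw [eq_P hw, ← h, P_self]
    subst hwu
    cases b with
    | false => exact ⟨0, ve_iff.1 hv, Or.inl ⟨rfl, rfl, rfl⟩⟩
    | true => exact ⟨2, ve_iff.1 hv, Or.inr (Or.inr (Or.inl ⟨rfl, rfl, rfl⟩))⟩
  · refine ⟨3, ?_, Or.inr (Or.inr (Or.inr ⟨rfl, h⟩))⟩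
    have h1 := edges_hc hw (xc (u.2.2 + 1) u - 1)
      (by rw [← hlev, min_eq_right h.le]; omega)
      (by rw [← hlev, max_eq_left h.le]; omega)
    rwa [← pv_P, P_self, ← hz_stp3] at h1

end SegAux

open SegAux

theorem seg_ends (hC : Valid C) (hu : On C u) : ∃ (d1 d2 : Fin 4) (b1 b2 : Bool) (u1 u2 : Cube),
    d1 ≠ d2 ∧ (∀ d, s(u, stp d u) ∈ C ↔ d = d1 ∨ d = d2) ∧
    HC C u u1 ∧ VE C b1 u1 ∧ Rch d1 (xc (u.2.2 + 1) u) b1 (xc (u.2.2 + 1) u1) ∧
    HC C u u2 ∧ VE C b2 u2 ∧ Rch d2 (xc (u.2.2 + 1) u) b2 (xc (u.2.2 + 1) u2) ∧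
    ¬ (u1 = u2 ∧ b1 = b2) ∧
    ∀ b w, HC C u w → VE C b w → (w = u1 ∧ b = b1) ∨ (w = u2 ∧ b = b2) := by
  obtain ⟨d1, d2, h12, hd⟩ := valid_dirs hC hu
  obtain ⟨b1, u1, hc1, hv1, hr1, hq1⟩ := end_dir hC ((hd d1).2 (Or.inl rfl))
  obtain ⟨b2, u2, hc2, hv2, hr2, hq2⟩ := end_dir hC ((hd d2).2 (Or.inr rfl))
  refine ⟨d1, d2, b1, b2, u1, u2, h12, hd, hc1, hv1, hr1, hc2, hv2, hr2, ?_, ?_⟩
  · rintro ⟨rfl, rfl⟩
    exact h12 (rch_unique hr1 hr2)
  · intro b w hw hv
    obtain ⟨d, hdC, hr⟩ := reach b hw hv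
    rcases (hd d).1 hdC with rfl | rfl
    · exact Or.inl (hq1 b w hw hv hr)
    · exact Or.inr (hq2 b w hw hv hr)

/-- Every segment has exactly two vertical ends. -/
theorem two_ends (hC : Valid C) (hu : On C u) : ∃ (b1 b2 : Bool) (u1 u2 : Cube),
    HC C u u1 ∧ VE C b1 u1 ∧ HC C u u2 ∧ VE C b2 u2 ∧ ¬ (u1 = u2 ∧ b1 = b2) ∧
    ∀ b w, HC C u w → VE C b w → (w = u1 ∧ b = b1) ∨ (w = u2 ∧ b = b2) := by
  obtain ⟨_, _, b1, b2, u1, u2, _, _, hc1, hv1, _, hc2, hv2, _, hne, hall⟩ := seg_ends hC hu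
  exact ⟨b1, b2, u1, u2, hc1, hv1, hc2, hv2, hne, hall⟩

/-- The segment from `u` in the direction `d` to its vertical end, with the edges between: if none
of them is in `B` then the end is an `OutEnd` of `C \ B`. -/
theorem outEnd_of (hC : Valid C) (hu : On C u) {d : Fin 4} (hd : s(u, stp d u) ∈ C)
    (B : Finset (Sym2 Cube))
    (hB : ∀ w (d' : Fin 4), HC C u w → s(w, stp d' w) ∈ B →
      (d = 1 → xc (u.2.2 + 1) u < xc (u.2.2 + 1) w → False) ∧
      (d = 3 → xc (u.2.2 + 1) w < xc (u.2.2 + 1) u → False))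
    (hdB : s(u, stp d u) ∉ B) :
    ∃ b w, OutEnd (C \ B) u d b w := by
  have hdm : s(u, stp d u) ∈ C \ B := Finset.mem_sdiff.2 ⟨hd, hdB⟩
  have h4 : ∀ d : Fin 4, d = 0 ∨ d = 1 ∨ d = 2 ∨ d = 3 := by decide
  rcases h4 d with rfl | rfl | rfl | rfl
  · exact ⟨false, u, hdm, HC.refl _ _, ve_iff.2 hdm, Or.inl ⟨rfl, rfl, rfl⟩⟩
  · have hd' := hd
    rw [hz_stp1] at hd'
    obtain ⟨R, b, hR, hE, hN, hb⟩ := right_end hC hd'
    have hcy : ∀ y, xc (u.2.2 + 1) u ≤ y → y ≤ R → HC C u (P u y) := by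
      intro y h1 h2
      have h3 := hc_edges (C := C) u h1 (fun z hz1 hz2 => hE z hz1 (by omega))
      rwa [P_self] at h3
    have hcR : HC (C \ B) u (P u R) := by
      have h1 := hc_edges (C := C \ B) u hR.le (fun y hy1 hy2 => by
        rw [Finset.mem_sdiff]
        refine ⟨hE y hy1 hy2, fun hyB => ?_⟩
        rcases eq_or_lt_of_le hy1 with hy | hy
        · rw [← hy, P_self, ← hz_stp1] at hyB
          exact hdB hyB
        · rw [← hz_stp1] at hyB
          refine (hB _ _ (hcy y hy1 hy2.le) hyB).1 rfl ?_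
          rw [P_xc']; exact hy)
      rwa [P_self] at h1
    refine ⟨b, P u R, hdm, hcR, ?_, Or.inr (Or.inl ⟨rfl, by rw [P_xc']; exact hR⟩)⟩
    rw [ve_iff] at hb ⊢
    rw [Finset.mem_sdiff]
    refine ⟨hb, fun hbB => (hB _ _ (hcy R hR.le le_rfl) hbB).1 rfl ?_⟩
    rw [P_xc']; exact hR
  · exact ⟨true, u, hdm, HC.refl _ _, ve_iff.2 hdm, Or.inr (Or.inr (Or.inl ⟨rfl, rfl, rfl⟩))⟩
  · have hd' := hd
    rw [hz_stp3] at hd'
    obtain ⟨L, b, hL, hE, hN, hb⟩ := left_end hC hd'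
    have hcy : ∀ y, L ≤ y → y ≤ xc (u.2.2 + 1) u → HC C u (P u y) := by
      intro y h1 h2
      have h3 := hc_edges (C := C) u h2 (fun z hz1 hz2 => hE z (by omega) hz2)
      rw [P_self] at h3
      exact h3.symm
    have hcL : HC (C \ B) u (P u L) := by
      have h1 := hc_edges (C := C \ B) u hL.le (fun y hy1 hy2 => by
        rw [Finset.mem_sdiff]
        refine ⟨hE y hy1 hy2, fun hyB => ?_⟩
        rw [← hz_stp1] at hyB
        refine (hB _ _ (hcy y hy1 hy2.le) hyB).2 rfl ?_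
        rw [P_xc']; exact hy2)
      rw [P_self] at h1
      exact h1.symm
    refine ⟨b, P u L, hdm, hcL, ?_, Or.inr (Or.inr (Or.inr ⟨rfl, by rw [P_xc']; exact hL⟩))⟩
    rw [ve_iff] at hb ⊢
    rw [Finset.mem_sdiff]
    refine ⟨hb, fun hbB => (hB _ _ (hcy L le_rfl hL.le) hbB).2 rfl ?_⟩
    rw [P_xc']; exact hL


end Pool.Agent.Helper24.GEO
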