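import Pool.Agent.Helper24.GEO.Seg

/-!
# GEO-06: vertices and edges of a column (project GEO, MP_409f7f_co)

`s = 0, 1` is the side, `i = 0, .., n` the index of the vertex from the end S to the end N. All facts
are computations with `ptk` (`up_ptk`, `nx_ptk`, `nx_ptk_up`, `nx_ptk_dn`, `xc_ptk`, ..); the cases are
`y0 < y1`, `y0 > y1`, `y0 = y1` (then `n = 2` and `g0 ≠ g1`).
-/

namespace Pool.Agent.Helper24.GEO

open Pool.Agent.Helper17.UF Pool.Agent.Helper53.GP Pool.Agent.Helper24.RUL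

namespace Strip

variable {S : Strip} {s s' : ℤ} {i i' : ℕ}

theorem two_le (S : Strip) : 2 ≤ S.n := by
  unfold Strip.n
  omega

/-- The two cases for the sign. -/
theorem sgA_cases (S : Strip) : (S.y0 ≤ S.y1 ∧ S.sg = 1 ∧ S.y1 = S.y0 + ((S.n : ℤ) - 2)) ∨
    (S.y1 < S.y0 ∧ S.sg = -1 ∧ S.y1 = S.y0 - ((S.n : ℤ) - 2)) := by
  unfold Strip.sg Strip.n
  by_cases h : S.y0 ≤ S.y1
  · left
    rw [if_pos h]
    refine ⟨h, rfl, ?_⟩
    push_cast
    rw [abs_of_nonneg (by omega)]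
    ring
  · right
    rw [if_neg h]
    refine ⟨by omega, rfl, ?_⟩
    push_cast
    rw [abs_of_neg (by omega)]
    ring

theorem y1_eq (S : Strip) : S.y1 = S.y0 + S.sg * ((S.n : ℤ) - 2) := by
  rcases sgA_cases S with ⟨-, h2, h3⟩ | ⟨-, h2, h3⟩
  · rw [h2, one_mul]; exact h3
  · rw [h2]; linarith

theorem vxA_zero (S : Strip) (s : ℤ) : S.vx s 0 = ptk S.k (S.c + s) S.y0 (S.far S.g0) := by
  unfold Strip.vx
  rw [if_pos rfl]

theorem vxA_mid (h1 : 1 ≤ i) (h2 : i < S.n) :
    S.vx s i = ptk S.k (S.c + s) (S.y0 + S.sg * ((i : ℤ) - 1)) S.k := by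
  unfold Strip.vx
  rw [if_neg (by omega), if_pos h2]

theorem vxA_top (S : Strip) (s : ℤ) : S.vx s S.n = ptk S.k (S.c + s) S.y1 (S.far S.g1) := by
  have := two_le S
  unfold Strip.vx
  rw [if_neg (by omega), if_neg (by omega)]

theorem vxA_z_top (S : Strip) (s : ℤ) (h : S.n ≤ i) :
    S.vx s i = ptk S.k (S.c + s) S.y1 (S.far S.g1) := by
  have := two_le S
  unfold Strip.vx
  rw [if_neg (by omega), if_neg (by omega)]

theorem farA_ne (S : Strip) (g : Bool) : S.far g ≠ S.k := by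
  unfold Strip.far
  cases g <;> simp

theorem farA_inj {g g' : Bool} (h : S.far g = S.far g') : g = g' := by
  unfold Strip.far at h
  cases g <;> cases g' <;> simp at h ⊢ <;> omega

theorem vx_z (h1 : 1 ≤ i) (h2 : i < S.n) : (S.vx s i).2.2 = S.k := by
  rw [vxA_mid h1 h2, ptk_z]

theorem xc_vx (s : ℤ) (i : ℕ) : xc S.k (S.vx s i) = S.c + s := by
  rcases Nat.eq_zero_or_pos i with h | h
  · subst h
    rw [vxA_zero, xc_ptk]
  · rcases Nat.lt_or_ge i S.n with h2 | h2
    · rw [vxA_mid h h2, xc_ptk]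
    · rw [vxA_z_top S s h2, xc_ptk]

theorem xc_vx' (h1 : 1 ≤ i) (h2 : i < S.n) :
    xc (S.k + 1) (S.vx s i) = S.y0 + S.sg * ((i : ℤ) - 1) := by
  rw [vxA_mid h1 h2, xc_ptk']

theorem zA_iff (hi : i ≤ S.n) : (S.vx s i).2.2 = S.k ↔ 1 ≤ i ∧ i < S.n := by
  constructor
  · intro h
    rcases Nat.eq_zero_or_pos i with h0 | h0
    · subst h0
      rw [vxA_zero, ptk_z] at h
      exact absurd h (farA_ne S _)
    · refine ⟨h0, ?_⟩
      by_contra h2
      have : i = S.n := by omega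
      subst this
      rw [vxA_top, ptk_z] at h
      exact absurd h (farA_ne S _)
  · intro h
    exact vx_z h.1 h.2

theorem vx_inj (hi : i ≤ S.n) (hi' : i' ≤ S.n) (h : S.vx s i = S.vx s' i') :
    s = s' ∧ i = i' := by
  have h2n := two_le S
  have hx := congrArg (xc S.k) h
  rw [xc_vx, xc_vx] at hx
  have hs : s = s' := by omega
  refine ⟨hs, ?_⟩
  subst hs
  have hz : (1 ≤ i ∧ i < S.n) ↔ (1 ≤ i' ∧ i' < S.n) := by
    rw [← zA_iff (s := s) hi, ← zA_iff (s := s) hi', h]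
  by_cases hm : 1 ≤ i ∧ i < S.n
  · have hm' := hz.1 hm
    have hy := congrArg (xc (S.k + 1)) h
    rw [xc_vx' hm.1 hm.2, xc_vx' hm'.1 hm'.2] at hy
    rcases sgA_cases S with ⟨-, h3, -⟩ | ⟨-, h3, -⟩ <;> rw [h3] at hy <;> omega
  · have hm' : ¬ (1 ≤ i' ∧ i' < S.n) := fun hc => hm (hz.2 hc)
    have hne : ∀ s : ℤ, S.vx s 0 ≠ S.vx s S.n := by
      intro s he
      rw [vxA_zero, vxA_top] at he
      have h3 := congrArg (xc (S.k + 1)) he
      rw [xc_ptk', xc_ptk'] at h3
      have h4 := congrArg (fun p : Cube => p.2.2) he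
      simp only [ptk_z] at h4
      exact S.ok h3 (farA_inj h4)
    have h5 : i = 0 ∨ i = S.n := by omega
    have h6 : i' = 0 ∨ i' = S.n := by omega
    rcases h5 with h5 | h5 <;> rcases h6 with h6 | h6
    · omega
    · rw [h5, h6] at h
      exact absurd h (hne s)
    · rw [h5, h6] at h
      exact absurd h.symm (hne s)
    · omega

/-- The far vertices. -/
theorem vx_zero (s : ℤ) : S.vx s 0 = fr (!S.g0) (S.vx s 1) := by
  have h2n := two_le S
  rw [vxA_zero, vxA_mid (i := 1) le_rfl (by omega)]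
  unfold fr Strip.far
  cases S.g0
  · simp [dn_ptk]
  · simp [up_ptk]

theorem vx_n (s : ℤ) : S.vx s S.n = fr (!S.g1) (S.vx s (S.n - 1)) := by
  have h2n := two_le S
  rw [vxA_top, vxA_mid (i := S.n - 1) (by omega) (by omega)]
  have e : S.y0 + S.sg * (((S.n - 1 : ℕ) : ℤ) - 1) = S.y1 := by
    rw [y1_eq S]
    push_cast [show 1 ≤ S.n by omega]
    ring
  rw [e]
  unfold fr Strip.far
  cases S.g1
  · simp [dn_ptk]
  · simp [up_ptk]

theorem pvA_ptk (k x y : ℤ) : pv (ptk k x y k) = ptk k x (y - 1) k := by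
  have h := nx_ptk k x (y - 1)
  rw [sub_add_cancel] at h
  rw [← h, pv_nx]

theorem stpA_one (u : Cube) : stp 1 u = nx u := by
  unfold stp
  rw [if_neg (by decide), if_pos rfl]

theorem stpA_zero (u : Cube) : stp 0 u = up u := by
  unfold stp
  rw [if_pos rfl]

theorem stpA_two (u : Cube) : stp 2 u = dn u := by
  unfold stp
  rw [if_neg (by decide), if_neg (by decide), if_pos rfl]

theorem stpA_three (u : Cube) : stp 3 u = pv u := by
  unfold stp
  rw [if_neg (by decide), if_neg (by decide), if_neg (by decide)]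

/-- The contour directions. -/
theorem vx_dN (h1 : 1 ≤ i) (h2 : i < S.n) : S.vx s (i + 1) = stp (S.dN i) (S.vx s i) := by
  have h2n := two_le S
  unfold Strip.dN
  by_cases h : i + 1 = S.n
  · rw [if_pos h, h, vx_n]
    have e : S.n - 1 = i := by omega
    rw [e, fr_eq]
    cases S.g1 <;> simp
  · rw [if_neg h, vxA_mid (i := i + 1) (by omega) (by omega), vxA_mid h1 h2]
    rcases sgA_cases S with ⟨h3, h4, -⟩ | ⟨h3, h4, -⟩
    · rw [if_pos h3, h4, stpA_one, nx_ptk]
      congr 1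
      push_cast
      ring
    · rw [if_neg (by omega), h4, stpA_three, pvA_ptk]
      congr 1
      push_cast
      ring

theorem vx_dS (h1 : 1 ≤ i) (h2 : i < S.n) : S.vx s (i - 1) = stp (S.dS i) (S.vx s i) := by
  have h2n := two_le S
  unfold Strip.dS
  by_cases h : i = 1
  · subst h
    rw [if_pos rfl, Nat.sub_self, vx_zero, fr_eq]
    cases S.g0 <;> simp
  · rw [if_neg h, vxA_mid (i := i - 1) (by omega) (by omega), vxA_mid h1 h2]
    rcases sgA_cases S with ⟨h3, h4, -⟩ | ⟨h3, h4, -⟩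
    · rw [if_pos h3, h4, stpA_three, pvA_ptk]
      congr 1
      push_cast [h1]
      ring
    · rw [if_neg (by omega), h4, stpA_one, nx_ptk]
      congr 1
      push_cast [h1]
      ring

theorem dS_ne_dN (h1 : 1 ≤ i) (h2 : i < S.n) : S.dS i ≠ S.dN i := by
  intro h
  have h3 : S.vx 0 (i - 1) = S.vx 0 (i + 1) := by
    rw [vx_dS h1 h2, vx_dN h1 h2, h]
  have := (vx_inj (S := S) (by omega) (by omega) h3).2
  omega

/-- The inner edges are horizontal. -/
theorem mid_edge (h1 : 1 ≤ i) (h2 : i + 1 < S.n) :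
    ∃ p, s(S.vx s i, S.vx s (i + 1)) = hzE p ∧ p.2.2 = S.k ∧ xc S.k p = S.c + s := by
  have hN := vx_dN (S := S) (s := s) h1 (by omega)
  unfold Strip.dN at hN
  rw [if_neg (by omega)] at hN
  rcases sgA_cases S with ⟨h3, -, -⟩ | ⟨h3, -, -⟩
  · rw [if_pos h3, stpA_one] at hN
    refine ⟨S.vx s i, ?_, vx_z h1 (by omega), xc_vx s i⟩
    rw [hN]
    rfl
  · rw [if_neg (by omega), stpA_three] at hN
    refine ⟨S.vx s (i + 1), ?_, vx_z (by omega) h2, xc_vx s (i + 1)⟩
    unfold hzE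
    rw [hN, nx_pv, Sym2.eq_swap]

theorem endA (k x y : ℤ) (S : Strip) (g : Bool) (hk : S.k = k) :
    ∃ p, s(ptk k x y (S.far g), ptk k (x + 1) y (S.far g)) = hzE p ∧ p.2.2 = S.far g := by
  unfold Strip.far
  rw [hk]
  cases g
  · refine ⟨ptk k x y (k - 1), ?_, ?_⟩
    · unfold hzE
      rw [nx_ptk_dn]
      simp
    · rw [ptk_z]
      simp
  · refine ⟨ptk k (x + 1) y (k + 1), ?_, ?_⟩
    · unfold hzE
      rw [nx_ptk_up, Sym2.eq_swap]
      simp
    · rw [ptk_z]
      simp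

/-- The end edges are horizontal, at the level of the far vertices. -/
theorem end_S : ∃ p, s(S.vx 0 0, S.vx 1 0) = hzE p ∧ p.2.2 = S.far S.g0 := by
  rw [vxA_zero, vxA_zero, add_zero]
  exact endA _ _ _ S _ rfl

theorem end_N : ∃ p, s(S.vx 0 S.n, S.vx 1 S.n) = hzE p ∧ p.2.2 = S.far S.g1 := by
  rw [vxA_top, vxA_top, add_zero]
  exact endA _ _ _ S _ rfl

theorem frA_edge (b : Bool) (u : Cube) : ∃ p, s(fr b u, u) = upE p := by
  unfold fr upE
  cases b
  · refine ⟨u, ?_⟩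
    rw [if_neg (by decide), Sym2.eq_swap]
  · refine ⟨dn u, ?_⟩
    rw [if_pos rfl, up_dn]

theorem leg_S (s : ℤ) : ∃ p, s(S.vx s 0, S.vx s 1) = upE p := by
  rw [vx_zero]
  exact frA_edge _ _

theorem leg_N (s : ℤ) : ∃ p, s(S.vx s (S.n - 1), S.vx s S.n) = upE p := by
  rw [vx_n, Sym2.eq_swap]
  exact frA_edge _ _

theorem side_leg (hi : i < S.n) : ∃ p, s(S.vx s i, S.vx s (i + 1)) = upE p ∨
    s(S.vx s i, S.vx s (i + 1)) = hzE p := by
  rcases Nat.eq_zero_or_pos i with h | h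
  · subst h
    obtain ⟨p, hp⟩ := leg_S (S := S) s
    exact ⟨p, Or.inl hp⟩
  · by_cases h2 : i + 1 = S.n
    · obtain ⟨p, hp⟩ := leg_N (S := S) s
      have e : S.n - 1 = i := by omega
      rw [e, ← h2] at hp
      exact ⟨p, Or.inl hp⟩
    · obtain ⟨p, hp, -⟩ := mid_edge (S := S) (s := s) (i := i) h (by omega)
      exact ⟨p, Or.inr hp⟩

theorem memA_bS (ε : Sym2 Cube) : ε ∈ S.bS ↔
    (∃ s : ℤ, (s = 0 ∨ s = 1) ∧ ∃ i, i < S.n ∧ ε = s(S.vx s i, S.vx s (i + 1))) ∨
    ε = s(S.vx 0 0, S.vx 1 0) ∨ ε = s(S.vx 0 S.n, S.vx 1 S.n) := by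
  unfold Strip.bS
  simp only [Finset.mem_union, Finset.mem_image, Finset.mem_range, Finset.mem_insert,
    Finset.mem_singleton]
  constructor
  · rintro ((⟨i, h1, h2⟩ | ⟨i, h1, h2⟩) | h)
    · exact Or.inl ⟨0, Or.inl rfl, i, h1, h2.symm⟩
    · exact Or.inl ⟨1, Or.inr rfl, i, h1, h2.symm⟩
    · exact Or.inr h
  · rintro (⟨s, hs, i, h1, h2⟩ | h)
    · rcases hs with rfl | rfl
      · exact Or.inl (Or.inl ⟨i, h1, h2.symm⟩)
      · exact Or.inl (Or.inr ⟨i, h1, h2.symm⟩)
    · exact Or.inr h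

/-- The vertical edges of the boundary are exactly the four legs. -/
theorem vert_edge {p : Cube} (h : upE p ∈ S.bS) : ∃ s, (s = 0 ∨ s = 1) ∧
    (upE p = s(S.vx s 0, S.vx s 1) ∨ upE p = s(S.vx s (S.n - 1), S.vx s S.n)) := by
  rw [memA_bS] at h
  rcases h with ⟨s, hs, i, h1, h2⟩ | h | h
  · refine ⟨s, hs, ?_⟩
    rcases Nat.eq_zero_or_pos i with h0 | h0
    · subst h0
      exact Or.inl h2
    · by_cases h3 : i + 1 = S.n
      · right
        have e : S.n - 1 = i := by omega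
        rw [e, ← h3]
        exact h2
      · obtain ⟨q, hq, -⟩ := mid_edge (S := S) (s := s) (i := i) h0 (by omega)
        rw [hq] at h2
        exact absurd h2 (upE_ne_hzE _ _)
  · obtain ⟨q, hq, -⟩ := end_S (S := S)
    rw [hq] at h
    exact absurd h (upE_ne_hzE _ _)
  · obtain ⟨q, hq, -⟩ := end_N (S := S)
    rw [hq] at h
    exact absurd h (upE_ne_hzE _ _)

/-- A horizontal edge of the boundary is at level `k` on one of the two sides, or an end edge. -/
theorem hz_edge {p : Cube} (h : hzE p ∈ S.bS) :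
    (∃ s i, (s = 0 ∨ s = 1) ∧ 1 ≤ i ∧ i + 1 < S.n ∧ hzE p = s(S.vx s i, S.vx s (i + 1))) ∨
    hzE p = s(S.vx 0 0, S.vx 1 0) ∨ hzE p = s(S.vx 0 S.n, S.vx 1 S.n) := by
  rw [memA_bS] at h
  rcases h with ⟨s, hs, i, h1, h2⟩ | h | h
  · left
    rcases Nat.eq_zero_or_pos i with h0 | h0
    · subst h0
      obtain ⟨q, hq⟩ := leg_S (S := S) s
      rw [hq] at h2
      exact absurd h2.symm (upE_ne_hzE _ _)
    · by_cases h3 : i + 1 = S.n
      · obtain ⟨q, hq⟩ := leg_N (S := S) s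
        have e : S.n - 1 = i := by omega
        rw [e, ← h3] at hq
        rw [hq] at h2
        exact absurd h2.symm (upE_ne_hzE _ _)
      · exact ⟨s, i, hs, h0, by omega, h2⟩
  · exact Or.inr (Or.inl h)
  · exact Or.inr (Or.inr h)

/-- The vertices of the edges of the boundary. -/
theorem memA_vx {ε : Sym2 Cube} {v : Cube} (h : ε ∈ S.bS) (hv : v ∈ ε) :
    ∃ s : ℤ, (s = 0 ∨ s = 1) ∧ ∃ i, i ≤ S.n ∧ v = S.vx s i := by
  rw [memA_bS] at h
  rcases h with ⟨s, hs, i, h1, h2⟩ | h | h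
  · subst h2
    rw [Sym2.mem_iff] at hv
    rcases hv with hv | hv
    · exact ⟨s, hs, i, by omega, hv⟩
    · exact ⟨s, hs, i + 1, by omega, hv⟩
  · subst h
    rw [Sym2.mem_iff] at hv
    rcases hv with hv | hv
    · exact ⟨0, Or.inl rfl, 0, by omega, hv⟩
    · exact ⟨1, Or.inr rfl, 0, by omega, hv⟩
  · subst h
    rw [Sym2.mem_iff] at hv
    rcases hv with hv | hv
    · exact ⟨0, Or.inl rfl, S.n, by omega, hv⟩
    · exact ⟨1, Or.inr rfl, S.n, by omega, hv⟩

/-- Edges of the boundary at a vertex of a side at level `k`: only the two contour directions. -/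
theorem dir_bS (hs : s = 0 ∨ s = 1) (h1 : 1 ≤ i) (h2 : i < S.n) (d : Fin 4) :
    s(S.vx s i, stp d (S.vx s i)) ∈ S.bS ↔ d = S.dS i ∨ d = S.dN i := by
  constructor
  · intro h
    have h' := h
    rw [memA_bS] at h
    have hv : S.vx s i ∈ s(S.vx s i, stp d (S.vx s i)) := Sym2.mem_mk_left _ _
    rcases h with ⟨s', hs', j, h3, h4⟩ | h | h
    · rw [h4, Sym2.mem_iff] at hv
      rcases hv with hv | hv
      · obtain ⟨e1, e2⟩ := vx_inj (by omega) (by omega) hv
        subst e1; subst e2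
        right
        rw [vx_dN h1 h2] at h4
        exact edge_stp_inj h4
      · obtain ⟨e1, e2⟩ := vx_inj (by omega) (by omega) hv
        subst e1; subst e2
        left
        have h5 := vx_dS (S := S) (s := s) h1 h2
        rw [Nat.add_sub_cancel] at h5
        rw [Sym2.eq_swap (a := S.vx s j), h5] at h4
        exact edge_stp_inj h4
    · rw [h, Sym2.mem_iff] at hv
      rcases hv with hv | hv
      · have := (vx_inj (by omega) (by omega) hv).2
        omega
      · have := (vx_inj (by omega) (by omega) hv).2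
        omega
    · rw [h, Sym2.mem_iff] at hv
      rcases hv with hv | hv
      · have := (vx_inj (by omega) (by omega) hv).2
        omega
      · have := (vx_inj (by omega) (by omega) hv).2
        omega
  · intro h
    rw [memA_bS]
    left
    refine ⟨s, hs, ?_⟩
    rcases h with h | h
    · subst h
      refine ⟨i - 1, by omega, ?_⟩
      have e : i - 1 + 1 = i := by omega
      rw [e, ← vx_dS h1 h2, Sym2.eq_swap]
    · subst h
      refine ⟨i, h2, ?_⟩
      rw [← vx_dN h1 h2]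

/-- A boundary edge at level `k` at a point `w` of the line `c + s` : `w` lies between the ends. -/
theorem bS_between (hs : s = 0 ∨ s = 1) {w : Cube} (hw : w.2.2 = S.k) (hx : xc S.k w = S.c + s)
    {d : Fin 4} (h : s(w, stp d w) ∈ S.bS) :
    ∃ i, 1 ≤ i ∧ i < S.n ∧ w = S.vx s i := by
  have _ := hs
  obtain ⟨s', -, j, hj, he⟩ := memA_vx h (Sym2.mem_mk_left _ _)
  subst he
  rw [xc_vx] at hx
  have hss : s' = s := by omega
  subst hss
  obtain ⟨h3, h4⟩ := (zA_iff hj).1 hw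
  exact ⟨j, h3, h4, rfl⟩

/-- If the direction `d` at `vx s i` is not a contour direction and is horizontal, then the points
beyond `vx s i` in this direction are not on the contour. -/
theorem beyond (hs : s = 0 ∨ s = 1) (h1 : 1 ≤ i) (h2 : i < S.n) {d : Fin 4} (hS : d ≠ S.dS i)
    (hN : d ≠ S.dN i) {w : Cube} (hw : w.2.2 = S.k) (hx : xc S.k w = S.c + s)
    (hd : (d = 1 ∧ xc (S.k + 1) (S.vx s i) < xc (S.k + 1) w) ∨
      (d = 3 ∧ xc (S.k + 1) w < xc (S.k + 1) (S.vx s i))) (d' : Fin 4) :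
    s(w, stp d' w) ∉ S.bS := by
  intro h
  obtain ⟨j, h3, h4, rfl⟩ := bS_between hs hw hx h
  rw [xc_vx' h1 h2, xc_vx' h3 h4] at hd
  unfold Strip.dS at hS
  unfold Strip.dN at hN
  rcases sgA_cases S with ⟨h5, h6, -⟩ | ⟨h5, h6, -⟩ <;> rw [h6] at hd
  · rw [if_pos h5] at hS hN
    rcases hd with ⟨rfl, hd⟩ | ⟨rfl, hd⟩
    · rw [if_neg (by omega)] at hN
      exact hN rfl
    · rw [if_neg (by omega)] at hS
      exact hS rfl
  · have h5' : ¬ S.y0 ≤ S.y1 := by omega
    rw [if_neg h5'] at hS hN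
    rcases hd with ⟨rfl, hd⟩ | ⟨rfl, hd⟩
    · rw [if_neg (by omega : ¬ i = 1)] at hS
      exact hS rfl
    · rw [if_neg (by omega : ¬ i + 1 = S.n)] at hN
      exact hN rfl

/-- The legs are reached from every vertex of the side in the contour direction. -/
theorem rch_S (h1 : 1 ≤ i) (h2 : i < S.n) :
    Rch (S.dS i) (xc (S.k + 1) (S.vx s i)) (!S.g0) S.y0 := by
  rw [xc_vx' h1 h2]
  unfold Rch Strip.dS
  by_cases h : i = 1
  · subst h
    rw [if_pos rfl]
    cases S.g0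
    · right; right; left
      simp
    · left
      simp
  · rw [if_neg h]
    rcases sgA_cases S with ⟨h3, h4, -⟩ | ⟨h3, h4, -⟩
    · rw [if_pos h3, h4]
      right; right; right
      exact ⟨rfl, by omega⟩
    · rw [if_neg (by omega), h4]
      right; left
      exact ⟨rfl, by omega⟩

theorem rch_N (h1 : 1 ≤ i) (h2 : i < S.n) :
    Rch (S.dN i) (xc (S.k + 1) (S.vx s i)) (!S.g1) S.y1 := by
  rw [xc_vx' h1 h2]
  unfold Rch Strip.dN
  by_cases h : i + 1 = S.n
  · rw [if_pos h]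
    have e : S.y1 = S.y0 + S.sg * ((i : ℤ) - 1) := by
      rw [y1_eq S, ← h]
      push_cast
      ring
    rw [← e]
    cases S.g1
    · right; right; left
      simp
    · left
      simp
  · rw [if_neg h]
    rcases sgA_cases S with ⟨h3, h4, h5⟩ | ⟨h3, h4, h5⟩
    · rw [if_pos h3, h4]
      right; left
      exact ⟨rfl, by omega⟩
    · rw [if_neg (by omega), h4]
      right; right; right
      exact ⟨rfl, by omega⟩

end Strip

end Pool.Agent.Helper24.GEO
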