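import Pool.Agent.Helper24.GEO.StripA

/-!
# GEO-07: the contour of a column (project GEO, MP_409f7f_co)

`Z q j`, `0 ≤ j ≤ 2 n + 1`: positions `0 .. q` are `vx 0 q, .., vx 0 0`; positions
`q + 1 .. q + 1 + n` are `vx 1 0, .., vx 1 n`; positions `q + 2 + n .. 2 n + 1` are
`vx 0 n, .., vx 0 (q + 1)`. `q < n`.
-/

namespace Pool.Agent.Helper24.GEO

open Pool.Agent.Helper17.UF Pool.Agent.Helper53.GP Pool.Agent.Helper24.RUL

namespace Strip

variable {S : Strip} {q j j' : ℕ}

theorem Z_lo (h : j ≤ q) : S.Z q j = S.vx 0 (q - j) := by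
  unfold Z; rw [if_pos h]

theorem Z_mid {i : ℕ} (h : i ≤ S.n) : S.Z q (q + 1 + i) = S.vx 1 i := by
  unfold Z
  rw [if_neg (by omega), if_pos (by omega)]
  congr 1
  omega

theorem Z_hi (hq : q < S.n) (h : q + 2 + S.n ≤ j) (h' : j ≤ 2 * S.n + 1) :
    S.Z q j = S.vx 0 (q + 2 * S.n + 2 - j) := by
  unfold Z
  rw [if_neg (by omega), if_neg (by omega)]

/-- Positions of the vertices. -/
theorem vx0_lo {i : ℕ} (h : i ≤ q) : S.vx 0 i = S.Z q (q - i) := by
  rw [Z_lo (by omega)]
  congr 1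
  omega

theorem vx0_hi (hq : q < S.n) {i : ℕ} (h : q + 1 ≤ i) (h' : i ≤ S.n) :
    S.vx 0 i = S.Z q (q + 2 * S.n + 2 - i) := by
  rw [Z_hi hq (by omega) (by omega)]
  congr 1
  omega

/-- Side and index of a position. -/
theorem Z_cases (hq : q < S.n) (hj : j ≤ 2 * S.n + 1) :
    (j ≤ q ∧ S.Z q j = S.vx 0 (q - j)) ∨
    (q + 1 ≤ j ∧ j ≤ q + 1 + S.n ∧ S.Z q j = S.vx 1 (j - q - 1)) ∨
    (q + 2 + S.n ≤ j ∧ S.Z q j = S.vx 0 (q + 2 * S.n + 2 - j)) := by
  rcases Nat.lt_or_ge q j with h | h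
  · rcases Nat.lt_or_ge (q + 1 + S.n) j with h' | h'
    · exact Or.inr (Or.inr ⟨by omega, Z_hi hq (by omega) hj⟩)
    · refine Or.inr (Or.inl ⟨by omega, h', ?_⟩)
      have := Z_mid (S := S) (q := q) (i := j - q - 1) (by omega)
      rwa [show q + 1 + (j - q - 1) = j by omega] at this
  · exact Or.inl ⟨h, Z_lo h⟩

theorem Z_inj (hq : q < S.n) (hj : j ≤ 2 * S.n + 1) (hj' : j' ≤ 2 * S.n + 1)
    (h : S.Z q j = S.Z q j') : j = j' := by
  rcases Z_cases hq hj with ⟨a, e⟩ | ⟨a, b, e⟩ | ⟨a, e⟩ <;>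
    rcases Z_cases hq hj' with ⟨a', e'⟩ | ⟨a', b', e'⟩ | ⟨a', e'⟩ <;>
    rw [e, e'] at h <;> obtain ⟨h1, h2⟩ := vx_inj (by omega) (by omega) h <;>
    first
    | omega
    | (exfalso; exact absurd h1 (by decide))

/-- Contour edges in terms of `Z`. -/
theorem side0_lo {i : ℕ} (h : i < q) :
    s(S.vx 0 i, S.vx 0 (i + 1)) = s(S.Z q (q - i - 1), S.Z q (q - i - 1 + 1)) := by
  rw [Z_lo (by omega), Z_lo (by omega), Sym2.eq_swap]
  congr 2
  · congr 1; omega
  · omega

theorem side0_q (hq : q < S.n) :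
    s(S.vx 0 q, S.vx 0 (q + 1)) = s(S.Z q 0, S.Z q (2 * S.n + 1)) := by
  rw [Z_lo (by omega), Z_hi hq (by omega) (by omega)]
  congr 2
  congr 1
  omega

theorem side0_hi (hq : q < S.n) {i : ℕ} (h : q < i) (h' : i < S.n) :
    s(S.vx 0 i, S.vx 0 (i + 1)) =
      s(S.Z q (q + 2 * S.n + 1 - i), S.Z q (q + 2 * S.n + 1 - i + 1)) := by
  rw [Z_hi hq (by omega) (by omega), Z_hi hq (by omega) (by omega), Sym2.eq_swap]
  congr 2
  · congr 1; omega
  · omega

theorem side1 {i : ℕ} (h : i < S.n) :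
    s(S.vx 1 i, S.vx 1 (i + 1)) = s(S.Z q (q + 1 + i), S.Z q (q + 1 + i + 1)) := by
  rw [Z_mid (by omega), show q + 1 + i + 1 = q + 1 + (i + 1) by omega, Z_mid (by omega)]

theorem endS_Z : s(S.vx 0 0, S.vx 1 0) = s(S.Z q q, S.Z q (q + 1)) := by
  rw [Z_lo le_rfl, Z_mid (i := 0) (Nat.zero_le _), Nat.sub_self]

theorem endN_Z (hq : q < S.n) :
    s(S.vx 0 S.n, S.vx 1 S.n) = s(S.Z q (q + 1 + S.n), S.Z q (q + 1 + S.n + 1)) := by
  rw [Z_mid le_rfl, Z_hi hq (by omega) (by omega), Sym2.eq_swap]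
  congr 2
  congr 1
  omega

theorem mem_bS (hq : q < S.n) {ε : Sym2 Cube} : ε ∈ S.bS ↔
    (∃ j, j < 2 * S.n + 1 ∧ ε = s(S.Z q j, S.Z q (j + 1))) ∨
      ε = s(S.Z q 0, S.Z q (2 * S.n + 1)) := by
  unfold bS
  simp only [Finset.mem_union, Finset.mem_image, Finset.mem_range, Finset.mem_insert,
    Finset.mem_singleton]
  constructor
  · rintro ((⟨i, hi, rfl⟩ | ⟨i, hi, rfl⟩) | (rfl | rfl))
    · rcases lt_trichotomy i q with h | h | h
      · exact Or.inl ⟨_, by omega, side0_lo h⟩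
      · subst h
        exact Or.inr (side0_q hq)
      · exact Or.inl ⟨_, by omega, side0_hi hq h hi⟩
    · exact Or.inl ⟨_, by omega, side1 hi⟩
    · exact Or.inl ⟨_, by omega, endS_Z⟩
    · exact Or.inl ⟨_, by omega, endN_Z hq⟩
  · rintro (⟨j, hj, rfl⟩ | rfl)
    · rcases Nat.lt_or_ge j q with h | h
      · left; left
        refine ⟨q - j - 1, by omega, ?_⟩
        have := side0_lo (S := S) (q := q) (i := q - j - 1) (by omega)
        rwa [show q - (q - j - 1) - 1 = j by omega] at this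
      · rcases Nat.eq_or_lt_of_le h with h | h
        · subst h
          right; left
          exact endS_Z.symm
        · rcases Nat.lt_or_ge j (q + 1 + S.n) with h' | h'
          · left; right
            refine ⟨j - q - 1, by omega, ?_⟩
            have := side1 (S := S) (q := q) (i := j - q - 1) (by omega)
            rwa [show q + 1 + (j - q - 1) = j by omega] at this
          · rcases Nat.eq_or_lt_of_le h' with h' | h'
            · subst h'
              right; right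
              exact (endN_Z hq).symm
            · left; left
              refine ⟨q + 2 * S.n + 1 - j, by omega, ?_⟩
              have := side0_hi (S := S) (q := q) hq (i := q + 2 * S.n + 1 - j) (by omega) (by omega)
              rwa [show q + 2 * S.n + 1 - (q + 2 * S.n + 1 - j) = j by omega] at this
    · left; left
      exact ⟨q, hq, side0_q hq⟩

/-- The edges of the boundary at `Z q j`. -/
theorem edge_at (hq : q < S.n) (hj : j ≤ 2 * S.n + 1) {ε : Sym2 Cube} (hε : ε ∈ S.bS)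
    (hm : S.Z q j ∈ ε) : (1 ≤ j ∧ ε = s(S.Z q (j - 1), S.Z q j)) ∨
      (j < 2 * S.n + 1 ∧ ε = s(S.Z q j, S.Z q (j + 1))) ∨
      ((j = 0 ∨ j = 2 * S.n + 1) ∧ ε = s(S.Z q 0, S.Z q (2 * S.n + 1))) := by
  rcases (mem_bS hq).1 hε with ⟨i, hi, rfl⟩ | rfl
  · rcases Sym2.mem_iff.1 hm with h | h
    · have := Z_inj hq hj (by omega) h
      subst this
      exact Or.inr (Or.inl ⟨hi, rfl⟩)
    · have := Z_inj hq hj (by omega) h
      subst this
      exact Or.inl ⟨by omega, by rw [Nat.add_sub_cancel]⟩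
  · rcases Sym2.mem_iff.1 hm with h | h
    · exact Or.inr (Or.inr ⟨Or.inl (Z_inj hq hj (by omega) h), rfl⟩)
    · exact Or.inr (Or.inr ⟨Or.inr (Z_inj hq hj (by omega) h), rfl⟩)

theorem edge_inj (hq : q < S.n) (hj : j < 2 * S.n + 1) (hj' : j' < 2 * S.n + 1)
    (h : s(S.Z q j, S.Z q (j + 1)) = s(S.Z q j', S.Z q (j' + 1))) : j = j' := by
  rcases Sym2.eq_iff.1 h with ⟨h1, -⟩ | ⟨h1, h2⟩
  · exact Z_inj hq (by omega) (by omega) h1
  · have a := Z_inj hq (by omega) (by omega) h1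
    have b := Z_inj hq (by omega) (by omega) h2
    omega

theorem edge_ne_wrap (hq : q < S.n) (hj : j < 2 * S.n + 1) :
    s(S.Z q j, S.Z q (j + 1)) ≠ s(S.Z q 0, S.Z q (2 * S.n + 1)) := by
  intro h
  have h2 := two_le S
  rcases Sym2.eq_iff.1 h with ⟨h1, h3⟩ | ⟨h1, h3⟩
  · have a := Z_inj hq (by omega) (by omega) h1
    have b := Z_inj hq (by omega) (by omega) h3
    omega
  · have a := Z_inj hq (by omega) (by omega) h1
    have b := Z_inj hq (by omega) (by omega) h3
    omega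

theorem on_bS (hq : q < S.n) {p : Cube} :
    On S.bS p ↔ ∃ j, j ≤ 2 * S.n + 1 ∧ p = S.Z q j := by
  constructor
  · rintro ⟨ε, hε, hp⟩
    rcases (mem_bS hq).1 hε with ⟨i, hi, rfl⟩ | rfl
    · rcases Sym2.mem_iff.1 hp with rfl | rfl
      · exact ⟨i, by omega, rfl⟩
      · exact ⟨i + 1, by omega, rfl⟩
    · rcases Sym2.mem_iff.1 hp with rfl | rfl
      · exact ⟨0, by omega, rfl⟩
      · exact ⟨_, le_rfl, rfl⟩
  · rintro ⟨j, hj, rfl⟩
    rcases Nat.lt_or_ge j (2 * S.n + 1) with h | h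
    · exact ⟨_, (mem_bS hq).2 (Or.inl ⟨j, h, rfl⟩), Sym2.mem_mk_left _ _⟩
    · have : j = 2 * S.n + 1 := by omega
      subst this
      exact ⟨_, (mem_bS hq).2 (Or.inr rfl), Sym2.mem_mk_right _ _⟩

theorem valid_bS (S : Strip) : Valid S.bS := by
  have h2 := two_le S
  have hq : 0 < S.n := by omega
  refine ⟨?_, ?_⟩
  · intro ε hε
    unfold bS at hε
    simp only [Finset.mem_union, Finset.mem_image, Finset.mem_range, Finset.mem_insert,
      Finset.mem_singleton] at hε
    rcases hε with (⟨i, hi, rfl⟩ | ⟨i, hi, rfl⟩) | (rfl | rfl)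
    · exact side_leg hi
    · exact side_leg hi
    · obtain ⟨p, hp, -⟩ := end_S (S := S)
      exact ⟨p, Or.inr hp⟩
    · obtain ⟨p, hp, -⟩ := end_N (S := S)
      exact ⟨p, Or.inr hp⟩
  · intro p
    by_cases hp : ∃ j, j ≤ 2 * S.n + 1 ∧ p = S.Z 0 j
    · right
      obtain ⟨j, hj, rfl⟩ := hp
      rcases Nat.eq_zero_or_pos j with h0 | h0
      · subst h0
        have : S.bS.filter (fun ε => S.Z 0 0 ∈ ε) =
            {s(S.Z 0 0, S.Z 0 1), s(S.Z 0 0, S.Z 0 (2 * S.n + 1))} := by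
          ext ε
          rw [Finset.mem_filter, Finset.mem_insert, Finset.mem_singleton]
          constructor
          · rintro ⟨h1, h3⟩
            rcases edge_at hq (by omega) h1 h3 with ⟨h4, -⟩ | ⟨-, h4⟩ | ⟨-, h4⟩
            · omega
            · exact Or.inl h4
            · exact Or.inr h4
          · rintro (rfl | rfl)
            · exact ⟨(mem_bS hq).2 (Or.inl ⟨0, by omega, rfl⟩), Sym2.mem_mk_left _ _⟩
            · exact ⟨(mem_bS hq).2 (Or.inr rfl), Sym2.mem_mk_left _ _⟩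
        rw [this, Finset.card_pair (edge_ne_wrap hq (j := 0) (by omega))]
      · rcases Nat.lt_or_ge j (2 * S.n + 1) with h | h
        · have : S.bS.filter (fun ε => S.Z 0 j ∈ ε) =
              {s(S.Z 0 (j - 1), S.Z 0 (j - 1 + 1)), s(S.Z 0 j, S.Z 0 (j + 1))} := by
            have e : j - 1 + 1 = j := by omega
            ext ε
            rw [Finset.mem_filter, Finset.mem_insert, Finset.mem_singleton, e]
            constructor
            · rintro ⟨h1, h3⟩
              rcases edge_at hq (by omega) h1 h3 with ⟨-, h4⟩ | ⟨-, h4⟩ | ⟨h4, -⟩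
              · exact Or.inl h4
              · exact Or.inr h4
              · omega
            · rintro (rfl | rfl)
              · refine ⟨(mem_bS hq).2 (Or.inl ⟨j - 1, by omega, by rw [e]⟩), Sym2.mem_mk_right _ _⟩
              · exact ⟨(mem_bS hq).2 (Or.inl ⟨j, by omega, rfl⟩), Sym2.mem_mk_left _ _⟩
          rw [this, Finset.card_pair]
          intro h5
          have := edge_inj hq (j := j - 1) (j' := j) (by omega) (by omega) h5
          omega
        · have hj' : j = 2 * S.n + 1 := by omega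
          subst hj'
          have : S.bS.filter (fun ε => S.Z 0 (2 * S.n + 1) ∈ ε) =
              {s(S.Z 0 (2 * S.n), S.Z 0 (2 * S.n + 1)), s(S.Z 0 0, S.Z 0 (2 * S.n + 1))} := by
            ext ε
            rw [Finset.mem_filter, Finset.mem_insert, Finset.mem_singleton]
            constructor
            · rintro ⟨h1, h3⟩
              rcases edge_at hq (by omega) h1 h3 with ⟨-, h4⟩ | ⟨h4, -⟩ | ⟨-, h4⟩
              · exact Or.inl h4
              · omega
              · exact Or.inr h4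
            · rintro (rfl | rfl)
              · exact ⟨(mem_bS hq).2 (Or.inl ⟨2 * S.n, by omega, rfl⟩), Sym2.mem_mk_right _ _⟩
              · exact ⟨(mem_bS hq).2 (Or.inr rfl), Sym2.mem_mk_right _ _⟩
          rw [this, Finset.card_pair (edge_ne_wrap hq (j := 2 * S.n) (by omega))]
    · left
      rw [Finset.card_eq_zero, Finset.filter_eq_empty_iff]
      intro ε hε hpε
      exact hp ((on_bS hq).1 ⟨ε, hε, hpε⟩)

end Strip

end Pool.Agent.Helper24.GEO
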