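import Pool.Agent.Helper53.GP.Symm

/-!
# The inverse of a lattice symmetry (MP_409f7f_co)
-/

namespace Pool.Agent.Helper24.GEO

open Pool.Agent.Helper17.UF Pool.Agent.Helper53.GP

/-- The inverse of a lattice symmetry. -/
noncomputable def invSym (s : LSym) : LSym where
  g := s.g.symm
  d := s.d.symm
  G := s.G.symm
  hg := by
    intro v t
    apply s.g.injective
    rw [s.hg]
    simp
  hperp := by
    intro a b
    rw [← s.hperp]
    simp
  hG := by
    intro v
    have h1 := s.hG (s.g.symm v)
    rw [Equiv.apply_symm_apply] at h1
    rw [← h1, ← Set.image_comp]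
    have : (s.G.symm : E3 → E3) ∘ (s.G : E3 → E3) = id := by
      funext x; simp
    rw [this, Set.image_id]

theorem unfolding_of_sym (s : LSym) {P : Finset Cube}
    (h : HasEdgeUnfolding (P.map s.g.toEmbedding)) : HasEdgeUnfolding P := by
  have h1 := (invSym s).hasEdgeUnfolding h
  have h2 : (P.map s.g.toEmbedding).map (invSym s).g.toEmbedding = P := by
    rw [Finset.map_map]
    have : s.g.toEmbedding.trans (invSym s).g.toEmbedding = Function.Embedding.refl _ := by
      ext1 v
      exact s.g.symm_apply_apply v
    rw [this, Finset.map_refl]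
  rwa [h2] at h1

end Pool.Agent.Helper24.GEO
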